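import Mathlib

open TopologicalSpace Set Filter Topology
open scoped ENNReal

namespace PST

/-- A countable intersection of open sets in a Polish space is Polish. -/
theorem polish_iInter {X : Type*} [TopologicalSpace X] [PolishSpace X]
    (U : ℕ → Set X) (hU : ∀ n, IsOpen (U n)) : PolishSpace (⋂ n, U n : Set X) := by
  haveI : ∀ n, PolishSpace (U n) := fun n => (hU n).polishSpace
  let φ : (⋂ n, U n : Set X) → (∀ n, U n) := fun x n => ⟨x.1, mem_iInter.1 x.2 n⟩
  have hφ : Continuous φ := by
    refine continuous_pi fun n => ?_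
    exact Continuous.subtype_mk continuous_subtype_val _
  have hemb : IsEmbedding φ := by
    have hc : Continuous (fun z : ∀ n, U n => (z 0 : X)) :=
      continuous_subtype_val.comp (continuous_apply 0)
    have hcomp : IsEmbedding ((fun z : ∀ n, U n => (z 0 : X)) ∘ φ) := by
      have : ((fun z : ∀ n, U n => (z 0 : X)) ∘ φ) = (Subtype.val : (⋂ n, U n : Set X) → X) := rfl
      rw [this]
      exact IsEmbedding.subtypeVal
    exact IsEmbedding.of_comp hφ hc hcomp
  have hclosed : IsClosed (range φ) := by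
    have : range φ = ⋂ n, {z : ∀ n, U n | (z n : X) = (z 0 : X)} := by
      ext z
      constructor
      · rintro ⟨x, rfl⟩
        simp [φ]
      · intro hz
        have hz' : ∀ n, (z n : X) = (z 0 : X) := by
          intro n
          exact mem_iInter.1 hz n
        refine ⟨⟨(z 0 : X), mem_iInter.2 fun n => ?_⟩, ?_⟩
        · rw [← hz' n]
          exact (z n).2
        · funext n
          exact Subtype.ext (hz' n).symm
    rw [this]
    refine isClosed_iInter fun n => ?_
    exact isClosed_eq (continuous_subtype_val.comp (continuous_apply n))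
      (continuous_subtype_val.comp (continuous_apply 0))
  exact IsClosedEmbedding.polishSpace ⟨hemb, hclosed⟩

theorem polish_of_isGδ {X : Type*} [TopologicalSpace X] [PolishSpace X]
    {s : Set X} (hs : IsGδ s) : PolishSpace s := by
  rcases hs.eq_iInter_nat with ⟨U, hU, rfl⟩
  exact polish_iInter U hU

/-- an induced topology under an injective map with Gδ range is Polish -/
theorem polish_induced {S X : Type*} [t : TopologicalSpace X] [PolishSpace X]
    (Φ : S → X) (hinj : Function.Injective Φ) (hG : IsGδ (range Φ)) :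
    @PolishSpace S (t.induced Φ) := by
  haveI := polish_of_isGδ hG
  have h := (Equiv.ofInjective Φ hinj).polishSpace_induced
  have heq : TopologicalSpace.induced (Equiv.ofInjective Φ hinj)
      (inferInstance : TopologicalSpace (range Φ)) = t.induced Φ := by
    show TopologicalSpace.induced (Equiv.ofInjective Φ hinj)
      (TopologicalSpace.induced Subtype.val t) = _
    rw [induced_compose]
    rfl
  rw [heq] at h
  exact h

theorem exists_rat_btwn {a b : ℝ≥0∞} (h : a < b) :
    ∃ q : ℚ, a < ENNReal.ofReal q ∧ ENNReal.ofReal q < b := by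
  obtain ⟨q, _, h1, h2⟩ := ENNReal.lt_iff_exists_rat_btwn.1 h
  exact ⟨q, h1, h2⟩

theorem isGδ_graph_of_lsc {S : Type*} [TopologicalSpace S] [PolishSpace S] {φ : S → ℝ≥0∞}
    (hφ : LowerSemicontinuous φ) : IsGδ {p : S × ℝ≥0∞ | p.2 = φ p.1} := by
  have h1 : IsClosed {p : S × ℝ≥0∞ | φ p.1 ≤ p.2} := by
    rw [← isOpen_compl_iff]
    have : {p : S × ℝ≥0∞ | φ p.1 ≤ p.2}ᶜ =
        ⋃ q : ℚ, {s | ENNReal.ofReal q < φ s} ×ˢ {y | y < ENNReal.ofReal q} := by
      ext ⟨s, y⟩
      simp only [mem_compl_iff, mem_ofPred_eq, not_le, mem_iUnion, mem_prod]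
      constructor
      · intro h
        obtain ⟨q, h1, h2⟩ := exists_rat_btwn h
        exact ⟨q, h2, h1⟩
      · rintro ⟨q, h2, h1⟩
        exact h1.trans h2
    rw [this]
    refine isOpen_iUnion fun q => ?_
    exact (hφ.isOpen_preimage _).prod (isOpen_gt' _)
  have h2 : IsGδ (⋂ q : ℚ, ({p : S × ℝ≥0∞ | p.2 ≤ ENNReal.ofReal q} ∪
      {p : S × ℝ≥0∞ | ENNReal.ofReal q < φ p.1})) := by
    refine IsGδ.iInter fun q => ?_
    refine IsGδ.union ?_ ?_
    · exact (isClosed_Iic.preimage continuous_snd).isGδ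
    · exact ((hφ.isOpen_preimage (ENNReal.ofReal q)).preimage continuous_fst).isGδ
  have : {p : S × ℝ≥0∞ | p.2 = φ p.1} = {p : S × ℝ≥0∞ | φ p.1 ≤ p.2} ∩
      (⋂ q : ℚ, ({p : S × ℝ≥0∞ | p.2 ≤ ENNReal.ofReal q} ∪
      {p : S × ℝ≥0∞ | ENNReal.ofReal q < φ p.1})) := by
    ext ⟨s, y⟩
    simp only [mem_ofPred_eq, mem_inter_iff, mem_iInter, mem_union]
    constructor
    · rintro rfl
      exact ⟨le_rfl, fun q => le_or_gt _ _⟩
    · rintro ⟨h1, h2⟩
      refine le_antisymm ?_ h1
      by_contra hlt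
      rw [not_le] at hlt
      obtain ⟨q, hq1, hq2⟩ := exists_rat_btwn hlt
      rcases h2 q with h | h
      · exact absurd h (not_le.2 hq2)
      · exact absurd (h.trans hq1) (lt_irrefl _)
  rw [this]
  exact h1.isGδ.inter h2

theorem isGδ_graph_of_usc {S : Type*} [TopologicalSpace S] [PolishSpace S] {φ : S → ℝ≥0∞}
    (hφ : UpperSemicontinuous φ) : IsGδ {p : S × ℝ≥0∞ | p.2 = φ p.1} := by
  have h1 : IsClosed {p : S × ℝ≥0∞ | p.2 ≤ φ p.1} := by
    rw [← isOpen_compl_iff]
    have : {p : S × ℝ≥0∞ | p.2 ≤ φ p.1}ᶜ =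
        ⋃ q : ℚ, {s | φ s < ENNReal.ofReal q} ×ˢ {y | ENNReal.ofReal q < y} := by
      ext ⟨s, y⟩
      simp only [mem_compl_iff, mem_ofPred_eq, not_le, mem_iUnion, mem_prod]
      constructor
      · intro h
        obtain ⟨q, h1, h2⟩ := exists_rat_btwn h
        exact ⟨q, h1, h2⟩
      · rintro ⟨q, h2, h1⟩
        exact h2.trans h1
    rw [this]
    refine isOpen_iUnion fun q => ?_
    exact (hφ.isOpen_preimage _).prod (isOpen_lt' _)
  have h2 : IsGδ (⋂ q : ℚ, ({p : S × ℝ≥0∞ | ENNReal.ofReal q ≤ p.2} ∪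
      {p : S × ℝ≥0∞ | φ p.1 < ENNReal.ofReal q})) := by
    refine IsGδ.iInter fun q => ?_
    refine IsGδ.union ?_ ?_
    · exact (isClosed_Ici.preimage continuous_snd).isGδ
    · exact ((hφ.isOpen_preimage (ENNReal.ofReal q)).preimage continuous_fst).isGδ
  have : {p : S × ℝ≥0∞ | p.2 = φ p.1} = {p : S × ℝ≥0∞ | p.2 ≤ φ p.1} ∩
      (⋂ q : ℚ, ({p : S × ℝ≥0∞ | ENNReal.ofReal q ≤ p.2} ∪
      {p : S × ℝ≥0∞ | φ p.1 < ENNReal.ofReal q})) := by
    ext ⟨s, y⟩
    simp only [mem_ofPred_eq, mem_inter_iff, mem_iInter, mem_union]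
    constructor
    · rintro rfl
      exact ⟨le_rfl, fun q => (le_or_gt _ _)⟩
    · rintro ⟨h1, h2⟩
      refine le_antisymm h1 ?_
      by_contra hlt
      rw [not_le] at hlt
      obtain ⟨q, hq1, hq2⟩ := exists_rat_btwn hlt
      rcases h2 q with h | h
      · exact absurd h (not_le.2 hq1)
      · exact absurd (hq2.trans h) (lt_irrefl _)
  rw [this]
  exact h1.isGδ.inter h2

theorem polish_refine_one {S : Type*} (t : TopologicalSpace S) (ht : @PolishSpace S t)
    (φ : S → ℝ≥0∞) (hφ : @LowerSemicontinuous S ℝ≥0∞ t _ φ ∨ @UpperSemicontinuous S ℝ≥0∞ t _ φ) :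
    @PolishSpace S (t ⊓ TopologicalSpace.induced φ inferInstance) := by
  letI := t
  haveI := ht
  have hG : IsGδ {p : S × ℝ≥0∞ | p.2 = φ p.1} := by
    rcases hφ with h | h
    · exact isGδ_graph_of_lsc h
    · exact isGδ_graph_of_usc h
  let Φ : S → S × ℝ≥0∞ := fun s => (s, φ s)
  have hr : range Φ = {p : S × ℝ≥0∞ | p.2 = φ p.1} := by
    ext ⟨s, y⟩
    constructor
    · rintro ⟨s', h⟩
      simp only [Φ, Prod.mk.injEq] at h
      obtain ⟨rfl, rfl⟩ := h
      rfl
    · intro h
      simp only [mem_ofPred_eq] at h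
      exact ⟨s, by simp [Φ, h]⟩
  have hinj : Function.Injective Φ := fun a b h => (Prod.mk.inj h).1
  have h := polish_induced Φ hinj (hr ▸ hG)
  have heq : TopologicalSpace.induced Φ (inferInstance : TopologicalSpace (S × ℝ≥0∞)) =
      t ⊓ TopologicalSpace.induced φ inferInstance := by
    show TopologicalSpace.induced Φ (TopologicalSpace.induced Prod.fst t ⊓
      TopologicalSpace.induced Prod.snd inferInstance) = _
    rw [induced_inf, induced_compose, induced_compose]
    congr 1
    exact induced_id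
  rw [heq] at h
  exact h

theorem polish_refine {S ι : Type*} [Countable ι] (t : TopologicalSpace S)
    (ht : @PolishSpace S t) (φ : ι → S → ℝ≥0∞)
    (hφ : ∀ i, @LowerSemicontinuous S ℝ≥0∞ t _ (φ i) ∨ @UpperSemicontinuous S ℝ≥0∞ t _ (φ i)) :
    @PolishSpace S (t ⊓ ⨅ i, TopologicalSpace.induced (φ i) inferInstance) := by
  have h := @PolishSpace.iInf S (Option ι) _
    (fun o => o.elim t (fun i => t ⊓ TopologicalSpace.induced (φ i) inferInstance))
    ⟨none, fun o => by
      cases o with
      | none => exact le_rfl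
      | some i => exact inf_le_left⟩
    (fun o => by
      cases o with
      | none => exact ht
      | some i => exact polish_refine_one t ht (φ i) (hφ i))
  have heq : (⨅ o : Option ι, (o.elim t
      (fun i => t ⊓ TopologicalSpace.induced (φ i) inferInstance) : TopologicalSpace S)) =
      t ⊓ ⨅ i, TopologicalSpace.induced (φ i) inferInstance := by
    rw [iInf_option]
    show t ⊓ (⨅ i, (t ⊓ TopologicalSpace.induced (φ i) inferInstance)) = _
    apply le_antisymm
    · refine le_inf inf_le_left ?_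
      refine le_iInf fun i => ?_
      exact (inf_le_right.trans (iInf_le _ i)).trans inf_le_right
    · refine le_inf inf_le_left ?_
      refine le_iInf fun i => ?_
      exact le_inf inf_le_left (inf_le_right.trans (iInf_le _ i))
  rw [heq] at h
  exact h

end PST
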