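import Mathlib
import Pool.Agent.Helper26.PST.Refine

open TopologicalSpace Set Filter Topology
open scoped ENNReal

namespace PST

variable {Ω : Type*}

/-- The closure of the permutation group `G` in `Ω → Ω` (pointwise convergence, `Ω` discrete),
a monoid under composition. -/
def Closure (G : Subgroup (Equiv.Perm Ω)) : Submonoid (Function.End Ω) where
  carrier := {f | ∀ F : Finset Ω, ∃ g ∈ G, ∀ x ∈ F, g x = f x}
  one_mem' := fun F => ⟨1, G.one_mem, fun x _ => rfl⟩
  mul_mem' := by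
    intro f g hf hg F
    classical
    obtain ⟨b, hb, hb'⟩ := hg F
    obtain ⟨a, ha, ha'⟩ := hf (F.image g)
    refine ⟨a * b, G.mul_mem ha hb, fun x hx => ?_⟩
    show a (b x) = f (g x)
    rw [hb' x hx]
    exact ha' _ (Finset.mem_image_of_mem g hx)

/-- The Polish semigroup topologies of the closure of `G`: Polish topologies for which
composition is jointly continuous. -/
def PolishSemigroupTopologies (G : Subgroup (Equiv.Perm Ω)) :
    Set (TopologicalSpace (Closure G)) :=
  {τ | @PolishSpace (Closure G) τ ∧ @ContinuousMul (Closure G) τ _}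

/-- `G` is oligomorphic: finitely many orbits on `n`-tuples for every `n`. -/
def Oligomorphic (G : Subgroup (Equiv.Perm Ω)) : Prop :=
  ∀ n : ℕ, ∃ s : Finset (Fin n → Ω), ∀ a : Fin n → Ω, ∃ b ∈ s, ∃ g ∈ G, ∀ i, g (b i) = a i

/-- the map of an element of the closure -/
def ev {G : Subgroup (Equiv.Perm Ω)} (f : Closure G) : Ω → Ω := f.1

theorem ev_mul {G : Subgroup (Equiv.Perm Ω)} (f g : Closure G) (x : Ω) :
    ev (f * g) x = ev f (ev g x) := rfl

theorem ev_one {G : Subgroup (Equiv.Perm Ω)} (x : Ω) : ev (1 : Closure G) x = x := rfl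

theorem ev_approx {G : Subgroup (Equiv.Perm Ω)} (f : Closure G) (F : Finset Ω) :
    ∃ g ∈ G, ∀ x ∈ F, g x = ev f x := f.2 F

theorem ev_injective {G : Subgroup (Equiv.Perm Ω)} (f : Closure G) :
    Function.Injective (ev f) := by
  classical
  intro x y h
  obtain ⟨g, _, hg⟩ := ev_approx f {x, y}
  have h1 := hg x (by simp)
  have h2 := hg y (by simp)
  exact g.injective (by rw [h1, h2, h])

/-- a permutation in `G` as an element of the closure -/
def ofG {G : Subgroup (Equiv.Perm Ω)} (g : Equiv.Perm Ω) (hg : g ∈ G) : Closure G :=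
  ⟨(g : Ω → Ω), fun _ => ⟨g, hg, fun _ _ => rfl⟩⟩

theorem ev_ofG {G : Subgroup (Equiv.Perm Ω)} (g : Equiv.Perm Ω) (hg : g ∈ G) (x : Ω) :
    ev (ofG g hg) x = g x := rfl

/-- The topology of pointwise convergence. -/
def t0 (G : Subgroup (Equiv.Perm Ω)) : TopologicalSpace (Closure G) :=
  TopologicalSpace.induced (fun f => ev f) (@Pi.topologicalSpace Ω (fun _ => Ω) (fun _ => ⊥))

theorem t0_nhds (G : Subgroup (Equiv.Perm Ω)) (f : Closure G) :
    (@nhds _ (t0 G) f).HasBasis (fun _ : Finset Ω => True)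
      (fun F => {g | ∀ x ∈ F, ev g x = ev f x}) := by
  classical
  letI : TopologicalSpace Ω := ⊥
  haveI : DiscreteTopology Ω := ⟨rfl⟩
  have h : @nhds _ (t0 G) f = comap (fun f => ev f) (𝓝 (ev f)) := by
    exact @nhds_induced _ _ _ _ _
  rw [h, nhds_pi]
  refine ⟨fun U => ?_⟩
  constructor
  · intro hU
    rw [mem_comap] at hU
    obtain ⟨V, hV, hVU⟩ := hU
    rw [Filter.mem_pi] at hV
    obtain ⟨I, hI, W, hW, hWV⟩ := hV
    refine ⟨hI.toFinset, trivial, fun g hg => hVU (hWV fun x hx => ?_)⟩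
    have h1 := hg x (by simpa using hx)
    show ev g x ∈ W x
    rw [h1]
    exact mem_of_mem_nhds (hW x)
  · rintro ⟨F, -, hF⟩
    rw [mem_comap]
    refine ⟨(F : Set Ω).pi fun x => {ev f x}, ?_, fun g hg => hF fun x hx => ?_⟩
    · refine Filter.pi_mem_pi F.finite_toSet fun x _ => ?_
      exact (isOpen_discrete _).mem_nhds rfl
    · exact hg x hx

theorem t0_isOpen_iff (G : Subgroup (Equiv.Perm Ω)) (U : Set (Closure G)) :
    IsOpen[t0 G] U ↔ ∀ f ∈ U, ∃ F : Finset Ω, ∀ g : Closure G,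
      (∀ x ∈ F, ev g x = ev f x) → g ∈ U := by
  letI := t0 G
  rw [isOpen_iff_mem_nhds]
  refine forall₂_congr fun f _ => ?_
  rw [(t0_nhds G f).mem_iff]
  constructor
  · rintro ⟨F, -, h⟩
    exact ⟨F, fun g hg => h hg⟩
  · rintro ⟨F, h⟩
    exact ⟨F, trivial, fun g hg => h g hg⟩

theorem t0_agree (G : Subgroup (Equiv.Perm Ω)) (f : Closure G) (F : Finset Ω) :
    ∀ᶠ g in @nhds _ (t0 G) f, ∀ x ∈ F, ev g x = ev f x :=
  (t0_nhds G f).mem_of_mem trivial

theorem polish_t0 [Countable Ω] (G : Subgroup (Equiv.Perm Ω)) :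
    @PolishSpace (Closure G) (t0 G) := by
  classical
  letI : TopologicalSpace Ω := ⊥
  haveI : DiscreteTopology Ω := ⟨rfl⟩
  haveI : PolishSpace Ω := inferInstance
  have hcl : IsClosed {f : Ω → Ω | ∀ F : Finset Ω, ∃ g ∈ G, ∀ x ∈ F, g x = f x} := by
    rw [← isOpen_compl_iff, isOpen_iff_mem_nhds]
    intro f hf
    simp only [mem_compl_iff, mem_ofPred_eq, not_forall] at hf
    obtain ⟨F, hF⟩ := hf
    have : {f' : Ω → Ω | ∀ x ∈ F, f' x = f x} ∈ 𝓝 f := by
      rw [nhds_pi]
      have := Filter.pi_mem_pi (f := fun i => 𝓝 (f i)) (s := fun x => {f x}) F.finite_toSet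
        (fun x _ => (isOpen_discrete _).mem_nhds rfl)
      refine mem_of_superset this fun f' hf' x hx => hf' x hx
    refine mem_of_superset this fun f' hf' hcon => ?_
    obtain ⟨g, hg, hg'⟩ := hcon F
    exact hF ⟨g, hg, fun x hx => by rw [hg' x hx, hf' x hx]⟩
  have hr : range (fun f : Closure G => ev f) =
      {f : Ω → Ω | ∀ F : Finset Ω, ∃ g ∈ G, ∀ x ∈ F, g x = f x} := by
    ext f
    constructor
    · rintro ⟨g, rfl⟩
      exact g.2
    · intro hf
      exact ⟨⟨f, hf⟩, rfl⟩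
  exact polish_induced (t := Pi.topologicalSpace) (fun f : Closure G => ev f)
    (fun a b h => Subtype.ext h) (hr ▸ hcl.isGδ)

/-- joint continuity of the multiplication follows from its pointwise version -/
theorem continuousMul_of_nhds {S : Type*} [Mul S] (τ : TopologicalSpace S)
    (h : ∀ f g : S, Tendsto (fun p : S × S => p.1 * p.2) (@nhds _ τ f ×ˢ @nhds _ τ g)
      (@nhds _ τ (f * g))) : @ContinuousMul S τ _ := by
  letI := τ
  refine ⟨?_⟩
  rw [continuous_iff_continuousAt]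
  rintro ⟨f, g⟩
  rw [ContinuousAt, nhds_prod_eq]
  exact h f g

theorem t0_tendsto_mul (G : Subgroup (Equiv.Perm Ω)) (f g : Closure G) :
    Tendsto (fun p : Closure G × Closure G => p.1 * p.2)
      (@nhds _ (t0 G) f ×ˢ @nhds _ (t0 G) g) (@nhds _ (t0 G) (f * g)) := by
  classical
  rw [(t0_nhds G (f * g)).tendsto_right_iff]
  intro F _
  have h1 := t0_agree G g F
  have h2 := t0_agree G f (F.image (ev g))
  filter_upwards [h2.prod_mk h1] with p hp x hx
  show ev p.1 (ev p.2 x) = ev f (ev g x)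
  rw [hp.2 x hx]
  exact hp.1 _ (Finset.mem_image_of_mem _ hx)

theorem t0_mem [Countable Ω] (G : Subgroup (Equiv.Perm Ω)) :
    t0 G ∈ PolishSemigroupTopologies G :=
  ⟨polish_t0 G, continuousMul_of_nhds _ (t0_tendsto_mul G)⟩

/-- the unit approximation: near `1` there are elements `u f` with `u ∈ G` -/
theorem exists_unit_near_one (G : Subgroup (Equiv.Perm Ω)) (f : Closure G)
    {V : Set (Closure G)} (hV : V ∈ @nhds _ (t0 G) 1) :
    ∃ u v : Closure G, v * u = 1 ∧ u * v = 1 ∧ u * f ∈ V := by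
  obtain ⟨F, -, hF⟩ := (t0_nhds G 1).mem_iff.1 hV
  obtain ⟨k, hk, hk'⟩ := ev_approx f F
  refine ⟨ofG k⁻¹ (G.inv_mem hk), ofG k hk, ?_, ?_, hF fun x hx => ?_⟩
  · apply Subtype.ext
    funext x
    show k (k⁻¹ x) = x
    simp
  · apply Subtype.ext
    funext x
    show k⁻¹ (k x) = x
    simp
  · show k⁻¹ (ev f x) = x
    rw [← hk' x hx]
    simp

end PST
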