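import Mathlib
import Pool.Agent.Helper26.PST.Basic

open TopologicalSpace Set Filter Topology
open scoped ENNReal

namespace PST

variable {Ω T : Type*}

/-- a countable set with a continuous action of the closure by injections -/
structure GSort (G : Subgroup (Equiv.Perm Ω)) (T : Type*) where
  act : Closure G → T → T
  act_mul : ∀ f g t, act (f * g) t = act f (act g t)
  act_one : ∀ t, act 1 t = t
  inj : ∀ f, Function.Injective (act f)
  cont : ∀ f t, ∀ᶠ g in @nhds _ (t0 G) f, act g t = act f t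

/-- a monotone submodular function on finite sets -/
structure IsRank [DecidableEq T] (r : Finset T → ℝ) : Prop where
  mono : ∀ A B, A ⊆ B → r A ≤ r B
  submod : ∀ A B, r (A ∪ B) + r (A ∩ B) ≤ r A + r B

/-- the rank of `B` over the set `X` -/
noncomputable def cr [DecidableEq T] (r : Finset T → ℝ) (B : Finset T) (X : Set T) : ℝ :=
  ⨅ A : {A : Finset T // ∀ t ∈ A, t ∈ X}, (r (B ∪ A.1) - r A.1)

/-- the rank of `B` over `X` and `C` -/
noncomputable def cr2 [DecidableEq T] (r : Finset T → ℝ) (B C : Finset T) (X : Set T) : ℝ :=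
  ⨅ A : {A : Finset T // ∀ t ∈ A, t ∈ X}, (r (B ∪ C ∪ A.1) - r (C ∪ A.1))

section
variable [DecidableEq T] {r : Finset T → ℝ} (hr : IsRank r)
include hr

theorem diff_nonneg (B A : Finset T) : 0 ≤ r (B ∪ A) - r A :=
  sub_nonneg.2 (hr.mono _ _ Finset.subset_union_right)

theorem bdd (B : Finset T) (X : Set T) :
    BddBelow (range fun A : {A : Finset T // ∀ t ∈ A, t ∈ X} => (r (B ∪ A.1) - r A.1)) :=
  ⟨0, by rintro _ ⟨A, rfl⟩; exact diff_nonneg hr B A.1⟩

theorem diff2_nonneg (B C A : Finset T) : 0 ≤ r (B ∪ C ∪ A) - r (C ∪ A) := by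
  have : B ∪ C ∪ A = B ∪ (C ∪ A) := Finset.union_assoc _ _ _
  rw [this]
  exact diff_nonneg hr B (C ∪ A)

theorem bdd2 (B C : Finset T) (X : Set T) :
    BddBelow (range fun A : {A : Finset T // ∀ t ∈ A, t ∈ X} =>
      (r (B ∪ C ∪ A.1) - r (C ∪ A.1))) :=
  ⟨0, by rintro _ ⟨A, rfl⟩; exact diff2_nonneg hr B C A.1⟩

theorem cr_nonneg (B : Finset T) (X : Set T) : 0 ≤ cr r B X := by
  haveI : Nonempty {A : Finset T // ∀ t ∈ A, t ∈ X} := ⟨⟨∅, by simp⟩⟩
  exact le_ciInf fun A => diff_nonneg hr B A.1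

theorem cr2_nonneg (B C : Finset T) (X : Set T) : 0 ≤ cr2 r B C X := by
  haveI : Nonempty {A : Finset T // ∀ t ∈ A, t ∈ X} := ⟨⟨∅, by simp⟩⟩
  exact le_ciInf fun A => diff2_nonneg hr B C A.1

theorem cr_le (B : Finset T) {X : Set T} {A : Finset T} (hA : ∀ t ∈ A, t ∈ X) :
    cr r B X ≤ r (B ∪ A) - r A :=
  ciInf_le (bdd hr B X) ⟨A, hA⟩

theorem cr2_le (B C : Finset T) {X : Set T} {A : Finset T} (hA : ∀ t ∈ A, t ∈ X) :
    cr2 r B C X ≤ r (B ∪ C ∪ A) - r (C ∪ A) :=
  ciInf_le (bdd2 hr B C X) ⟨A, hA⟩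

theorem diff_anti (B : Finset T) {A A' : Finset T} (h : A ⊆ A') :
    r (B ∪ A') - r A' ≤ r (B ∪ A) - r A := by
  have h1 := hr.submod (B ∪ A) A'
  have h2 : (B ∪ A) ∪ A' = B ∪ A' := by
    rw [Finset.union_assoc, Finset.union_eq_right.2 h]
  have h3 : A ⊆ (B ∪ A) ∩ A' := Finset.subset_inter Finset.subset_union_right h
  have h4 := hr.mono _ _ h3
  rw [h2] at h1
  linarith

theorem exists_lt (B : Finset T) (X : Set T) {ε : ℝ} (hε : 0 < ε) :
    ∃ A : Finset T, (∀ t ∈ A, t ∈ X) ∧ r (B ∪ A) - r A < cr r B X + ε := by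
  haveI : Nonempty {A : Finset T // ∀ t ∈ A, t ∈ X} := ⟨⟨∅, by simp⟩⟩
  obtain ⟨A, hA⟩ := exists_lt_of_ciInf_lt (lt_add_of_pos_right (cr r B X) hε)
  exact ⟨A.1, A.2, hA⟩

theorem exists_lt2 (B C : Finset T) (X : Set T) {ε : ℝ} (hε : 0 < ε) :
    ∃ A : Finset T, (∀ t ∈ A, t ∈ X) ∧ r (B ∪ C ∪ A) - r (C ∪ A) < cr2 r B C X + ε := by
  haveI : Nonempty {A : Finset T // ∀ t ∈ A, t ∈ X} := ⟨⟨∅, by simp⟩⟩
  obtain ⟨A, hA⟩ := exists_lt_of_ciInf_lt (lt_add_of_pos_right (cr2 r B C X) hε)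
  exact ⟨A.1, A.2, hA⟩

/-- the chain rule -/
theorem cr_union (B C : Finset T) (X : Set T) :
    cr r (B ∪ C) X = cr2 r B C X + cr r C X := by
  apply le_antisymm
  · apply le_of_forall_pos_le_add
    intro ε hε
    obtain ⟨A1, h1, h1'⟩ := exists_lt2 hr B C X (half_pos hε)
    obtain ⟨A2, h2, h2'⟩ := exists_lt hr C X (half_pos hε)
    have hA : ∀ t ∈ A1 ∪ A2, t ∈ X := by
      intro t ht
      rcases Finset.mem_union.1 ht with h | h
      · exact h1 t h
      · exact h2 t h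
    have e1 := cr_le hr (B ∪ C) hA
    have e2 := diff_anti hr C (Finset.subset_union_right : A2 ⊆ A1 ∪ A2)
    have e3 := diff_anti hr B (Finset.union_subset_union_right
      (Finset.subset_union_left : A1 ⊆ A1 ∪ A2) : C ∪ A1 ⊆ C ∪ (A1 ∪ A2))
    have a1 : B ∪ (C ∪ A1) = B ∪ C ∪ A1 := (Finset.union_assoc _ _ _).symm
    have a2 : B ∪ (C ∪ (A1 ∪ A2)) = B ∪ C ∪ (A1 ∪ A2) := (Finset.union_assoc _ _ _).symm
    rw [a1, a2] at e3
    linarith
  · haveI : Nonempty {A : Finset T // ∀ t ∈ A, t ∈ X} := ⟨⟨∅, by simp⟩⟩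
    refine le_ciInf fun A => ?_
    have e1 := cr2_le hr B C A.2
    have e2 := cr_le hr C A.2
    linarith

theorem cr_anti (B : Finset T) {X Y : Set T} (h : X ⊆ Y) : cr r B Y ≤ cr r B X := by
  haveI : Nonempty {A : Finset T // ∀ t ∈ A, t ∈ X} := ⟨⟨∅, by simp⟩⟩
  refine le_ciInf fun A => ?_
  exact cr_le hr B fun t ht => h (A.2 t ht)

theorem cr_le_cr2 (B C : Finset T) {X Y : Set T} (h : X ⊆ Y) (hC : ∀ t ∈ C, t ∈ Y) :
    cr r B Y ≤ cr2 r B C X := by
  haveI : Nonempty {A : Finset T // ∀ t ∈ A, t ∈ X} := ⟨⟨∅, by simp⟩⟩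
  refine le_ciInf fun A => ?_
  have := cr_le hr B (X := Y) (A := C ∪ A.1) (by
    intro t ht
    rcases Finset.mem_union.1 ht with h' | h'
    · exact hC t h'
    · exact h (A.2 t h'))
  have a1 : B ∪ (C ∪ A.1) = B ∪ C ∪ A.1 := (Finset.union_assoc _ _ _).symm
  rw [a1] at this
  exact this

theorem cr_univ (B : Finset T) : cr r B univ = 0 := by
  apply le_antisymm _ (cr_nonneg hr B univ)
  have := cr_le hr B (X := univ) (A := B) (by simp)
  simpa using this

end

section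
variable [DecidableEq T] {G : Subgroup (Equiv.Perm Ω)} (𝒯 : GSort G T) {r : Finset T → ℝ}

/-- the rank of `B` over the image of `f` -/
noncomputable def rk (r : Finset T → ℝ) (B : Finset T) (f : Closure G) : ℝ :=
  cr r B (range (𝒯.act f))

/-- invariance of the rank under the closure -/
def RankInv (r : Finset T → ℝ) : Prop :=
  ∀ (f : Closure G) (B : Finset T), r (B.image (𝒯.act f)) = r B

theorem range_mul (f g : Closure G) : range (𝒯.act (f * g)) = 𝒯.act f '' range (𝒯.act g) := by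
  ext t
  constructor
  · rintro ⟨s, rfl⟩
    exact ⟨𝒯.act g s, ⟨s, rfl⟩, (𝒯.act_mul f g s).symm⟩
  · rintro ⟨_, ⟨s, rfl⟩, rfl⟩
    exact ⟨s, 𝒯.act_mul f g s⟩

theorem range_mul_subset (f g : Closure G) : range (𝒯.act (f * g)) ⊆ range (𝒯.act f) := by
  rw [range_mul]
  exact image_subset_range _ _

theorem cr_image (hinv : RankInv 𝒯 r) (f : Closure G) (B : Finset T) (X : Set T) :
    cr r (B.image (𝒯.act f)) (𝒯.act f '' X) = cr r B X := by
  unfold cr
  have key : ∀ A : Finset T, r (B.image (𝒯.act f) ∪ A.image (𝒯.act f)) -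
      r (A.image (𝒯.act f)) = r (B ∪ A) - r A := by
    intro A
    rw [← Finset.image_union, hinv, hinv]
  let e : {A : Finset T // ∀ t ∈ A, t ∈ X} ≃
      {A : Finset T // ∀ t ∈ A, t ∈ 𝒯.act f '' X} :=
    { toFun := fun A => ⟨A.1.image (𝒯.act f), by
        intro t ht
        obtain ⟨s, hs, rfl⟩ := Finset.mem_image.1 ht
        exact ⟨s, A.2 s hs, rfl⟩⟩
      invFun := fun A => ⟨A.1.preimage (𝒯.act f) ((𝒯.inj f).injOn), by
        intro t ht
        rw [Finset.mem_preimage] at ht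
        obtain ⟨s, hs, hst⟩ := A.2 _ ht
        rw [← 𝒯.inj f hst]
        exact hs⟩
      left_inv := by
        rintro ⟨A, hA⟩
        apply Subtype.ext
        ext t
        simp only [Finset.mem_preimage, Finset.mem_image]
        constructor
        · rintro ⟨s, hs, hst⟩
          rw [← 𝒯.inj f hst]
          exact hs
        · intro ht
          exact ⟨t, ht, rfl⟩
      right_inv := by
        rintro ⟨A, hA⟩
        apply Subtype.ext
        ext t
        simp only [Finset.mem_preimage, Finset.mem_image]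
        constructor
        · rintro ⟨s, hs, rfl⟩
          exact hs
        · intro ht
          obtain ⟨s, -, rfl⟩ := hA t ht
          exact ⟨s, ht, rfl⟩ }
  rw [← e.iInf_comp]
  refine iInf_congr fun A => ?_
  exact key A.1

theorem rk_mul_image (hinv : RankInv 𝒯 r) (f g : Closure G) (D : Finset T) :
    rk 𝒯 r (D.image (𝒯.act f)) (f * g) = rk 𝒯 r D g := by
  unfold rk
  rw [range_mul, cr_image 𝒯 hinv]

/-- upper estimate for the rank over the image of a product -/
theorem rk_mul_le (hr : IsRank r) (hinv : RankInv 𝒯 r) (f g : Closure G) (B : Finset T)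
    {ε : ℝ} (hε : 0 < ε) :
    ∃ D : Finset T, rk 𝒯 r B (f * g) + cr2 r (D.image (𝒯.act f)) B (range (𝒯.act (f * g))) ≤
      rk 𝒯 r B f + ε + rk 𝒯 r D g := by
  obtain ⟨C, hC, hC'⟩ := exists_lt hr B (range (𝒯.act f)) hε
  choose! pre hpre using hC
  let D : Finset T := C.image pre
  have hDC : D.image (𝒯.act f) = C := by
    ext t
    simp only [D, Finset.mem_image]
    constructor
    · rintro ⟨s, ⟨u, hu, rfl⟩, rfl⟩
      rw [hpre u hu]
      exact hu
    · intro ht
      exact ⟨pre t, ⟨t, ht, rfl⟩, hpre t ht⟩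
  refine ⟨D, ?_⟩
  have h1 := cr_union hr B C (range (𝒯.act (f * g)))
  have h2 := cr_union hr C B (range (𝒯.act (f * g)))
  rw [Finset.union_comm C B] at h2
  have h3 : cr2 r B C (range (𝒯.act (f * g))) ≤ r (B ∪ C) - r C := by
    have := cr2_le hr B C (X := range (𝒯.act (f * g))) (A := ∅) (by simp)
    simpa using this
  have h4 := rk_mul_image 𝒯 hinv f g D
  rw [hDC] at h4 ⊢
  unfold rk at *
  linarith

end

end PST
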