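import Mathlib
import Pool.Agent.Helper26.PST.Rank

open TopologicalSpace Set Filter Topology
open scoped ENNReal

namespace PST

variable {Ω T : Type*} [DecidableEq T] {G : Subgroup (Equiv.Perm Ω)} (𝒯 : GSort G T)
  {r : Finset T → ℝ}

theorem rk_mul_ge (hr : IsRank r) (hinv : RankInv 𝒯 r) (f g : Closure G) (B D : Finset T) :
    rk 𝒯 r B f + rk 𝒯 r D g ≤ rk 𝒯 r B (f * g) +
      cr2 r (D.image (𝒯.act f)) B (range (𝒯.act (f * g))) := by
  have h1 := cr_union hr B (D.image (𝒯.act f)) (range (𝒯.act (f * g)))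
  have h2 := cr_union hr (D.image (𝒯.act f)) B (range (𝒯.act (f * g)))
  rw [Finset.union_comm (D.image (𝒯.act f)) B] at h2
  have h3 := cr_le_cr2 hr B (D.image (𝒯.act f)) (range_mul_subset 𝒯 f g) (by
    intro t ht
    obtain ⟨s, _, rfl⟩ := Finset.mem_image.1 ht
    exact ⟨s, rfl⟩)
  have h4 := rk_mul_image 𝒯 hinv f g D
  unfold rk at *
  linarith

theorem rk_union_mul_ge (hr : IsRank r) (hinv : RankInv 𝒯 r) (f g : Closure G)
    (B D : Finset T) :
    rk 𝒯 r B f + rk 𝒯 r D g ≤ rk 𝒯 r (B ∪ D.image (𝒯.act f)) (f * g) := by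
  have h1 := cr_union hr B (D.image (𝒯.act f)) (range (𝒯.act (f * g)))
  have h3 := cr_le_cr2 hr B (D.image (𝒯.act f)) (range_mul_subset 𝒯 f g) (by
    intro t ht
    obtain ⟨s, _, rfl⟩ := Finset.mem_image.1 ht
    exact ⟨s, rfl⟩)
  have h4 := rk_mul_image 𝒯 hinv f g D
  unfold rk at *
  linarith

theorem rk_mul_le' (hr : IsRank r) (hinv : RankInv 𝒯 r) (f g : Closure G) (B D : Finset T) :
    rk 𝒯 r B (f * g) + cr2 r (D.image (𝒯.act f)) B (range (𝒯.act (f * g))) ≤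
      (r (B ∪ D.image (𝒯.act f)) - r (D.image (𝒯.act f))) + rk 𝒯 r D g := by
  have h1 := cr_union hr B (D.image (𝒯.act f)) (range (𝒯.act (f * g)))
  have h2 := cr_union hr (D.image (𝒯.act f)) B (range (𝒯.act (f * g)))
  rw [Finset.union_comm (D.image (𝒯.act f)) B] at h2
  have h3 := cr2_le hr B (D.image (𝒯.act f)) (X := range (𝒯.act (f * g))) (A := ∅) (by simp)
  rw [Finset.union_empty, Finset.union_empty] at h3
  have h4 := rk_mul_image 𝒯 hinv f g D
  unfold rk at *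
  linarith

theorem act_agree (f : Closure G) (D : Finset T) :
    ∀ᶠ g in @nhds _ (t0 G) f, ∀ t ∈ D, 𝒯.act g t = 𝒯.act f t := by
  rw [Filter.eventually_all_finset]
  exact fun t _ => 𝒯.cont f t

theorem rk_usc (hr : IsRank r) (B : Finset T) (f : Closure G) {c : ℝ} (h : rk 𝒯 r B f < c) :
    ∀ᶠ g in @nhds _ (t0 G) f, rk 𝒯 r B g < c := by
  obtain ⟨C, hC, hC'⟩ := exists_lt hr B (range (𝒯.act f)) (sub_pos.2 h)
  choose! pre hpre using hC
  filter_upwards [act_agree 𝒯 f (C.image pre)] with g hg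
  have h1 : ∀ t ∈ C, t ∈ range (𝒯.act g) := by
    intro t ht
    refine ⟨pre t, ?_⟩
    rw [hg _ (Finset.mem_image_of_mem _ ht)]
    exact hpre t ht
  have h2 := cr_le hr B h1
  unfold rk at *
  linarith

theorem rk_nonneg (hr : IsRank r) (B : Finset T) (f : Closure G) : 0 ≤ rk 𝒯 r B f :=
  cr_nonneg hr B _

theorem range_one : range (𝒯.act 1) = univ := by
  rw [range_eq_univ]
  intro t
  exact ⟨t, 𝒯.act_one t⟩

theorem rk_one (hr : IsRank r) (B : Finset T) : rk 𝒯 r B 1 = 0 := by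
  unfold rk
  rw [range_one]
  exact cr_univ hr B

/-- the rank as an extended nonnegative real number -/
noncomputable def rho (r : Finset T → ℝ) (B : Finset T) (f : Closure G) : ℝ≥0∞ :=
  ENNReal.ofReal (rk 𝒯 r B f)

theorem rho_usc (hr : IsRank r) (B : Finset T) :
    @UpperSemicontinuous _ ℝ≥0∞ (t0 G) _ (rho 𝒯 r B) := by
  letI := t0 G
  intro f c hc
  by_cases hc' : c = ⊤
  · subst hc'
    exact Eventually.of_forall fun g => ENNReal.ofReal_lt_top
  · have h1 := (ENNReal.ofReal_lt_iff_lt_toReal (rk_nonneg 𝒯 hr B f) hc').1 hc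
    filter_upwards [rk_usc 𝒯 hr B f h1] with g hg
    exact (ENNReal.ofReal_lt_iff_lt_toReal (rk_nonneg 𝒯 hr B g) hc').2 hg

/-- The topology generated by pointwise convergence and the ranks over the image. -/
noncomputable def tau (r : Finset T → ℝ) : TopologicalSpace (Closure G) :=
  t0 G ⊓ ⨅ B : Finset T, TopologicalSpace.induced (rho 𝒯 r B) inferInstance

theorem polish_tau [Countable Ω] [Countable T] (hr : IsRank r) :
    @PolishSpace (Closure G) (tau 𝒯 r) :=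
  polish_refine (t0 G) (polish_t0 G) _ fun B => Or.inr (rho_usc 𝒯 hr B)

theorem nhds_tau (f : Closure G) :
    @nhds _ (tau 𝒯 r) f = @nhds _ (t0 G) f ⊓
      ⨅ B : Finset T, comap (rho 𝒯 r B) (𝓝 (rho 𝒯 r B f)) := by
  unfold tau
  rw [@nhds_inf, @nhds_iInf]
  simp only [@nhds_induced]

theorem tau_le (f : Closure G) : @nhds _ (tau 𝒯 r) f ≤ @nhds _ (t0 G) f := by
  rw [nhds_tau]
  exact inf_le_left

theorem tau_rho (f : Closure G) (B : Finset T) :
    Tendsto (rho 𝒯 r B) (@nhds _ (tau 𝒯 r) f) (𝓝 (rho 𝒯 r B f)) := by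
  rw [tendsto_iff_comap, nhds_tau]
  exact inf_le_right.trans (iInf_le _ B)

theorem rho_toReal (hr : IsRank r) (B : Finset T) (f : Closure G) :
    (rho 𝒯 r B f).toReal = rk 𝒯 r B f :=
  ENNReal.toReal_ofReal (rk_nonneg 𝒯 hr B f)

theorem tau_rk (hr : IsRank r) (f : Closure G) (B : Finset T) :
    Tendsto (rk 𝒯 r B) (@nhds _ (tau 𝒯 r) f) (𝓝 (rk 𝒯 r B f)) := by
  have h1 := (ENNReal.tendsto_toReal (a := rho 𝒯 r B f) ENNReal.ofReal_ne_top).comp
    (tau_rho 𝒯 f B)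
  rw [rho_toReal 𝒯 hr] at h1
  refine h1.congr fun g => ?_
  exact rho_toReal 𝒯 hr B g

theorem exists_image {f : Closure G} {C : Finset T} (hC : ∀ t ∈ C, t ∈ range (𝒯.act f)) :
    ∃ D : Finset T, D.image (𝒯.act f) = C := by
  choose! pre hpre using hC
  refine ⟨C.image pre, ?_⟩
  ext t
  simp only [Finset.mem_image]
  constructor
  · rintro ⟨s, ⟨u, hu, rfl⟩, rfl⟩
    rw [hpre u hu]
    exact hu
  · intro ht
    exact ⟨pre t, ⟨t, ht, rfl⟩, hpre t ht⟩

theorem tau_mul (hr : IsRank r) (hinv : RankInv 𝒯 r) (f g : Closure G) :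
    Tendsto (fun p : Closure G × Closure G => p.1 * p.2)
      (@nhds _ (tau 𝒯 r) f ×ˢ @nhds _ (tau 𝒯 r) g) (@nhds _ (tau 𝒯 r) (f * g)) := by
  have h0 : Tendsto (fun p : Closure G × Closure G => p.1 * p.2)
      (@nhds _ (tau 𝒯 r) f ×ˢ @nhds _ (tau 𝒯 r) g) (@nhds _ (t0 G) (f * g)) :=
    (t0_tendsto_mul G f g).mono_left (Filter.prod_mono (tau_le 𝒯 f) (tau_le 𝒯 g))
  rw [nhds_tau 𝒯 (f * g), tendsto_inf, tendsto_iInf]
  refine ⟨h0, fun B => ?_⟩
  rw [tendsto_comap_iff]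
  suffices h : Tendsto (fun p : Closure G × Closure G => rk 𝒯 r B (p.1 * p.2))
      (@nhds _ (tau 𝒯 r) f ×ˢ @nhds _ (tau 𝒯 r) g) (𝓝 (rk 𝒯 r B (f * g))) from
    (ENNReal.continuous_ofReal.tendsto _).comp h
  rw [tendsto_order]
  constructor
  · intro c hc
    have hε : 0 < (rk 𝒯 r B (f * g) - c) / 4 := by linarith
    generalize hεd : (rk 𝒯 r B (f * g) - c) / 4 = ε at hε
    obtain ⟨C, hC, hC'⟩ := exists_lt hr B (range (𝒯.act f)) hε
    obtain ⟨D, hD⟩ := exists_image 𝒯 hC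
    obtain ⟨A, hA, hA'⟩ := exists_lt2 hr C B (range (𝒯.act (f * g))) hε
    obtain ⟨A0, hA0⟩ := exists_image 𝒯 hA
    have e1 := (act_agree 𝒯 f (D ∪ A0.image (𝒯.act g))).filter_mono (tau_le 𝒯 (r := r) f)
    have e2 := (act_agree 𝒯 g A0).filter_mono (tau_le 𝒯 (r := r) g)
    have e3 := (tau_rk 𝒯 hr f B).eventually_const_lt
      (show rk 𝒯 r B f - ε < rk 𝒯 r B f by linarith)
    have e4 := (tau_rk 𝒯 hr g D).eventually_const_lt
      (show rk 𝒯 r D g - ε < rk 𝒯 r D g by linarith)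
    filter_upwards [(e1.and e3).prod_mk (e2.and e4)] with p hp
    obtain ⟨⟨hp1, hp3⟩, hp2, hp4⟩ := hp
    have hDC : D.image (𝒯.act p.1) = C := by
      rw [← hD]
      apply Finset.image_congr
      intro t ht
      exact hp1 t (Finset.mem_union_left _ ht)
    have hAX : ∀ t ∈ A, t ∈ range (𝒯.act (p.1 * p.2)) := by
      intro t ht
      rw [← hA0] at ht
      obtain ⟨s, hs, rfl⟩ := Finset.mem_image.1 ht
      refine ⟨s, ?_⟩
      rw [𝒯.act_mul, 𝒯.act_mul, hp2 s hs,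
        hp1 _ (Finset.mem_union_right _ (Finset.mem_image_of_mem _ hs))]
    have k1 := rk_mul_ge 𝒯 hr hinv p.1 p.2 B D
    rw [hDC] at k1
    have k2 := cr2_le hr C B hAX
    have k3 := rk_mul_le' 𝒯 hr hinv f g B D
    rw [hD] at k3
    unfold rk at *
    linarith
  · intro c hc
    exact h0 (rk_usc 𝒯 hr B (f * g) hc)

theorem tau_mem [Countable Ω] [Countable T] (hr : IsRank r) (hinv : RankInv 𝒯 r) :
    tau 𝒯 r ∈ PolishSemigroupTopologies G :=
  ⟨polish_tau 𝒯 hr, continuousMul_of_nhds _ (tau_mul 𝒯 hr hinv)⟩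

theorem nhds_tau_one (hr : IsRank r) : @nhds _ (t0 G) 1 ≤ @nhds _ (tau 𝒯 r) 1 := by
  rw [nhds_tau]
  refine le_inf le_rfl (le_iInf fun B => ?_)
  rw [← tendsto_iff_comap]
  have h1 : rho 𝒯 r B 1 = 0 := by
    unfold rho
    rw [rk_one 𝒯 hr]
    simp
  rw [h1, ENNReal.nhds_zero, tendsto_iInf]
  intro a
  rw [tendsto_iInf]
  intro ha
  rw [tendsto_principal]
  have := rho_usc 𝒯 hr B 1 a (by show rho 𝒯 r B 1 < a; rw [h1]; exact pos_iff_ne_zero.2 ha)
  filter_upwards [this] with g hg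
  exact hg

/-- the total rank over the image -/
noncomputable def delta (r : Finset T → ℝ) (f : Closure G) : ℝ≥0∞ :=
  ⨆ B : Finset T, rho 𝒯 r B f

theorem delta_one (hr : IsRank r) : delta 𝒯 r 1 = 0 := by
  unfold delta rho
  simp [rk_one 𝒯 hr]

theorem delta_mul (hr : IsRank r) (hinv : RankInv 𝒯 r) (f g : Closure G) :
    delta 𝒯 r (f * g) = delta 𝒯 r f + delta 𝒯 r g := by
  apply le_antisymm
  · refine iSup_le fun B => ?_
    refine ENNReal.le_of_forall_pos_le_add fun ε hε _ => ?_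
    obtain ⟨C, hC, hC'⟩ := exists_lt hr B (range (𝒯.act f)) (NNReal.coe_pos.2 hε)
    obtain ⟨D, hD⟩ := exists_image 𝒯 hC
    have k3 := rk_mul_le' 𝒯 hr hinv f g B D
    rw [hD] at k3
    have k4 := cr2_nonneg hr C B (range (𝒯.act (f * g)))
    have k5 : rk 𝒯 r B (f * g) ≤ rk 𝒯 r B f + rk 𝒯 r D g + ε := by
      unfold rk at *
      linarith
    calc rho 𝒯 r B (f * g) ≤ ENNReal.ofReal (rk 𝒯 r B f + rk 𝒯 r D g + ε) :=
          ENNReal.ofReal_le_ofReal k5
      _ = rho 𝒯 r B f + rho 𝒯 r D g + ε := by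
          rw [ENNReal.ofReal_add (add_nonneg (rk_nonneg 𝒯 hr B f) (rk_nonneg 𝒯 hr D g))
            (NNReal.coe_nonneg ε), ENNReal.ofReal_add (rk_nonneg 𝒯 hr B f) (rk_nonneg 𝒯 hr D g),
            ENNReal.ofReal_coe_nnreal]
          rfl
      _ ≤ delta 𝒯 r f + delta 𝒯 r g + ε := by
          gcongr
          · exact le_iSup (fun B => rho 𝒯 r B f) B
          · exact le_iSup (fun B => rho 𝒯 r B g) D
  · refine ENNReal.iSup_add_iSup_le fun B D => ?_
    have k1 := rk_union_mul_ge 𝒯 hr hinv f g B D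
    calc rho 𝒯 r B f + rho 𝒯 r D g = ENNReal.ofReal (rk 𝒯 r B f + rk 𝒯 r D g) :=
          (ENNReal.ofReal_add (rk_nonneg 𝒯 hr B f) (rk_nonneg 𝒯 hr D g)).symm
      _ ≤ rho 𝒯 r (B ∪ D.image (𝒯.act f)) (f * g) := ENNReal.ofReal_le_ofReal k1
      _ ≤ delta 𝒯 r (f * g) := le_iSup (fun B => rho 𝒯 r B (f * g)) _

theorem delta_pow (hr : IsRank r) (hinv : RankInv 𝒯 r) (f : Closure G) (j : ℕ) :
    delta 𝒯 r (f ^ j) = j * delta 𝒯 r f := by
  induction j with
  | zero => simp [delta_one 𝒯 hr]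
  | succ j ih =>
    rw [pow_succ, delta_mul 𝒯 hr hinv, ih]
    push_cast
    ring

theorem delta_lsc (f : Closure G) {c : ℝ≥0∞} (hc : c < delta 𝒯 r f) :
    ∀ᶠ g in @nhds _ (tau 𝒯 r) f, c < delta 𝒯 r g := by
  obtain ⟨B, hB⟩ := lt_iSup_iff.1 hc
  filter_upwards [(tau_rho 𝒯 f B).eventually_const_lt hB] with g hg
  exact lt_of_lt_of_le hg (le_iSup (fun B => rho 𝒯 r B g) B)

/-- The topologies distinguishing the total ranks up to `v`. -/
noncomputable def tauv (r : Finset T → ℝ) (v : ℝ≥0∞) : TopologicalSpace (Closure G) :=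
  tau 𝒯 r ⊓ TopologicalSpace.induced (fun f => min (delta 𝒯 r f) v) inferInstance

theorem polish_tauv [Countable Ω] [Countable T] (hr : IsRank r) (v : ℝ≥0∞) :
    @PolishSpace (Closure G) (tauv 𝒯 r v) := by
  refine polish_refine_one (tau 𝒯 r) (polish_tau 𝒯 hr) _ (Or.inl ?_)
  letI := tau 𝒯 r
  intro f c hc
  have hc' : c < delta 𝒯 r f ∧ c < v := lt_min_iff.1 hc
  filter_upwards [delta_lsc 𝒯 f hc'.1] with g hg
  exact lt_min hg hc'.2

theorem nhds_tauv (v : ℝ≥0∞) (f : Closure G) :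
    @nhds _ (tauv 𝒯 r v) f = @nhds _ (tau 𝒯 r) f ⊓
      comap (fun f => min (delta 𝒯 r f) v) (𝓝 (min (delta 𝒯 r f) v)) := by
  unfold tauv
  rw [@nhds_inf, @nhds_induced]

theorem min_add_min (a b v : ℝ≥0∞) : min (a + b) v = min (min a v + min b v) v := by
  rcases le_total a v with ha | ha
  · rcases le_total b v with hb | hb
    · rw [min_eq_left ha, min_eq_left hb]
    · rw [min_eq_left ha, min_eq_right hb, min_eq_right (hb.trans le_add_self),
        min_eq_right le_add_self]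
  · rw [min_eq_right ha, min_eq_right (ha.trans le_self_add), min_eq_right le_self_add]

theorem tauv_mul (hr : IsRank r) (hinv : RankInv 𝒯 r) (v : ℝ≥0∞) (f g : Closure G) :
    Tendsto (fun p : Closure G × Closure G => p.1 * p.2)
      (@nhds _ (tauv 𝒯 r v) f ×ˢ @nhds _ (tauv 𝒯 r v) g) (@nhds _ (tauv 𝒯 r v) (f * g)) := by
  rw [nhds_tauv 𝒯 v (f * g), tendsto_inf]
  have hle : ∀ x : Closure G, @nhds _ (tauv 𝒯 r v) x ≤ @nhds _ (tau 𝒯 r) x := fun x => by
    rw [nhds_tauv]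
    exact inf_le_left
  have hmin : ∀ x : Closure G, Tendsto (fun f => min (delta 𝒯 r f) v) (@nhds _ (tauv 𝒯 r v) x)
      (𝓝 (min (delta 𝒯 r x) v)) := fun x => by
    rw [tendsto_iff_comap, nhds_tauv]
    exact inf_le_right
  refine ⟨(tau_mul 𝒯 hr hinv f g).mono_left (Filter.prod_mono (hle f) (hle g)), ?_⟩
  rw [tendsto_comap_iff]
  have h1 : ((fun f => min (delta 𝒯 r f) v) ∘ fun p : Closure G × Closure G => p.1 * p.2) =
      fun p => min (min (delta 𝒯 r p.1) v + min (delta 𝒯 r p.2) v) v := by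
    funext p
    show min (delta 𝒯 r (p.1 * p.2)) v = _
    rw [delta_mul 𝒯 hr hinv, min_add_min]
  rw [h1, delta_mul 𝒯 hr hinv, min_add_min]
  exact (((hmin f).comp tendsto_fst).add ((hmin g).comp tendsto_snd)).min tendsto_const_nhds

theorem tauv_mem [Countable Ω] [Countable T] (hr : IsRank r) (hinv : RankInv 𝒯 r)
    (v : ℝ≥0∞) : tauv 𝒯 r v ∈ PolishSemigroupTopologies G :=
  ⟨polish_tauv 𝒯 hr v, continuousMul_of_nhds _ (tauv_mul 𝒯 hr hinv v)⟩

theorem tauv_ne (hr : IsRank r) (hinv : RankInv 𝒯 r) {f : Closure G}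
    (h0 : delta 𝒯 r f ≠ 0) (htop : delta 𝒯 r f ≠ ⊤) {j k : ℕ} (hjk : j < k) :
    tauv 𝒯 r (j * delta 𝒯 r f) ≠ tauv 𝒯 r (k * delta 𝒯 r f) := by
  intro heq
  have hlt : (j : ℝ≥0∞) * delta 𝒯 r f < (j + 1 : ℕ) * delta 𝒯 r f := by
    apply ENNReal.mul_lt_mul_left h0 htop
    exact_mod_cast Nat.lt_succ_self j
  have hle : ((j + 1 : ℕ) : ℝ≥0∞) * delta 𝒯 r f ≤ k * delta 𝒯 r f := by
    gcongr
    exact_mod_cast hjk
  -- the open set
  have hW : {x : Closure G | min (delta 𝒯 r x) (k * delta 𝒯 r f) <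
      (j + 1 : ℕ) * delta 𝒯 r f} ∈ @nhds _ (tauv 𝒯 r (k * delta 𝒯 r f)) (f ^ j) := by
    have hmin : Tendsto (fun x => min (delta 𝒯 r x) (k * delta 𝒯 r f))
        (@nhds _ (tauv 𝒯 r (k * delta 𝒯 r f)) (f ^ j))
        (𝓝 (min (delta 𝒯 r (f ^ j)) (k * delta 𝒯 r f))) := by
      rw [tendsto_iff_comap, nhds_tauv]
      exact inf_le_right
    refine hmin.eventually_lt_const ?_
    rw [delta_pow 𝒯 hr hinv]
    exact lt_of_le_of_lt (min_le_left _ _) hlt
  rw [← heq, nhds_tauv] at hW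
  obtain ⟨U1, hU1, U2, hU2, hU⟩ := mem_inf_iff_superset.1 hW
  obtain ⟨N, hN, hNU⟩ := mem_comap.1 hU2
  have hmin0 : min (delta 𝒯 r (f ^ j)) (j * delta 𝒯 r f) = j * delta 𝒯 r f := by
    rw [delta_pow 𝒯 hr hinv, min_self]
  rw [hmin0] at hN
  -- near one
  have hV : {h : Closure G | f ^ j * h ∈ U1} ∈ @nhds _ (t0 G) 1 := by
    apply nhds_tau_one 𝒯 hr
    have h1 := tau_mul 𝒯 hr hinv (f ^ j) 1
    rw [mul_one] at h1
    have h2 : Tendsto (fun h : Closure G => (f ^ j, h)) (@nhds _ (tau 𝒯 r) 1)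
        (@nhds _ (tau 𝒯 r) (f ^ j) ×ˢ @nhds _ (tau 𝒯 r) 1) := by
      refine Tendsto.prodMk ?_ tendsto_id
      letI := tau 𝒯 r
      exact tendsto_const_nhds
    exact (h1.comp h2) hU1
  obtain ⟨u, v, hvu, huv, hmem⟩ := exists_unit_near_one G f hV
  have hu0 : delta 𝒯 r u = 0 := by
    have h1 : delta 𝒯 r v + delta 𝒯 r u = 0 := by
      rw [← delta_mul 𝒯 hr hinv, hvu, delta_one 𝒯 hr]
    exact (add_eq_zero.1 h1).2
  have hdel : delta 𝒯 r (f ^ j * (u * f)) = (j + 1 : ℕ) * delta 𝒯 r f := by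
    rw [delta_mul 𝒯 hr hinv, delta_mul 𝒯 hr hinv, hu0, zero_add, delta_pow 𝒯 hr hinv]
    push_cast
    ring
  have hx2 : f ^ j * (u * f) ∈ U2 := by
    apply hNU
    show min (delta 𝒯 r (f ^ j * (u * f))) (j * delta 𝒯 r f) ∈ N
    rw [hdel, min_eq_right hlt.le]
    exact mem_of_mem_nhds hN
  have hx := hU ⟨hmem, hx2⟩
  simp only [mem_ofPred_eq] at hx
  rw [hdel, min_eq_left hle] at hx
  exact lt_irrefl _ hx

/-- If there are only finitely many Polish semigroup topologies, then the total rank over the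
image of an element is zero or infinite. -/
theorem delta_zero_or_top [Countable Ω] [Countable T] (hr : IsRank r) (hinv : RankInv 𝒯 r)
    (hfin : (PolishSemigroupTopologies G).Finite) (f : Closure G) :
    delta 𝒯 r f = 0 ∨ delta 𝒯 r f = ⊤ := by
  by_contra hcon
  push Not at hcon
  have hinj : Function.Injective (fun j : ℕ => tauv 𝒯 r (j * delta 𝒯 r f)) := by
    intro j k hjk
    rcases lt_trichotomy j k with h | h | h
    · exact absurd hjk (tauv_ne 𝒯 hr hinv hcon.1 hcon.2 h)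
    · exact h
    · exact absurd hjk.symm (tauv_ne 𝒯 hr hinv hcon.1 hcon.2 h)
  have h1 := Set.infinite_range_of_injective hinj
  apply h1
  refine hfin.subset ?_
  rintro _ ⟨j, rfl⟩
  exact tauv_mem 𝒯 hr hinv _

end PST
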