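import Mathlib
import Pool.Agent.Helper26.PST.RankThm

open TopologicalSpace Set Filter Topology
open scoped ENNReal

namespace PST

variable {Ω P : Type*} {G : Subgroup (Equiv.Perm Ω)}

/-- A lower semicontinuous cocycle of the closure of `G` with values in `[0,∞]`. -/
structure IsCocycle (𝒬 : GSort G P) (τ : TopologicalSpace (Closure G))
    (δ : P → Closure G → ℝ≥0∞) : Prop where
  polish : @PolishSpace (Closure G) τ
  mul : ∀ f g : Closure G, Tendsto (fun p : Closure G × Closure G => p.1 * p.2)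
    (@nhds _ τ f ×ˢ @nhds _ τ g) (@nhds _ τ (f * g))
  le : ∀ f : Closure G, @nhds _ τ f ≤ @nhds _ (t0 G) f
  one : @nhds _ (t0 G) 1 ≤ @nhds _ τ 1
  act : ∀ (p : P) (f g : Closure G), δ p (f * g) = δ (𝒬.act g p) f + δ p g
  unit : ∀ p : P, δ p 1 = 0
  lsc : ∀ (p : P) (f : Closure G) (c : ℝ≥0∞), c < δ p f → ∀ᶠ g in @nhds _ τ f, c < δ p g

/-- the cocycle at `q` vanishes whenever the one at `p` does -/
def Dom (δ : P → Closure G → ℝ≥0∞) (q p : P) : Prop := ∀ f : Closure G, δ p f = 0 → δ q f = 0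

/-- The topologies distinguishing the values of the cocycle up to `v`. -/
noncomputable def tauC (τ : TopologicalSpace (Closure G)) (δ : P → Closure G → ℝ≥0∞)
    (v : ℝ≥0∞) : TopologicalSpace (Closure G) :=
  τ ⊓ ⨅ p : P, TopologicalSpace.induced (fun f => min (δ p f) v) inferInstance

variable {𝒬 : GSort G P} {τ : TopologicalSpace (Closure G)} {δ : P → Closure G → ℝ≥0∞}

theorem IsCocycle.polish_tauC [Countable P] (h : IsCocycle 𝒬 τ δ) (v : ℝ≥0∞) :
    @PolishSpace (Closure G) (tauC τ δ v) := by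
  refine polish_refine τ h.polish _ fun p => Or.inl ?_
  letI := τ
  intro f c hc
  have hc' : c < δ p f ∧ c < v := lt_min_iff.1 hc
  filter_upwards [h.lsc p f c hc'.1] with g hg
  exact lt_min hg hc'.2

theorem nhds_tauC (τ : TopologicalSpace (Closure G)) (δ : P → Closure G → ℝ≥0∞) (v : ℝ≥0∞)
    (f : Closure G) :
    @nhds _ (tauC τ δ v) f = @nhds _ τ f ⊓
      ⨅ p : P, comap (fun f => min (δ p f) v) (𝓝 (min (δ p f) v)) := by
  unfold tauC
  rw [@nhds_inf, @nhds_iInf]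
  simp only [@nhds_induced]

theorem IsCocycle.tauC_mul (h : IsCocycle 𝒬 τ δ) (v : ℝ≥0∞) (f g : Closure G) :
    Tendsto (fun p : Closure G × Closure G => p.1 * p.2)
      (@nhds _ (tauC τ δ v) f ×ˢ @nhds _ (tauC τ δ v) g)
      (@nhds _ (tauC τ δ v) (f * g)) := by
  rw [nhds_tauC τ δ v (f * g), tendsto_inf, tendsto_iInf]
  have hle : ∀ x : Closure G, @nhds _ (tauC τ δ v) x ≤ @nhds _ τ x := fun x => by
    rw [nhds_tauC]
    exact inf_le_left
  have hmin : ∀ (x : Closure G) (p : P), Tendsto (fun f => min (δ p f) v)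
      (@nhds _ (tauC τ δ v) x) (𝓝 (min (δ p x) v)) := fun x p => by
    rw [tendsto_iff_comap, nhds_tauC]
    exact inf_le_right.trans (iInf_le _ p)
  refine ⟨(h.mul f g).mono_left (Filter.prod_mono (hle f) (hle g)), fun q => ?_⟩
  rw [tendsto_comap_iff]
  have e1 := (𝒬.cont g q).filter_mono ((hle g).trans (h.le g))
  have h1 : ((fun f => min (δ q f) v) ∘ fun p : Closure G × Closure G => p.1 * p.2)
      =ᶠ[(@nhds _ (tauC τ δ v) f ×ˢ @nhds _ (tauC τ δ v) g)]
      fun p => min (min (δ (𝒬.act g q) p.1) v + min (δ q p.2) v) v := by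
    filter_upwards [tendsto_snd.eventually e1] with p hp
    show min (δ q (p.1 * p.2)) v = _
    rw [h.act, hp, min_add_min]
  refine Tendsto.congr' h1.symm ?_
  rw [h.act, min_add_min]
  exact (((hmin f _).comp tendsto_fst).add ((hmin g q).comp tendsto_snd)).min
    tendsto_const_nhds

theorem IsCocycle.tauC_mem [Countable P] (h : IsCocycle 𝒬 τ δ) (v : ℝ≥0∞) :
    tauC τ δ v ∈ PolishSemigroupTopologies G :=
  ⟨h.polish_tauC v, continuousMul_of_nhds _ (h.tauC_mul v)⟩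

/-- The criterion for two of the topologies to be different. -/
theorem IsCocycle.tauC_ne (hC : IsCocycle 𝒬 τ δ) {f : Closure G} {c : P}
    {v w : ℝ≥0∞} (hf : δ c f ≠ ⊤) (hw : δ c f + 1 ≤ w)
    (hh : ∀ (F : Finset Ω) (Q : Finset P), (∀ q ∈ Q, δ q f < v) →
      ∃ h : Closure G, (∀ x ∈ F, ev h x = x) ∧ (∀ q ∈ Q, δ q h = 0) ∧ 1 ≤ δ c h) :
    tauC τ δ v ≠ tauC τ δ w := by
  classical
  intro heq
  have hW : {x : Closure G | min (δ c x) w < δ c f + 1} ∈ @nhds _ (tauC τ δ w) f := by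
    have hmin : Tendsto (fun x => min (δ c x) w)
        (@nhds _ (tauC τ δ w) f) (𝓝 (min (δ c f) w)) := by
      rw [tendsto_iff_comap, nhds_tauC]
      exact inf_le_right.trans (iInf_le _ c)
    refine hmin.eventually_lt_const ?_
    refine lt_of_le_of_lt (min_le_left _ _) ?_
    exact ENNReal.lt_add_right hf one_ne_zero
  rw [← heq] at hW
  let E : P → Set (Closure G) := fun q => {x | min (δ q x) v = min (δ q f) v}
  have hB : @nhds _ τ f ⊓ ⨅ q : P, 𝓟 (E q) ≤ @nhds _ (tauC τ δ v) f := by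
    rw [nhds_tauC]
    refine le_inf inf_le_left (le_iInf fun q => ?_)
    rw [← tendsto_iff_comap]
    refine tendsto_const_nhds.congr' ?_
    have h0 : @nhds _ τ f ⊓ ⨅ q : P, 𝓟 (E q) ≤ 𝓟 (E q) :=
      inf_le_right.trans (iInf_le (fun q => 𝓟 (E q)) q)
    have h1 : E q ∈ @nhds _ τ f ⊓ ⨅ q : P, 𝓟 (E q) :=
      h0 (mem_principal_self _)
    filter_upwards [h1] with x hx
    exact hx.symm
  obtain ⟨U1, hU1, U2, hU2, hU⟩ := mem_inf_iff_superset.1 (hB hW)
  obtain ⟨Q, hQ⟩ := (mem_iInf_finite _).1 hU2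
  rw [iInf_principal_finset, mem_principal] at hQ
  -- near one
  have hV : {h : Closure G | f * h ∈ U1 ∧ 𝒬.act h c = c ∧ ∀ q ∈ Q, 𝒬.act h q = q} ∈
      @nhds _ (t0 G) 1 := by
    have h3 : ∀ᶠ h in @nhds _ (t0 G) (1 : Closure G), f * h ∈ U1 := by
      apply hC.one
      have h1 := hC.mul f 1
      rw [mul_one] at h1
      have h2 : Tendsto (fun h : Closure G => (f, h)) (@nhds _ τ 1)
          (@nhds _ τ f ×ˢ @nhds _ τ 1) := by
        refine Tendsto.prodMk ?_ tendsto_id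
        letI := τ
        exact tendsto_const_nhds
      exact (h1.comp h2) hU1
    have h4 : ∀ᶠ h in @nhds _ (t0 G) (1 : Closure G), ∀ q ∈ insert c Q, 𝒬.act h q = q := by
      rw [Filter.eventually_all_finset]
      intro q _
      filter_upwards [𝒬.cont 1 q] with h hh
      rw [hh, 𝒬.act_one]
    filter_upwards [h3, h4] with h h5 h6
    exact ⟨h5, h6 c (Finset.mem_insert_self _ _), fun q hq => h6 q (Finset.mem_insert_of_mem hq)⟩
  obtain ⟨F, -, hF⟩ := (t0_nhds G 1).mem_iff.1 hV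
  obtain ⟨h, hh1, hh2, hh3⟩ := hh F (Q.filter fun q => δ q f < v) (by
    intro q hq
    exact (Finset.mem_filter.1 hq).2)
  obtain ⟨hm1, hm2, hm3⟩ := hF (show h ∈ {g : Closure G | ∀ x ∈ F, ev g x = ev 1 x} from
    fun x hx => by rw [hh1 x hx, ev_one])
  have hx2 : f * h ∈ U2 := by
    apply hQ
    rw [mem_iInter₂]
    intro q hq
    show min (δ q (f * h)) v = min (δ q f) v
    rw [hC.act, hm3 q hq]
    by_cases hqv : δ q f < v
    · rw [hh2 q (Finset.mem_filter.2 ⟨hq, hqv⟩), add_zero]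
    · rw [not_lt] at hqv
      rw [min_eq_right hqv, min_eq_right (hqv.trans le_self_add)]
  have hx := hU ⟨hm1, hx2⟩
  simp only [mem_ofPred_eq] at hx
  rw [hC.act, hm2] at hx
  have h7 : δ c f + 1 ≤ min (δ c f + δ c h) w := by
    refine le_min ?_ hw
    gcongr
  exact absurd hx (not_lt.2 h7)

/-- units have value zero -/
theorem IsCocycle.of_unit (hC : IsCocycle 𝒬 τ δ) {u v : Closure G} (h : v * u = 1) (p : P) :
    δ p u = 0 := by
  have h1 := hC.act p v u
  rw [h, hC.unit] at h1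
  exact (add_eq_zero.1 h1.symm).2

theorem exists_unit_act (𝒬 : GSort G P) (f : Closure G) (F : Finset P) :
    ∃ u v : Closure G, v * u = 1 ∧ u * v = 1 ∧ ∀ p ∈ F, 𝒬.act u p = 𝒬.act f p := by
  classical
  have h1 : ∀ᶠ g in @nhds _ (t0 G) f, ∀ p ∈ F, 𝒬.act g p = 𝒬.act f p := by
    rw [Filter.eventually_all_finset]
    exact fun t _ => 𝒬.cont f t
  obtain ⟨E, -, hE⟩ := (t0_nhds G f).mem_iff.1 h1
  obtain ⟨k, hk, hk'⟩ := ev_approx f E
  refine ⟨ofG k hk, ofG k⁻¹ (G.inv_mem hk), ?_, ?_, ?_⟩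
  · apply Subtype.ext
    funext x
    show k⁻¹ (k x) = x
    simp
  · apply Subtype.ext
    funext x
    show k (k⁻¹ x) = x
    simp
  · exact hE fun x hx => by
      show k x = ev f x
      exact hk' x hx

/-- the relation `Dom` is invariant -/
theorem IsCocycle.dom_act (hC : IsCocycle 𝒬 τ δ) (f : Closure G) {q p : P} (h : Dom δ q p) :
    Dom δ (𝒬.act f q) (𝒬.act f p) := by
  classical
  obtain ⟨u, v, hvu, -, hu⟩ := exists_unit_act 𝒬 f {q, p}
  rw [← hu q (by simp), ← hu p (by simp)]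
  intro g hg
  have h1 := hC.act p g u
  rw [hg, hC.of_unit hvu, add_zero] at h1
  have h2 := h _ h1
  rw [hC.act] at h2
  exact (add_eq_zero.1 h2).1

theorem IsCocycle.dom_act_iff (hC : IsCocycle 𝒬 τ δ) (f : Closure G) {q p : P} :
    Dom δ (𝒬.act f q) (𝒬.act f p) ↔ Dom δ q p := by
  classical
  refine ⟨fun h => ?_, hC.dom_act f⟩
  obtain ⟨u, v, hvu, -, hu⟩ := exists_unit_act 𝒬 f {q, p}
  rw [← hu q (by simp), ← hu p (by simp)] at h
  have h1 := hC.dom_act v h
  rw [← 𝒬.act_mul, ← 𝒬.act_mul, hvu, 𝒬.act_one, 𝒬.act_one] at h1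
  exact h1

theorem ev_pow_fix' {f : Closure G} {F : Finset Ω} (hf : ∀ z ∈ F, ev f z = z) (j : ℕ) :
    ∀ z ∈ F, ev (f ^ j) z = z := by
  induction j with
  | zero => intro z _; rfl
  | succ j ih =>
    intro z hz
    rw [pow_succ', ev_mul, ih z hz, hf z hz]

theorem act_pow_fix {h : Closure G} {q : P} (hq : 𝒬.act h q = q) (j : ℕ) :
    𝒬.act (h ^ j) q = q := by
  induction j with
  | zero => rw [pow_zero, 𝒬.act_one]
  | succ j ih => rw [pow_succ', 𝒬.act_mul, ih, hq]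

theorem IsCocycle.pow_fix (hC : IsCocycle 𝒬 τ δ) {h : Closure G} {q : P} (hq : 𝒬.act h q = q)
    (j : ℕ) : δ q (h ^ j) = j * δ q h := by
  induction j with
  | zero => rw [pow_zero, hC.unit, Nat.cast_zero, zero_mul]
  | succ j ih =>
    rw [pow_succ', hC.act, act_pow_fix hq, ih]
    push_cast
    ring

/-- near the identity, elements with prescribed zero and large values -/
theorem IsCocycle.exists_near_one (hC : IsCocycle 𝒬 τ δ) {h₀ : Closure G} {c : P}
    {Q : Finset P} (hQ : ∀ q ∈ Q, δ q h₀ = 0) (hc : δ c h₀ ≠ 0) (F : Finset Ω)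
    (F' : Finset P) {K : ℝ≥0∞} (hK : K ≠ ⊤) :
    ∃ h : Closure G, (∀ x ∈ F, ev h x = x) ∧ (∀ q ∈ F', 𝒬.act h q = q) ∧ (∀ q ∈ Q, δ q h = 0) ∧
      K ≤ δ c h := by
  classical
  have hV : {h : Closure G | (∀ x ∈ F, ev h x = ev (1 : Closure G) x) ∧
      ∀ q ∈ insert c (Q ∪ F'), 𝒬.act h q = 𝒬.act 1 q} ∈ @nhds _ (t0 G) 1 := by
    have h1 := t0_agree G 1 F
    have h2 : ∀ᶠ g in @nhds _ (t0 G) (1 : Closure G), ∀ q ∈ insert c (Q ∪ F'),
        𝒬.act g q = 𝒬.act 1 q := by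
      rw [Filter.eventually_all_finset]
      exact fun t _ => 𝒬.cont 1 t
    exact h1.and h2
  obtain ⟨u, v, hvu, -, hu⟩ := exists_unit_near_one G h₀ hV
  obtain ⟨hu1, hu2⟩ := hu
  have hval : ∀ q, δ q (u * h₀) = δ q h₀ := by
    intro q
    rw [hC.act, hC.of_unit hvu, zero_add]
  have hfix : ∀ q ∈ insert c (Q ∪ F'), 𝒬.act (u * h₀) q = q := by
    intro q hq
    rw [hu2 q hq, 𝒬.act_one]
  obtain ⟨m, hm⟩ : ∃ m : ℕ, K ≤ m * δ c h₀ := by
    by_cases htop : δ c h₀ = ⊤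
    · refine ⟨1, ?_⟩
      rw [htop]
      simp
    · obtain ⟨m, hm⟩ := ENNReal.exists_nat_mul_gt hc hK
      exact ⟨m, hm.le⟩
  refine ⟨(u * h₀) ^ m, ?_, ?_, ?_, ?_⟩
  · exact ev_pow_fix' (fun x hx => by rw [hu1 x hx, ev_one]) m
  · intro q hq
    exact act_pow_fix (hfix q (Finset.mem_insert_of_mem (Finset.mem_union_right _ hq))) m
  · intro q hq
    rw [hC.pow_fix (hfix q (Finset.mem_insert_of_mem (Finset.mem_union_left _ hq))), hval,
      hQ q hq, mul_zero]
  · rw [hC.pow_fix (hfix c (Finset.mem_insert_self _ _)), hval]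
    exact hm

/-- By the Baire category theorem there is an element over `c` at which the cocycle is zero at
`c` and infinite at every `q` not dominated by `c`. -/
theorem IsCocycle.exists_generic [Countable P] (hC : IsCocycle 𝒬 τ δ) (c : P) :
    ∃ α : Closure G, 𝒬.act α c = c ∧ δ c α = 0 ∧ ∀ q, ¬ Dom δ q c → δ q α = ⊤ := by
  classical
  let := τ
  haveI := hC.polish
  let Y : Set (Closure G) := {α | 𝒬.act α c = c ∧ δ c α = 0}
  have hYc : IsClosed Y := by
    rw [← isOpen_compl_iff, isOpen_iff_mem_nhds]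
    intro f hf
    by_cases h1 : 𝒬.act f c = c
    · have h2 : 0 < δ c f := by
        rw [pos_iff_ne_zero]
        exact fun h => hf ⟨h1, h⟩
      filter_upwards [hC.lsc c f 0 h2] with g hg hgY
      exact hg.ne' hgY.2
    · filter_upwards [(𝒬.cont f c).filter_mono (hC.le f)] with g hg hgY
      exact h1 (hg ▸ hgY.1)
  haveI : PolishSpace Y := hYc.polishSpace
  haveI : Nonempty Y := ⟨⟨1, 𝒬.act_one c, hC.unit c⟩⟩
  letI := upgradeIsCompletelyMetrizable Y
  let I := {q : P // ¬ Dom δ q c} × ℕ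
  let U : I → Set Y := fun i => {α | (i.2 : ℝ≥0∞) < δ i.1.1 α.1}
  have hUo : ∀ i, IsOpen (U i) := by
    rintro ⟨⟨q, hq⟩, n⟩
    rw [isOpen_iff_mem_nhds]
    rintro ⟨α, hα⟩ hlt
    have h1 := hC.lsc q α n hlt
    have h2 : Tendsto (Subtype.val : Y → Closure G) (𝓝 ⟨α, hα⟩) (𝓝 α) :=
      continuous_subtype_val.continuousAt
    exact h2.eventually h1
  have hUd : ∀ i, Dense (U i) := by
    rintro ⟨⟨q, hq⟩, n⟩
    rintro ⟨α, hα⟩
    rw [mem_closure_iff_nhds]
    intro V hV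
    rw [nhds_subtype_eq_comap, mem_comap] at hV
    obtain ⟨W, hW, hWV⟩ := hV
    have h3 : ∀ᶠ h in @nhds _ (t0 G) (1 : Closure G), α * h ∈ W := by
      apply hC.one
      have h1 := hC.mul α 1
      rw [mul_one] at h1
      have h2 : Tendsto (fun h : Closure G => (α, h)) (@nhds _ τ 1)
          (@nhds _ τ α ×ˢ @nhds _ τ 1) := by
        refine Tendsto.prodMk ?_ tendsto_id
        exact tendsto_const_nhds
      exact (h1.comp h2) hW
    obtain ⟨F, -, hF⟩ := (t0_nhds G 1).mem_iff.1 h3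
    unfold Dom at hq
    push Not at hq
    obtain ⟨h₀, h₀1, h₀2⟩ := hq
    obtain ⟨h, hh1, hh2, hh3, hh4⟩ := hC.exists_near_one (Q := {c}) (c := q)
      (by simpa using h₀1) h₀2 F {c, q} (K := (n : ℝ≥0∞) + 1)
      (by exact ENNReal.add_ne_top.2 ⟨ENNReal.natCast_ne_top n, ENNReal.one_ne_top⟩)
    have hhc := hh2 c (by simp)
    have hhq := hh2 q (by simp)
    have hY : α * h ∈ Y := by
      refine ⟨?_, ?_⟩
      · rw [𝒬.act_mul, hhc, hα.1]
      · rw [hC.act, hhc, hα.2, hh3 c (by simp), add_zero]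
    refine ⟨⟨α * h, hY⟩, hWV ?_, ?_⟩
    · show α * h ∈ W
      exact hF fun x hx => by rw [hh1 x hx, ev_one]
    · show (n : ℝ≥0∞) < δ q (α * h)
      rw [hC.act]
      have h5 : (n : ℝ≥0∞) < n + 1 := ENNReal.lt_add_right (ENNReal.natCast_ne_top n) one_ne_zero
      exact h5.trans_le (hh4.trans le_add_self)
  obtain ⟨α, hα⟩ := (dense_iInter_of_isOpen hUo hUd).nonempty
  refine ⟨α.1, α.2.1, α.2.2, fun q hq => ?_⟩
  by_contra hne
  obtain ⟨n, hn⟩ := ENNReal.exists_nat_gt hne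
  have h1 : (n : ℝ≥0∞) < δ q α.1 := mem_iInter.1 hα ⟨⟨q, hq⟩, n⟩
  exact absurd h1 (not_lt.2 hn.le)

/-- A function on the natural numbers each of whose values is eventually avoided has infinite
range. -/
theorem infinite_range_of_avoid {X : Type*} {T : ℕ → X} (h : ∀ k, ∃ w, ∀ j ≥ w, T k ≠ T j) :
    (range T).Infinite := by
  intro hfin
  haveI := hfin.to_subtype
  obtain ⟨x, hx⟩ := Finite.exists_infinite_fiber (fun k : ℕ => (⟨T k, k, rfl⟩ : range T))
  have hx' := Set.infinite_coe_iff.1 hx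
  obtain ⟨k, hk⟩ := hx'.nonempty
  obtain ⟨w, hw⟩ := h k
  obtain ⟨j, hj, hwj⟩ := hx'.exists_gt w
  apply hw j hwj.le
  have h1 : (⟨T k, k, rfl⟩ : range T) = x := hk
  have h2 : (⟨T j, j, rfl⟩ : range T) = x := hj
  exact congrArg Subtype.val (h1.trans h2.symm)

/-- The main criterion: if the cocycle has a value at `c` which is neither zero nor infinite, is
bounded below on the class of `c`, and `c` is not covered by finitely many `q` strictly
dominated by `c`, there are infinitely many Polish semigroup topologies. -/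
theorem IsCocycle.infinite [Countable P] (hC : IsCocycle 𝒬 τ δ) {c : P} {f₁ : Closure G}
    (hf₁ : 𝒬.act f₁ c = c) {ε : ℝ≥0∞} (hε : ε ≠ 0)
    (h0 : ∀ q, Dom δ q c → Dom δ c q → ε ≤ δ q f₁) (htop : δ c f₁ ≠ ⊤)
    (hnc : ∀ Q : Finset P, (∀ q ∈ Q, Dom δ q c ∧ ¬ Dom δ c q) →
      ∃ h : Closure G, (∀ q ∈ Q, δ q h = 0) ∧ δ c h ≠ 0) :
    (PolishSemigroupTopologies G).Infinite := by
  classical
  obtain ⟨α, hα1, hα2, hα3⟩ := hC.exists_generic c
  have hpow : ∀ (j : ℕ) (q : P), Dom δ q c → Dom δ c q → (j : ℝ≥0∞) * ε ≤ δ q (f₁ ^ j) := by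
    intro j
    induction j with
    | zero => intro q _ _; simp
    | succ j ih =>
      intro q h1 h2
      rw [pow_succ, hC.act]
      have h3 := hC.dom_act f₁ h1
      have h4 := hC.dom_act f₁ h2
      rw [hf₁] at h3 h4
      have h5 := ih _ h3 h4
      have h6 := h0 q h1 h2
      push_cast
      rw [add_mul, one_mul]
      gcongr
  have hcpow : ∀ j : ℕ, δ c (f₁ ^ j) = j * δ c f₁ := fun j => hC.pow_fix hf₁ j
  refine (infinite_range_of_avoid (T := fun k : ℕ => tauC τ δ (k : ℝ≥0∞)) fun k => ?_).mono ?_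
  · obtain ⟨m, hm⟩ : ∃ m : ℕ, (k : ℝ≥0∞) ≤ m * ε := by
      by_cases htop : ε = ⊤
      · refine ⟨1, ?_⟩
        rw [htop]
        simp
      · obtain ⟨m, hm⟩ := ENNReal.exists_nat_mul_gt hε (ENNReal.natCast_ne_top k)
        exact ⟨m, hm.le⟩
    have hcf : δ c (α * f₁ ^ m) = m * δ c f₁ := by
      rw [hC.act, act_pow_fix hf₁, hα2, zero_add, hcpow]
    have hcf' : δ c (α * f₁ ^ m) ≠ ⊤ := by
      rw [hcf]
      exact ENNReal.mul_ne_top (ENNReal.natCast_ne_top m) htop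
    obtain ⟨w, hw⟩ := ENNReal.exists_nat_gt
      (show δ c (α * f₁ ^ m) + 1 ≠ ⊤ from ENNReal.add_ne_top.2 ⟨hcf', ENNReal.one_ne_top⟩)
    refine ⟨w, fun j hj => ?_⟩
    refine hC.tauC_ne (f := α * f₁ ^ m) (c := c) hcf' ?_ ?_
    · exact hw.le.trans (by exact_mod_cast hj)
    · intro F Q hQ
      have hQ' : ∀ q ∈ Q, Dom δ q c ∧ ¬ Dom δ c q := by
        intro q hq
        have h1 := hQ q hq
        rw [hC.act] at h1
        have h2 : Dom δ q c := by
          by_contra hnd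
          have h3 : ¬ Dom δ (𝒬.act (f₁ ^ m) q) c := by
            intro h4
            apply hnd
            rw [← act_pow_fix hf₁ m, hC.dom_act_iff] at h4
            exact h4
          rw [hα3 _ h3] at h1
          simp at h1
        refine ⟨h2, fun h3 => ?_⟩
        have h4 := hpow m q h2 h3
        exact absurd (hm.trans (h4.trans le_add_self)) (not_le.2 h1)
      obtain ⟨h₀, hh1, hh2⟩ := hnc Q hQ'
      obtain ⟨h, hh3, -, hh5, hh6⟩ := hC.exists_near_one hh1 hh2 F ∅ ENNReal.one_ne_top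
      exact ⟨h, hh3, hh5, hh6⟩
  · rintro _ ⟨j, rfl⟩
    exact hC.tauC_mem _

end PST
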