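import Mathlib
import Pool.Agent.Helper26.PST.Cocycle

open TopologicalSpace Set Filter Topology
open scoped ENNReal

namespace PST

variable {Ω P : Type*} {G : Subgroup (Equiv.Perm Ω)}

/-- `δ p f` is a cocycle of the closure of `G` on the sort `P` with values in `[0,∞]`, lower
semicontinuous in `f` for the topology `τ`. -/
structure LscCocycle (𝒬 : GSort G P) (τ : TopologicalSpace (Closure G))
    (δ : P → Closure G → ℝ≥0∞) : Prop where
  act : ∀ (p : P) (f g : Closure G), δ p (f * g) = δ (𝒬.act g p) f + δ p g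
  unit : ∀ p : P, δ p 1 = 0
  lsc : ∀ p : P, @LowerSemicontinuous _ ℝ≥0∞ τ _ (δ p)

/-- The elements at which a cocycle which is not identically zero has a value below `v`. -/
def ZSet (δ : P → Closure G → ℝ≥0∞) (v : ℝ≥0∞) : Set (Closure G) :=
  {f | ∃ p, (∃ h, δ p h ≠ 0) ∧ δ p f < v}

/-- The sets `ZSet` of all cocycles, lower semicontinuous for `τ`, on countable sorts. -/
def ZSets (G : Subgroup (Equiv.Perm Ω)) (τ : TopologicalSpace (Closure G)) :
    Set (Set (Closure G)) :=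
  {Z | ∃ (P : Type) (_ : Countable P) (𝒬 : GSort G P) (δ : P → Closure G → ℝ≥0∞) (v : ℝ≥0∞),
    LscCocycle 𝒬 τ δ ∧ Z = ZSet δ v}

theorem LscCocycle.isCocycle {𝒬 : GSort G P} {τ : TopologicalSpace (Closure G)}
    {δ : P → Closure G → ℝ≥0∞} (h : LscCocycle 𝒬 τ δ) (hτ : τ ∈ PolishSemigroupTopologies G)
    (hle : τ ≤ t0 G) (hone : @nhds _ (t0 G) 1 ≤ @nhds _ τ 1) : IsCocycle 𝒬 τ δ where
  polish := hτ.1
  mul := fun x y => by
    let := τ
    have := hτ.2
    rw [← nhds_prod_eq]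
    exact tendsto_mul
  le := fun x => nhds_mono hle
  one := hone
  act := h.act
  unit := h.unit
  lsc := fun p x c hc => h.lsc p x c hc

variable {𝒬 : GSort G P} {τ : TopologicalSpace (Closure G)} {δ : P → Closure G → ℝ≥0∞}

/-- the neighbourhoods do not change outside of `ZSet` -/
theorem IsCocycle.nhds_eq_of_notMem (hC : IsCocycle 𝒬 τ δ) {v : ℝ≥0∞} {f : Closure G}
    (hf : f ∉ ZSet δ v) : @nhds _ (tauC τ δ v) f = @nhds _ τ f := by
  rw [nhds_tauC]
  refine le_antisymm inf_le_left (le_inf le_rfl (le_iInf fun p => ?_))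
  rw [← tendsto_iff_comap]
  by_cases hp : ∃ h, δ p h ≠ 0
  · have hv : v ≤ δ p f := by
      by_contra hcon
      exact hf ⟨p, hp, not_le.1 hcon⟩
    rw [min_eq_right hv, tendsto_order]
    refine ⟨fun c hc => ?_, fun c hc => ?_⟩
    · filter_upwards [hC.lsc p f c (hc.trans_le hv)] with g hg
      exact lt_min hg hc
    · exact Eventually.of_forall fun g => (min_le_right _ _).trans_lt hc
  · push Not at hp
    have h1 : (fun g => min (δ p g) v) = fun _ => min (δ p f) v := by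
      funext g
      rw [hp g, hp f]
    rw [h1]
    exact tendsto_const_nhds

/-- the neighbourhoods change on `ZSet` -/
theorem IsCocycle.nhds_ne_of_mem (hC : IsCocycle 𝒬 τ δ) {v : ℝ≥0∞} {f : Closure G}
    (hf : f ∈ ZSet δ v) : @nhds _ (tauC τ δ v) f ≠ @nhds _ τ f := by
  classical
  intro heq
  obtain ⟨p, ⟨h₀, hh₀⟩, hv⟩ := hf
  obtain ⟨w, hw1, hw2⟩ := exists_between hv
  have hwt : w ≠ ⊤ := ne_top_of_lt hw2
  have hU : {x : Closure G | min (δ p x) v < w} ∈ @nhds _ (tauC τ δ v) f := by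
    have hmin : Tendsto (fun x => min (δ p x) v) (@nhds _ (tauC τ δ v) f)
        (𝓝 (min (δ p f) v)) := by
      rw [tendsto_iff_comap, nhds_tauC]
      exact inf_le_right.trans (iInf_le _ p)
    exact hmin.eventually_lt_const ((min_le_left _ _).trans_lt hw1)
  rw [heq] at hU
  have h1 : Tendsto (fun h : Closure G => f * h) (@nhds _ τ 1) (@nhds _ τ f) := by
    have h2 := hC.mul f 1
    rw [mul_one] at h2
    have h3 : Tendsto (fun h : Closure G => (f, h)) (@nhds _ τ 1)
        (@nhds _ τ f ×ˢ @nhds _ τ 1) := by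
      refine Tendsto.prodMk ?_ tendsto_id
      let := τ
      exact tendsto_const_nhds
    exact h2.comp h3
  have h4 := hC.one (h1 hU)
  obtain ⟨F, -, hF⟩ := (t0_nhds G 1).mem_iff.1 h4
  obtain ⟨h, hh1, hh2, -, hh3⟩ := hC.exists_near_one (Q := ∅) (by simp) hh₀ F {p} hwt
  have h5 : f * h ∈ {x : Closure G | min (δ p x) v < w} := hF fun x hx => hh1 x hx
  have h6 : min (δ p (f * h)) v < w := h5
  rw [hC.act, hh2 p (by simp)] at h6
  rcases min_lt_iff.1 h6 with h7 | h7
  · exact absurd (hh3.trans le_add_self) (not_le.2 h7)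
  · exact absurd hw2 (not_lt.2 h7.le)

theorem IsCocycle.mem_zSet_iff (hC : IsCocycle 𝒬 τ δ) {v : ℝ≥0∞} {f : Closure G} :
    f ∈ ZSet δ v ↔ @nhds _ (tauC τ δ v) f ≠ @nhds _ τ f :=
  ⟨hC.nhds_ne_of_mem, fun h => by
    by_contra hcon
    exact h (hC.nhds_eq_of_notMem hcon)⟩

/-- The number of Polish semigroup topologies is at least one plus the number of sets `ZSet`. -/
theorem one_add_encard_le (hτ : τ ∈ PolishSemigroupTopologies G) (hle : τ ≤ t0 G)
    (hne : τ ≠ t0 G) (hone : @nhds _ (t0 G) 1 ≤ @nhds _ τ 1)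
    (h0 : t0 G ∈ PolishSemigroupTopologies G) :
    1 + (ZSets G τ).encard ≤ (PolishSemigroupTopologies G).encard := by
  classical
  have key : ∀ Z ∈ ZSets G τ, ∃ σ ∈ PolishSemigroupTopologies G, σ ≤ τ ∧
      ∀ f, f ∈ Z ↔ @nhds _ σ f ≠ @nhds _ τ f := by
    rintro Z ⟨P, hP, 𝒬, δ, v, hδ, rfl⟩
    have hC := hδ.isCocycle hτ hle hone
    exact ⟨tauC τ δ v, hC.tauC_mem v, inf_le_left, fun f => hC.mem_zSet_iff⟩
  choose! σ hσ1 hσ2 hσ3 using key
  have hinj : InjOn σ (ZSets G τ) := by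
    intro Z hZ Z' hZ' h
    ext f
    rw [hσ3 Z hZ f, hσ3 Z' hZ' f, h]
  have hsub : insert (t0 G) (σ '' ZSets G τ) ⊆ PolishSemigroupTopologies G := by
    rintro t (rfl | ⟨Z, hZ, rfl⟩)
    · exact h0
    · exact hσ1 Z hZ
  have hnot : t0 G ∉ σ '' ZSets G τ := by
    rintro ⟨Z, hZ, h⟩
    exact hne (le_antisymm hle (h ▸ hσ2 Z hZ))
  have h1 := encard_le_encard hsub
  rw [encard_insert_of_notMem hnot, hinj.encard_image, add_comm] at h1
  exact h1

end PST
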