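import Mathlib
import Pool.Agent.Helper26.PST.Basic

open TopologicalSpace Set Filter Topology
open scoped ENNReal Pointwise

namespace PST

variable {Ω : Type*}

/-- `a` is algebraic over the finite set `F`: its orbit under the pointwise stabiliser of `F`
in `G` is finite. -/
def IsAlgebraicOver (G : Subgroup (Equiv.Perm Ω)) (F : Finset Ω) (a : Ω) : Prop :=
  {b | ∃ g ∈ G, (∀ x ∈ F, g x = x) ∧ g a = b}.Finite

/-- The algebraic closure of a set. -/
def Acl (G : Subgroup (Equiv.Perm Ω)) (X : Set Ω) : Set Ω :=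
  {a | ∃ F : Finset Ω, (∀ x ∈ F, x ∈ X) ∧ IsAlgebraicOver G F a}

theorem isAlgebraicOver_of_mem (G : Subgroup (Equiv.Perm Ω)) {F : Finset Ω} {a : Ω}
    (h : a ∈ F) : IsAlgebraicOver G F a := by
  refine (Set.finite_singleton a).subset ?_
  rintro b ⟨g, _, hg, rfl⟩
  exact hg a h

theorem subset_acl (G : Subgroup (Equiv.Perm Ω)) (X : Set Ω) : X ⊆ Acl G X := by
  intro a ha
  exact ⟨{a}, by simpa using ha, isAlgebraicOver_of_mem G (by simp)⟩

theorem isAlgebraicOver_image [DecidableEq Ω] (G : Subgroup (Equiv.Perm Ω)) {F : Finset Ω} {a : Ω}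
    {k : Equiv.Perm Ω} (hk : k ∈ G) (h : IsAlgebraicOver G (F.image k) a) :
    IsAlgebraicOver G F (k⁻¹ a) := by
  have h2 := h.image (k⁻¹ : Equiv.Perm Ω)
  refine h2.subset ?_
  rintro b ⟨g, hg, hgF, rfl⟩
  refine ⟨k (g (k⁻¹ a)), ⟨k * g * k⁻¹, G.mul_mem (G.mul_mem hk hg) (G.inv_mem hk), ?_, rfl⟩, ?_⟩
  · intro x hx
    obtain ⟨y, hy, rfl⟩ := Finset.mem_image.1 hx
    show k (g (k⁻¹ (k y))) = k y
    simp [hgF y hy]
  · simp

/-- Finitely many algebraic points over a finite set, for oligomorphic groups. -/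
theorem finite_algebraic {G : Subgroup (Equiv.Perm Ω)} (hG : Oligomorphic G) (K : Finset Ω) :
    {z | IsAlgebraicOver G K z}.Finite := by
  classical
  obtain ⟨s, hs⟩ := hG (K.card + 1)
  let c : Fin K.card → Ω := fun i => (K.equivFin.symm i : Ω)
  have hc : ∀ x ∈ K, ∃ i, c i = x := fun x hx => ⟨K.equivFin ⟨x, hx⟩, by simp [c]⟩
  choose rep hrep g hg hrep' using fun z : Ω => hs (Fin.snoc (α := fun _ => Ω) c z)
  have hsame : ∀ z z', rep z = rep z' → ∃ h ∈ G, (∀ x ∈ K, h x = x) ∧ h z = z' := by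
    intro z z' hzz
    have key : ∀ i, (g z' * (g z)⁻¹) (Fin.snoc (α := fun _ => Ω) c z i) =
        Fin.snoc (α := fun _ => Ω) c z' i := by
      intro i
      show g z' ((g z)⁻¹ (Fin.snoc (α := fun _ => Ω) c z i)) = _
      rw [← hrep' z i, ← hrep' z' i, hzz]
      simp
    refine ⟨g z' * (g z)⁻¹, G.mul_mem (hg z') (G.inv_mem (hg z)), ?_, ?_⟩
    · intro x hx
      obtain ⟨i, rfl⟩ := hc x hx
      have := key i.castSucc
      simpa using this
    · have := key (Fin.last _)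
      simpa using this
  have hsub : {z | IsAlgebraicOver G K z} ⊆
      ⋃ b ∈ s, {z | IsAlgebraicOver G K z ∧ rep z = b} := by
    intro z hz
    simp only [mem_iUnion]
    exact ⟨rep z, hrep z, hz, rfl⟩
  refine (s.finite_toSet.biUnion fun b _ => ?_).subset hsub
  by_cases hne : ∃ z0, IsAlgebraicOver G K z0 ∧ rep z0 = b
  · obtain ⟨z0, hz0, hb0⟩ := hne
    refine Set.Finite.subset hz0 ?_
    rintro z ⟨-, hz⟩
    exact hsame z0 z (hb0.trans hz.symm)
  · refine (Set.finite_empty).subset ?_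
    rintro z ⟨hz, hb⟩
    exact hne ⟨z, hz, hb⟩

/-- the pointwise stabiliser of a finite set in `G` -/
def stab (G : Subgroup (Equiv.Perm Ω)) (K : Finset Ω) : Subgroup (Equiv.Perm Ω) where
  carrier := {g | g ∈ G ∧ ∀ x ∈ K, g x = x}
  one_mem' := ⟨G.one_mem, fun _ _ => rfl⟩
  mul_mem' := by
    rintro a b ⟨ha, ha'⟩ ⟨hb, hb'⟩
    refine ⟨G.mul_mem ha hb, fun x hx => ?_⟩
    show a (b x) = x
    rw [hb' x hx, ha' x hx]
  inv_mem' := by
    rintro a ⟨ha, ha'⟩
    refine ⟨G.inv_mem ha, fun x hx => ?_⟩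
    show a⁻¹ x = x
    rw [Equiv.Perm.inv_eq_iff_eq]
    exact (ha' x hx).symm

/-- Neumann's lemma: points with infinite orbits can be moved off a finite set. -/
theorem neumann (H : Subgroup (Equiv.Perm Ω)) (E Z : Finset Ω)
    (hE : ∀ e ∈ E, ¬ {b | ∃ h ∈ H, h e = b}.Finite) :
    ∃ h ∈ H, ∀ e ∈ E, h e ∉ Z := by
  classical
  by_contra hcon
  push Not at hcon
  let s : Finset (Ω × Ω) := (E ×ˢ Z).filter fun p => ∃ h : H, (h : Equiv.Perm Ω) p.1 = p.2
  let g : Ω × Ω → H := fun p => if hp : ∃ h : H, (h : Equiv.Perm Ω) p.1 = p.2 then hp.choose else 1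
  have hg : ∀ p ∈ s, ((g p : H) : Equiv.Perm Ω) p.1 = p.2 := by
    intro p hp
    have hp' := (Finset.mem_filter.1 hp).2
    simp only [g]
    rw [dif_pos hp']
    exact hp'.choose_spec
  have hcov : ⋃ p ∈ s, g p • ((MulAction.stabilizer H p.1 : Subgroup H) : Set H) = Set.univ := by
    rw [Set.eq_univ_iff_forall]
    intro h
    obtain ⟨e, he, hz⟩ := hcon h h.2
    simp only [mem_iUnion]
    have hmem : ((e, (h : Equiv.Perm Ω) e) : Ω × Ω) ∈ s :=
      Finset.mem_filter.2 ⟨Finset.mk_mem_product he hz, ⟨h, rfl⟩⟩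
    refine ⟨(e, (h : Equiv.Perm Ω) e), hmem, ?_⟩
    rw [mem_leftCoset_iff]
    show (g (e, (h : Equiv.Perm Ω) e))⁻¹ * h ∈ MulAction.stabilizer H e
    rw [MulAction.mem_stabilizer_iff, mul_smul, inv_smul_eq_iff]
    exact (hg _ hmem).symm
  obtain ⟨p, hp, hfin⟩ := Subgroup.exists_finiteIndex_of_leftCoset_cover hcov
  have hpE : p.1 ∈ E := (Finset.mem_product.1 (Finset.mem_filter.1 hp).1).1
  apply hE p.1 hpE
  have h1 : Finite (H ⧸ MulAction.stabilizer H p.1) := Subgroup.finite_quotient_of_finiteIndex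
  have h2 : Finite (MulAction.orbit H p.1) :=
    Finite.of_equiv _ (MulAction.orbitEquivQuotientStabilizer H p.1).symm
  have h3 : (MulAction.orbit H p.1).Finite := Set.toFinite _
  refine h3.subset ?_
  rintro b ⟨h, hh, rfl⟩
  exact ⟨⟨h, hh⟩, rfl⟩

theorem step [DecidableEq Ω] {G : Subgroup (Equiv.Perm Ω)} (hG : Oligomorphic G)
    {k : Equiv.Perm Ω} (hk : k ∈ G)
    {P E : Finset Ω} (h : ∀ e ∈ E, ¬ IsAlgebraicOver G (P.image k) e) (x : Ω) :
    ∃ k' ∈ G, (∀ y ∈ P, k' y = k y) ∧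
      ∀ e ∈ E, ¬ IsAlgebraicOver G ((insert x P).image k') e := by
  have hfin := finite_algebraic hG ((insert x P).image k)
  obtain ⟨u, hu, hu'⟩ := neumann (stab G (P.image k)) E hfin.toFinset (by
    intro e he hfin'
    apply h e he
    refine hfin'.subset ?_
    rintro b ⟨g, hg, hgF, rfl⟩
    exact ⟨g, ⟨hg, hgF⟩, rfl⟩)
  refine ⟨u⁻¹ * k, G.mul_mem (G.inv_mem hu.1) hk, ?_, ?_⟩
  · intro y hy
    show u⁻¹ (k y) = k y
    rw [Equiv.Perm.inv_eq_iff_eq]
    exact (hu.2 _ (Finset.mem_image_of_mem _ hy)).symm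
  · intro e he hal
    apply hu' e he
    rw [Set.Finite.mem_toFinset]
    have himg : (insert x P).image (u⁻¹ * k : Equiv.Perm Ω) =
        ((insert x P).image k).image (u⁻¹ : Equiv.Perm Ω) := by
      rw [Finset.image_image]
      rfl
    rw [himg] at hal
    have := isAlgebraicOver_image G (G.inv_mem hu.1) hal
    simpa using this

/-- Elements of the closure with prescribed values on a finite set, whose image omits given
points which are not algebraic over the prescribed values. -/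
theorem omitting [Countable Ω] [DecidableEq Ω] {G : Subgroup (Equiv.Perm Ω)}
    (hG : Oligomorphic G) {k : Equiv.Perm Ω} (hk : k ∈ G)
    {P E : Finset Ω} (h : ∀ e ∈ E, ¬ IsAlgebraicOver G (P.image k) e) :
    ∃ g : Closure G, (∀ y ∈ P, ev g y = k y) ∧ ∀ e ∈ E, e ∉ range (ev g) := by
  rcases isEmpty_or_nonempty Ω with hemp | hne
  · exact ⟨ofG k hk, fun y => (IsEmpty.false y).elim, fun e => (IsEmpty.false e).elim⟩
  obtain ⟨enum, henum⟩ := exists_surjective_nat Ω
  let St := {p : Equiv.Perm Ω × Finset Ω //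
    p.1 ∈ G ∧ ∀ e ∈ E, ¬ IsAlgebraicOver G (p.2.image p.1) e}
  have hstep : ∀ (n : ℕ) (p : St), ∃ q : St, q.1.2 = insert (enum n) p.1.2 ∧
      ∀ y ∈ p.1.2, q.1.1 y = p.1.1 y := by
    rintro n ⟨⟨k, P⟩, hk, hP⟩
    obtain ⟨k', hk', h1, h2⟩ := step hG hk hP (enum n)
    exact ⟨⟨(k', insert (enum n) P), hk', h2⟩, rfl, h1⟩
  choose next hnext1 hnext2 using hstep
  let s : ℕ → St := fun n => Nat.rec ⟨(k, P), hk, h⟩ (fun n p => next n p) n
  have hs2 : ∀ n, (s (n + 1)).1.2 = insert (enum n) (s n).1.2 := fun n => hnext1 n (s n)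
  have hs1 : ∀ n, ∀ y ∈ (s n).1.2, (s (n + 1)).1.1 y = (s n).1.1 y := fun n => hnext2 n (s n)
  have hmono : ∀ m n, m ≤ n → (s m).1.2 ⊆ (s n).1.2 := by
    intro m n hmn
    induction n, hmn using Nat.le_induction with
    | base => exact fun _ h => h
    | succ n _ ih =>
      intro y hy
      rw [hs2]
      exact Finset.mem_insert_of_mem (ih hy)
  have hagree : ∀ m n, m ≤ n → ∀ y ∈ (s m).1.2, (s n).1.1 y = (s m).1.1 y := by
    intro m n hmn
    induction n, hmn using Nat.le_induction with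
    | base => exact fun _ _ => rfl
    | succ n hmn' ih =>
      intro y hy
      rw [hs1 n y (hmono m n hmn' hy), ih y hy]
  choose idx hidx using henum
  have hin : ∀ x, x ∈ (s (idx x + 1)).1.2 := by
    intro x
    rw [hs2, hidx]
    exact Finset.mem_insert_self _ _
  let g : Ω → Ω := fun x => (s (idx x + 1)).1.1 x
  have hgs : ∀ n, ∀ x ∈ (s n).1.2, g x = (s n).1.1 x := by
    intro n x hx
    rcases le_total n (idx x + 1) with hle | hle
    · exact hagree _ _ hle x hx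
    · exact (hagree _ _ hle x (hin x)).symm
  refine ⟨⟨g, ?_⟩, ?_, ?_⟩
  · intro F
    let N := F.sup (fun x => idx x + 1)
    refine ⟨(s N).1.1, (s N).2.1, fun x hx => ?_⟩
    have hle : idx x + 1 ≤ N := Finset.le_sup (f := fun x => idx x + 1) hx
    exact (hgs N x (hmono _ _ hle (hin x))).symm
  · intro y hy
    exact hgs 0 y hy
  · rintro e he ⟨x, hx⟩
    have h1 := (s (idx x + 1)).2.2 e he
    apply h1
    apply isAlgebraicOver_of_mem
    exact Finset.mem_image.2 ⟨x, hin x, hx⟩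

/-- The image of an element of the closure is algebraically closed. -/
theorem range_aclosed (G : Subgroup (Equiv.Perm Ω)) (f : Closure G) {a : Ω}
    (ha : a ∈ Acl G (range (ev f))) : a ∈ range (ev f) := by
  classical
  obtain ⟨F', hF', hal⟩ := ha
  choose! pre hpre using hF'
  let F : Finset Ω := F'.image pre
  have himg : ∀ x ∈ F', ev f (pre x) = x := hpre
  obtain ⟨k, hk, hkF⟩ := ev_approx f F
  have hkF' : ∀ x ∈ F', k (pre x) = x := by
    intro x hx
    rw [hkF _ (Finset.mem_image_of_mem _ hx)]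
    exact himg x hx
  have hfin : {b | ∃ g ∈ G, (∀ x ∈ F', g x = x) ∧ g a = b}.Finite := hal
  let O : Finset Ω := hfin.toFinset
  obtain ⟨k', hk', hk'F⟩ := ev_approx f (F ∪ O.image (k⁻¹ : Equiv.Perm Ω))
  have haO : a ∈ O := by
    rw [Set.Finite.mem_toFinset]
    exact ⟨1, G.one_mem, fun _ _ => rfl, rfl⟩
  -- u = k k'⁻¹ fixes F' pointwise
  have hu : ∀ x ∈ F', k (k'⁻¹ x) = x := by
    intro x hx
    have h1 : k' (pre x) = x := by
      rw [hk'F _ (Finset.mem_union_left _ (Finset.mem_image_of_mem _ hx))]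
      exact himg x hx
    have h2 : k'⁻¹ x = pre x := by
      rw [Equiv.Perm.inv_eq_iff_eq]
      exact h1.symm
    rw [h2]
    exact hkF' x hx
  have hb : k (k'⁻¹ a) ∈ O := by
    rw [Set.Finite.mem_toFinset]
    exact ⟨k * k'⁻¹, G.mul_mem hk (G.inv_mem hk'), hu, rfl⟩
  have hmem : k'⁻¹ a ∈ O.image (k⁻¹ : Equiv.Perm Ω) :=
    Finset.mem_image.2 ⟨_, hb, by simp⟩
  refine ⟨k'⁻¹ a, ?_⟩
  rw [← hk'F _ (Finset.mem_union_right _ hmem)]
  simp

end PST
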