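import Mathlib
import Pool.Agent.Helper26.PST.Omit
import Pool.Agent.Helper26.PST.RankThm

open TopologicalSpace Set Filter Topology
open scoped ENNReal Pointwise

namespace PST

variable {Ω : Type*}

/-- Back and forth: an element of the closure whose image is maximal for a hereditary
condition with the extension property. -/
theorem exists_maximal_image [Countable Ω] [DecidableEq Ω] {G : Subgroup (Equiv.Perm Ω)}
    (Φ : Finset Ω → Prop) (h0 : Φ ∅) (hher : ∀ A B, A ⊆ B → Φ B → Φ A)
    (hext : ∀ C, Φ C → ∀ x, ∃ h ∈ G, (∀ y ∈ C, h y = y) ∧ Φ (insert (h x) C)) :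
    ∃ f : Closure G, (∀ C : Finset Ω, (∀ x ∈ C, x ∈ range (ev f)) → Φ C) ∧
      ∀ b, b ∉ range (ev f) → ∃ C : Finset Ω, (∀ x ∈ C, x ∈ range (ev f)) ∧
        ¬ Φ (insert b C) := by
  rcases isEmpty_or_nonempty Ω with hemp | hne
  · refine ⟨1, fun C _ => ?_, fun b => (IsEmpty.false b).elim⟩
    have : C = ∅ := Finset.eq_empty_of_isEmpty C
    rw [this]
    exact h0
  obtain ⟨enum, henum⟩ := exists_surjective_nat Ω
  let St := {p : Equiv.Perm Ω × Finset Ω // p.1 ∈ G ∧ Φ (p.2.image p.1)}
  have hstep : ∀ (n : ℕ) (p : St), ∃ q : St, insert (enum n) p.1.2 ⊆ q.1.2 ∧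
      (∀ y ∈ p.1.2, q.1.1 y = p.1.1 y) ∧
      (enum n ∈ q.1.2.image q.1.1 ∨ ¬ Φ (insert (enum n) (q.1.2.image q.1.1))) := by
    rintro n ⟨⟨k, P⟩, hk, hP⟩
    obtain ⟨h, hh, hfix, hΦ⟩ := hext (P.image k) hP (k (enum n))
    have himg : (insert (enum n) P).image (h * k : Equiv.Perm Ω) =
        insert (h (k (enum n))) (P.image k) := by
      rw [Finset.image_insert]
      congr 1
      apply Finset.image_congr
      intro y hy
      exact hfix _ (Finset.mem_image_of_mem _ hy)
    have hk' : h * k ∈ G := G.mul_mem hh hk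
    have hagr : ∀ y ∈ P, (h * k : Equiv.Perm Ω) y = k y := fun y hy =>
      hfix _ (Finset.mem_image_of_mem _ hy)
    by_cases hb : Φ (insert (enum n) ((insert (enum n) P).image (h * k : Equiv.Perm Ω)))
    · have himg2 : (insert ((h * k : Equiv.Perm Ω)⁻¹ (enum n)) (insert (enum n) P)).image
          (h * k : Equiv.Perm Ω) =
          insert (enum n) ((insert (enum n) P).image (h * k : Equiv.Perm Ω)) := by
        rw [Finset.image_insert]
        congr 1
        simp
      refine ⟨⟨(h * k, insert ((h * k : Equiv.Perm Ω)⁻¹ (enum n)) (insert (enum n) P)), hk',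
        ?_⟩, ?_, hagr, Or.inl ?_⟩
      · show Φ _
        rw [himg2]
        exact hb
      · exact Finset.subset_insert _ _
      · show enum n ∈ Finset.image _ _
        rw [himg2]
        exact Finset.mem_insert_self _ _
    · refine ⟨⟨(h * k, insert (enum n) P), hk', ?_⟩, subset_rfl, hagr, Or.inr hb⟩
      show Φ _
      rw [himg]
      exact hΦ
  choose next hnext1 hnext2 hnext3 using hstep
  let s : ℕ → St := fun n => Nat.rec ⟨(1, ∅), G.one_mem, by simpa using h0⟩
    (fun n p => next n p) n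
  have hs2 : ∀ n, insert (enum n) (s n).1.2 ⊆ (s (n + 1)).1.2 := fun n => hnext1 n (s n)
  have hs1 : ∀ n, ∀ y ∈ (s n).1.2, (s (n + 1)).1.1 y = (s n).1.1 y := fun n => hnext2 n (s n)
  have hs3 : ∀ n, (enum n ∈ (s (n + 1)).1.2.image (s (n + 1)).1.1 ∨
      ¬ Φ (insert (enum n) ((s (n + 1)).1.2.image (s (n + 1)).1.1))) := fun n => hnext3 n (s n)
  have hmono : ∀ m n, m ≤ n → (s m).1.2 ⊆ (s n).1.2 := by
    intro m n hmn
    induction n, hmn using Nat.le_induction with
    | base => exact fun _ h => h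
    | succ n _ ih =>
      intro y hy
      exact hs2 n (Finset.mem_insert_of_mem (ih hy))
  have hagree : ∀ m n, m ≤ n → ∀ y ∈ (s m).1.2, (s n).1.1 y = (s m).1.1 y := by
    intro m n hmn
    induction n, hmn using Nat.le_induction with
    | base => exact fun _ _ => rfl
    | succ n hmn' ih =>
      intro y hy
      rw [hs1 n y (hmono m n hmn' hy), ih y hy]
  choose idx hidx using henum
  have hin : ∀ x, x ∈ (s (idx x + 1)).1.2 := by
    intro x
    have := hs2 (idx x) (Finset.mem_insert_self _ _)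
    rwa [hidx] at this
  let g : Ω → Ω := fun x => (s (idx x + 1)).1.1 x
  have hgs : ∀ n, ∀ x ∈ (s n).1.2, g x = (s n).1.1 x := by
    intro n x hx
    rcases le_total n (idx x + 1) with hle | hle
    · exact hagree _ _ hle x hx
    · exact (hagree _ _ hle x (hin x)).symm
  have himgs : ∀ n, ∀ z ∈ (s n).1.2.image (s n).1.1, z ∈ range g := by
    intro n z hz
    obtain ⟨x, hx, rfl⟩ := Finset.mem_image.1 hz
    exact ⟨x, hgs n x hx⟩
  refine ⟨⟨g, ?_⟩, ?_, ?_⟩
  · intro F
    let N := F.sup (fun x => idx x + 1)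
    refine ⟨(s N).1.1, (s N).2.1, fun x hx => ?_⟩
    have hle : idx x + 1 ≤ N := Finset.le_sup (f := fun x => idx x + 1) hx
    exact (hgs N x (hmono _ _ hle (hin x))).symm
  · intro C hC
    have hC' : ∀ x ∈ C, ∃ y, g y = x := hC
    choose! pre hpre using hC'
    let N := C.sup (fun x => idx (pre x) + 1)
    refine hher _ _ ?_ (s N).2.2
    intro x hx
    have hle : idx (pre x) + 1 ≤ N := Finset.le_sup (f := fun x => idx (pre x) + 1) hx
    have hmem : pre x ∈ (s N).1.2 := hmono _ _ hle (hin (pre x))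
    refine Finset.mem_image.2 ⟨pre x, hmem, ?_⟩
    rw [← hgs N _ hmem]
    exact hpre x hx
  · intro b hb
    have hb' : b ∉ range g := hb
    refine ⟨(s (idx b + 1)).1.2.image (s (idx b + 1)).1.1, fun z hz => himgs (idx b + 1) z hz, ?_⟩
    have h3 := hs3 (idx b)
    rw [hidx] at h3
    rcases h3 with h3 | h3
    · exact absurd (himgs (idx b + 1) b h3) hb'
    · exact h3

theorem isAlgebraicOver_mono (G : Subgroup (Equiv.Perm Ω)) {F F' : Finset Ω} (h : F ⊆ F')
    {a : Ω} (ha : IsAlgebraicOver G F a) : IsAlgebraicOver G F' a := by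
  refine Set.Finite.subset ha ?_
  rintro b ⟨g, hg, hgF, rfl⟩
  exact ⟨g, hg, fun x hx => hgF x (h hx), rfl⟩

/-- the action of the closure on the points -/
def selfSort (G : Subgroup (Equiv.Perm Ω)) : GSort G Ω where
  act f x := ev f x
  act_mul f g x := ev_mul f g x
  act_one x := ev_one x
  inj f := ev_injective f
  cont f x := by
    filter_upwards [t0_agree G f {x}] with g hg
    exact hg x (Finset.mem_singleton_self x)

/-- Algebraicity is transitive: what is algebraic over finitely many points algebraic over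
`C` is algebraic over `C`. -/
theorem isAlgebraicOver_trans [DecidableEq Ω] {G : Subgroup (Equiv.Perm Ω)} {C E : Finset Ω}
    (hE : ∀ e ∈ E, IsAlgebraicOver G C e) {x : Ω} (hx : IsAlgebraicOver G (C ∪ E) x) :
    IsAlgebraicOver G C x := by
  classical
  -- the finite set of possible restrictions to `E`
  let O : Ω → Set Ω := fun e => {b | ∃ g ∈ G, (∀ y ∈ C, g y = y) ∧ g e = b}
  have hO : ∀ e : {e // e ∈ E}, (O e.1).Finite := fun e => hE e.1 e.2
  have hpi : (Set.pi univ fun e : {e // e ∈ E} => O e.1).Finite := Set.Finite.pi' hO |>.subset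
    (fun φ hφ e => hφ e (mem_univ _))
  let H : Set (Equiv.Perm Ω) := {g | g ∈ G ∧ ∀ y ∈ C, g y = y}
  let res : Equiv.Perm Ω → ({e // e ∈ E} → Ω) := fun g e => g e.1
  have hresfin : (res '' H).Finite := by
    refine hpi.subset ?_
    rintro _ ⟨g, hg, rfl⟩ e _
    exact ⟨g, hg.1, hg.2, rfl⟩
  have hch : ∀ φ ∈ res '' H, ∃ g ∈ H, res g = φ := fun φ hφ => hφ
  choose! rep hrep1 hrep2 using hch
  have hsub : {b | ∃ g ∈ G, (∀ y ∈ C, g y = y) ∧ g x = b} ⊆
      ⋃ φ ∈ res '' H, (fun z => rep φ z) '' {b | ∃ g ∈ G, (∀ y ∈ C ∪ E, g y = y) ∧ g x = b} := by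
    rintro b ⟨g, hg, hgC, rfl⟩
    have hgH : g ∈ H := ⟨hg, hgC⟩
    have hmem : res g ∈ res '' H := ⟨g, hgH, rfl⟩
    rw [mem_iUnion₂]
    refine ⟨res g, hmem, ((rep (res g))⁻¹ * g) x, ⟨(rep (res g))⁻¹ * g,
      G.mul_mem (G.inv_mem (hrep1 _ hmem).1) hg, ?_, rfl⟩, ?_⟩
    · intro y hy
      show (rep (res g))⁻¹ (g y) = y
      rw [Equiv.Perm.inv_eq_iff_eq]
      rcases Finset.mem_union.1 hy with hy | hy
      · rw [hgC y hy, (hrep1 _ hmem).2 y hy]
      · have := congrFun (hrep2 _ hmem) ⟨y, hy⟩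
        exact this.symm
    · show rep (res g) ((rep (res g))⁻¹ (g x)) = g x
      simp
  refine Set.Finite.subset ?_ hsub
  exact hresfin.biUnion fun φ _ => Set.Finite.image _ hx

/-- A finite set is algebraically closed. -/
def AlgClosed (G : Subgroup (Equiv.Perm Ω)) (C : Finset Ω) : Prop :=
  ∀ x, IsAlgebraicOver G C x → x ∈ C

/-- the algebraic closure of a finite set, for oligomorphic groups -/
theorem exists_algClosure [DecidableEq Ω] {G : Subgroup (Equiv.Perm Ω)} (hG : Oligomorphic G)
    (C : Finset Ω) : ∃ E : Finset Ω, C ⊆ E ∧ AlgClosed G E ∧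
      ∀ x, x ∈ E ↔ IsAlgebraicOver G C x := by
  have hfin := finite_algebraic hG C
  have hCE : C ⊆ hfin.toFinset := by
    intro x hx
    rw [Set.Finite.mem_toFinset]
    exact isAlgebraicOver_of_mem G hx
  refine ⟨hfin.toFinset, hCE, ?_, ?_⟩
  · intro x hx
    rw [Set.Finite.mem_toFinset]
    apply isAlgebraicOver_trans (E := hfin.toFinset)
    · intro e he
      rw [Set.Finite.mem_toFinset] at he
      exact he
    · rw [Finset.union_eq_right.2 hCE]
      exact hx
  · intro x
    rw [Set.Finite.mem_toFinset]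
    rfl

/-- If the points bringing the finite set `A` into the algebraic closure have bounded rank,
while `A` has positive rank, there are infinitely many Polish semigroup topologies. -/
theorem infinite_of_rank [Countable Ω] [DecidableEq Ω] {G : Subgroup (Equiv.Perm Ω)}
    (hG : Oligomorphic G) (r : Finset Ω → ℕ) (hmono : ∀ A B, A ⊆ B → r A ≤ r B)
    (hsub : ∀ A B, r (A ∪ B) + r (A ∩ B) ≤ r A + r B)
    (hinv : ∀ g ∈ G, ∀ A, r (A.image g) = r A) (D A : Finset Ω) (K : ℕ)
    (hD : AlgClosed G D) (hDA : Disjoint D A)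
    (hpos : ∀ C : Finset Ω, D ⊆ C → AlgClosed G C → Disjoint C A → r C < r (C ∪ A))
    (hbd : ∀ C B : Finset Ω, D ⊆ C → AlgClosed G C → Disjoint C A →
      (∀ b ∈ B, ∃ a ∈ A, IsAlgebraicOver G (insert b C) a) → r (C ∪ B) ≤ r C + K) :
    (PolishSemigroupTopologies G).Infinite := by
  let Φ : Finset Ω → Prop := fun C => ∀ a ∈ A, ¬ IsAlgebraicOver G (D ∪ C) a
  obtain ⟨f, hf1, hf2⟩ := exists_maximal_image (G := G) Φ (by
      intro a ha hal
      rw [Finset.union_empty] at hal
      exact Finset.disjoint_left.1 hDA (hD a hal) ha)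
    (fun B C hBC hC a ha hal => hC a ha
      (isAlgebraicOver_mono G (Finset.union_subset_union_right hBC) hal)) (by
    intro C hC x
    have hfin := finite_algebraic hG (insert x (D ∪ C))
    obtain ⟨u, hu, hu'⟩ := neumann (stab G (D ∪ C)) A hfin.toFinset (by
      intro e he hfin'
      apply hC e he
      refine hfin'.subset ?_
      rintro b ⟨g, hg, hgF, rfl⟩
      exact ⟨g, ⟨hg, hgF⟩, rfl⟩)
    have hfix : ∀ y ∈ D ∪ C, u⁻¹ y = y := by
      intro y hy
      rw [Equiv.Perm.inv_eq_iff_eq]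
      exact (hu.2 y hy).symm
    refine ⟨u⁻¹, G.inv_mem hu.1, fun y hy => hfix y (Finset.mem_union_right _ hy), ?_⟩
    intro a ha hal
    apply hu' a ha
    rw [Set.Finite.mem_toFinset]
    have himg : D ∪ insert (u⁻¹ x) C = (insert x (D ∪ C)).image (u⁻¹ : Equiv.Perm Ω) := by
      rw [Finset.image_insert, Finset.union_insert]
      congr 1
      symm
      rw [Finset.image_congr (g := id) (fun y hy => hfix y hy), Finset.image_id]
    rw [himg] at hal
    have := isAlgebraicOver_image G (G.inv_mem hu.1) hal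
    simpa using this)
  -- points of `D` are in the image
  have hDr : ∀ x ∈ D, x ∈ range (ev f) := by
    intro x hx
    by_contra hcon
    obtain ⟨C, hC, hC'⟩ := hf2 x hcon
    apply hC'
    have := hf1 C hC
    intro a ha hal
    apply this a ha
    have heq : D ∪ insert x C = D ∪ C := by
      rw [Finset.union_insert, Finset.insert_eq_of_mem (Finset.mem_union_left _ hx)]
    rwa [heq] at hal
  -- finite subsets of the image lie in closed finite subsets of the image
  have hcl : ∀ C : Finset Ω, (∀ x ∈ C, x ∈ range (ev f)) → ∃ E : Finset Ω, C ⊆ E ∧ D ⊆ E ∧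
      AlgClosed G E ∧ Disjoint E A ∧ ∀ x ∈ E, x ∈ range (ev f) := by
    intro C hC
    obtain ⟨E, hE1, hE2, hE3⟩ := exists_algClosure hG (D ∪ C)
    refine ⟨E, Finset.subset_union_right.trans hE1, Finset.subset_union_left.trans hE1, hE2,
      ?_, ?_⟩
    · rw [Finset.disjoint_left]
      intro a haE ha
      exact hf1 C hC a ha ((hE3 a).1 haE)
    · intro x hx
      apply range_aclosed G f
      refine ⟨D ∪ C, ?_, (hE3 x).1 hx⟩
      intro y hy
      rcases Finset.mem_union.1 hy with hy | hy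
      · exact hDr y hy
      · exact hC y hy
  let r' : Finset Ω → ℝ := fun B => (r B : ℝ)
  have hr : IsRank r' :=
    { mono := fun B C h => Nat.cast_le.2 (hmono B C h)
      submod := fun B C => by
        have := hsub B C
        show ((r (B ∪ C) : ℕ) : ℝ) + ((r (B ∩ C) : ℕ) : ℝ) ≤ (r B : ℝ) + (r C : ℝ)
        exact_mod_cast this }
  have hrinv : RankInv (selfSort G) r' := by
    intro g B
    obtain ⟨k, hk, hk'⟩ := ev_approx g B
    have : B.image ((selfSort G).act g) = B.image k := by
      apply Finset.image_congr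
      intro x hx
      exact (hk' x hx).symm
    show ((r (B.image ((selfSort G).act g)) : ℕ) : ℝ) = (r B : ℝ)
    rw [this, hinv k hk]
  have hrange : range ((selfSort G).act f) = range (ev f) := rfl
  -- lower bound
  have hlow : 1 ≤ rk (selfSort G) r' A f := by
    unfold rk cr
    haveI : Nonempty {C : Finset Ω // ∀ t ∈ C, t ∈ range ((selfSort G).act f)} :=
      ⟨⟨∅, by simp⟩⟩
    refine le_ciInf ?_
    rintro ⟨C, hC⟩
    rw [hrange] at hC
    obtain ⟨E, hCE, hDE, hEcl, hEA, -⟩ := hcl C hC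
    have h1 := diff_anti hr A hCE
    have h2 : r E < r (E ∪ A) := hpos E hDE hEcl hEA
    have h3 : r' E + 1 ≤ r' (A ∪ E) := by
      rw [Finset.union_comm A]
      show ((r E : ℕ) : ℝ) + 1 ≤ ((r (E ∪ A) : ℕ) : ℝ)
      exact_mod_cast h2
    show 1 ≤ r' (A ∪ C) - r' C
    linarith
  -- upper bound
  have hup : ∀ B : Finset Ω, rk (selfSort G) r' B f ≤ K := by
    intro B
    have hB : ∀ b ∈ B, b ∉ range (ev f) → ∃ C : Finset Ω, (∀ x ∈ C, x ∈ range (ev f)) ∧
        ∃ a ∈ A, IsAlgebraicOver G (insert b (D ∪ C)) a := by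
      intro b _ hb
      obtain ⟨C, hC, hC'⟩ := hf2 b hb
      refine ⟨C, hC, ?_⟩
      by_contra hcon
      push Not at hcon
      apply hC'
      intro a ha
      rw [Finset.union_insert]
      exact hcon a ha
    choose! Cb hCb hCb2 using hB
    haveI hdec : DecidablePred fun b => b ∈ range (ev f) := Classical.decPred _
    let Bo : Finset Ω := B.filter fun b => b ∈ range (ev f)
    let Bn : Finset Ω := B.filter fun b => b ∉ range (ev f)
    have hBn : ∀ b ∈ Bn, b ∈ B ∧ b ∉ range (ev f) := fun b hb => Finset.mem_filter.1 hb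
    obtain ⟨E, hCE, hDE, hEcl, hEA, hEr⟩ := hcl (Bo ∪ Bn.biUnion Cb) (by
      intro x hx
      rcases Finset.mem_union.1 hx with hx | hx
      · exact (Finset.mem_filter.1 hx).2
      · obtain ⟨b, hb, hx'⟩ := Finset.mem_biUnion.1 hx
        exact hCb b (hBn b hb).1 (hBn b hb).2 x hx')
    have h1 := hbd E Bn hDE hEcl hEA (by
      intro b hb
      obtain ⟨a, ha, hal⟩ := hCb2 b (hBn b hb).1 (hBn b hb).2
      refine ⟨a, ha, isAlgebraicOver_mono G ?_ hal⟩
      refine Finset.insert_subset_insert _ (Finset.union_subset hDE ?_)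
      exact (Finset.subset_biUnion_of_mem Cb hb).trans (Finset.subset_union_right.trans hCE))
    have h2 : B ∪ E = E ∪ Bn := by
      ext x
      simp only [Finset.mem_union]
      constructor
      · rintro (hx | hx)
        · by_cases hxr : x ∈ range (ev f)
          · exact Or.inl (hCE (Finset.mem_union_left _ (Finset.mem_filter.2 ⟨hx, hxr⟩)))
          · exact Or.inr (Finset.mem_filter.2 ⟨hx, hxr⟩)
        · exact Or.inl hx
      · rintro (hx | hx)
        · exact Or.inr hx
        · exact Or.inl (hBn x hx).1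
    have h3 : rk (selfSort G) r' B f ≤ r' (B ∪ E) - r' E := cr_le hr B hEr
    rw [h2] at h3
    have h4 : r' (E ∪ Bn) ≤ r' E + K := by
      show ((r (E ∪ Bn) : ℕ) : ℝ) ≤ ((r E : ℕ) : ℝ) + ((K : ℕ) : ℝ)
      exact_mod_cast h1
    linarith
  have hne0 : delta (selfSort G) r' f ≠ 0 := by
    have h1 : (1 : ℝ≥0∞) ≤ delta (selfSort G) r' f := by
      refine le_trans ?_ (le_iSup (fun B => rho (selfSort G) r' B f) A)
      show 1 ≤ ENNReal.ofReal _
      rw [ENNReal.one_le_ofReal]
      exact hlow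
    intro h
    rw [h] at h1
    exact absurd h1 (by simp)
  have hnetop : delta (selfSort G) r' f ≠ ⊤ := by
    have h1 : delta (selfSort G) r' f ≤ ENNReal.ofReal K :=
      iSup_le fun B => ENNReal.ofReal_le_ofReal (hup B)
    exact ne_top_of_le_ne_top ENNReal.ofReal_ne_top h1
  intro hfin
  rcases delta_zero_or_top (selfSort G) hr hrinv hfin f with h | h
  · exact hne0 h
  · exact hnetop h

end PST
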