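import Mathlib
import Pool.Agent.Helper26.PST.RankThm

open TopologicalSpace Set Filter Topology
open scoped ENNReal

namespace PST

variable {Ω P T : Type*} [DecidableEq T] {G : Subgroup (Equiv.Perm Ω)} (𝒬 : GSort G P)
  (𝒯 : GSort G T) {r : P → Finset T → ℝ}

/-- invariance of a family of ranks -/
def LInv (r : P → Finset T → ℝ) : Prop :=
  ∀ (f : Closure G) (p : P) (B : Finset T), r (𝒬.act f p) (B.image (𝒯.act f)) = r p B

/-- the rank at the image of `p` of `B` over the image of `f` -/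
noncomputable def lrk (r : P → Finset T → ℝ) (p : P) (B : Finset T) (f : Closure G) : ℝ :=
  cr (r (𝒬.act f p)) B (range (𝒯.act f))

theorem lcr_image (hinv : LInv 𝒬 𝒯 r) (f : Closure G) (p : P) (B : Finset T) (X : Set T) :
    cr (r (𝒬.act f p)) (B.image (𝒯.act f)) (𝒯.act f '' X) = cr (r p) B X := by
  unfold cr
  have key : ∀ A : Finset T, r (𝒬.act f p) (B.image (𝒯.act f) ∪ A.image (𝒯.act f)) -
      r (𝒬.act f p) (A.image (𝒯.act f)) = r p (B ∪ A) - r p A := by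
    intro A
    rw [← Finset.image_union, hinv, hinv]
  let e : {A : Finset T // ∀ t ∈ A, t ∈ X} ≃
      {A : Finset T // ∀ t ∈ A, t ∈ 𝒯.act f '' X} :=
    { toFun := fun A => ⟨A.1.image (𝒯.act f), by
        intro t ht
        obtain ⟨s, hs, rfl⟩ := Finset.mem_image.1 ht
        exact ⟨s, A.2 s hs, rfl⟩⟩
      invFun := fun A => ⟨A.1.preimage (𝒯.act f) ((𝒯.inj f).injOn), by
        intro t ht
        rw [Finset.mem_preimage] at ht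
        obtain ⟨s, hs, hst⟩ := A.2 _ ht
        rw [← 𝒯.inj f hst]
        exact hs⟩
      left_inv := by
        rintro ⟨A, hA⟩
        apply Subtype.ext
        ext t
        simp only [Finset.mem_preimage, Finset.mem_image]
        constructor
        · rintro ⟨s, hs, hst⟩
          rw [← 𝒯.inj f hst]
          exact hs
        · intro ht
          exact ⟨t, ht, rfl⟩
      right_inv := by
        rintro ⟨A, hA⟩
        apply Subtype.ext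
        ext t
        simp only [Finset.mem_preimage, Finset.mem_image]
        constructor
        · rintro ⟨s, hs, rfl⟩
          exact hs
        · intro ht
          obtain ⟨s, -, rfl⟩ := hA t ht
          exact ⟨s, ht, rfl⟩ }
  rw [← e.iInf_comp]
  refine iInf_congr fun A => ?_
  exact key A.1

theorem lrk_mul_image (hinv : LInv 𝒬 𝒯 r) (f g : Closure G) (p : P) (D : Finset T) :
    lrk 𝒬 𝒯 r p (D.image (𝒯.act f)) (f * g) = lrk 𝒬 𝒯 r p D g := by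
  unfold lrk
  rw [range_mul, 𝒬.act_mul, lcr_image 𝒬 𝒯 hinv]

theorem lrk_mul_ge (hr : ∀ p, IsRank (r p)) (hinv : LInv 𝒬 𝒯 r) (f g : Closure G) (p : P)
    (B D : Finset T) :
    lrk 𝒬 𝒯 r (𝒬.act g p) B f + lrk 𝒬 𝒯 r p D g ≤ lrk 𝒬 𝒯 r p B (f * g) +
      cr2 (r (𝒬.act (f * g) p)) (D.image (𝒯.act f)) B (range (𝒯.act (f * g))) := by
  have h1 := cr_union (hr (𝒬.act (f * g) p)) B (D.image (𝒯.act f)) (range (𝒯.act (f * g)))
  have h2 := cr_union (hr (𝒬.act (f * g) p)) (D.image (𝒯.act f)) B (range (𝒯.act (f * g)))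
  rw [Finset.union_comm (D.image (𝒯.act f)) B] at h2
  have h3 := cr_le_cr2 (hr (𝒬.act (f * g) p)) B (D.image (𝒯.act f))
    (range_mul_subset 𝒯 f g) (by
    intro t ht
    obtain ⟨s, _, rfl⟩ := Finset.mem_image.1 ht
    exact ⟨s, rfl⟩)
  have h4 := lrk_mul_image 𝒬 𝒯 hinv f g p D
  unfold lrk at *
  rw [← 𝒬.act_mul]
  linarith

theorem lrk_union_mul_ge (hr : ∀ p, IsRank (r p)) (hinv : LInv 𝒬 𝒯 r) (f g : Closure G) (p : P)
    (B D : Finset T) :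
    lrk 𝒬 𝒯 r (𝒬.act g p) B f + lrk 𝒬 𝒯 r p D g ≤
      lrk 𝒬 𝒯 r p (B ∪ D.image (𝒯.act f)) (f * g) := by
  have h1 := cr_union (hr (𝒬.act (f * g) p)) B (D.image (𝒯.act f)) (range (𝒯.act (f * g)))
  have h3 := cr_le_cr2 (hr (𝒬.act (f * g) p)) B (D.image (𝒯.act f))
    (range_mul_subset 𝒯 f g) (by
    intro t ht
    obtain ⟨s, _, rfl⟩ := Finset.mem_image.1 ht
    exact ⟨s, rfl⟩)
  have h4 := lrk_mul_image 𝒬 𝒯 hinv f g p D
  unfold lrk at *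
  rw [← 𝒬.act_mul]
  linarith

theorem lrk_mul_le' (hr : ∀ p, IsRank (r p)) (hinv : LInv 𝒬 𝒯 r) (f g : Closure G) (p : P)
    (B D : Finset T) :
    lrk 𝒬 𝒯 r p B (f * g) +
      cr2 (r (𝒬.act (f * g) p)) (D.image (𝒯.act f)) B (range (𝒯.act (f * g))) ≤
      (r (𝒬.act (f * g) p) (B ∪ D.image (𝒯.act f)) -
        r (𝒬.act (f * g) p) (D.image (𝒯.act f))) + lrk 𝒬 𝒯 r p D g := by
  have h1 := cr_union (hr (𝒬.act (f * g) p)) B (D.image (𝒯.act f)) (range (𝒯.act (f * g)))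
  have h2 := cr_union (hr (𝒬.act (f * g) p)) (D.image (𝒯.act f)) B (range (𝒯.act (f * g)))
  rw [Finset.union_comm (D.image (𝒯.act f)) B] at h2
  have h3 := cr2_le (hr (𝒬.act (f * g) p)) B (D.image (𝒯.act f))
    (X := range (𝒯.act (f * g))) (A := ∅) (by simp)
  rw [Finset.union_empty, Finset.union_empty] at h3
  have h4 := lrk_mul_image 𝒬 𝒯 hinv f g p D
  unfold lrk at *
  linarith

theorem lrk_usc (hr : ∀ p, IsRank (r p)) (p : P) (B : Finset T) (f : Closure G) {c : ℝ}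
    (h : lrk 𝒬 𝒯 r p B f < c) : ∀ᶠ g in @nhds _ (t0 G) f, lrk 𝒬 𝒯 r p B g < c := by
  obtain ⟨C, hC, hC'⟩ := exists_lt (hr (𝒬.act f p)) B (range (𝒯.act f)) (sub_pos.2 h)
  choose! pre hpre using hC
  filter_upwards [act_agree 𝒯 f (C.image pre), 𝒬.cont f p] with g hg hgp
  have h1 : ∀ t ∈ C, t ∈ range (𝒯.act g) := by
    intro t ht
    refine ⟨pre t, ?_⟩
    rw [hg _ (Finset.mem_image_of_mem _ ht)]
    exact hpre t ht
  have h2 := cr_le (hr (𝒬.act f p)) B h1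
  unfold lrk at *
  rw [hgp]
  linarith

theorem lrk_nonneg (hr : ∀ p, IsRank (r p)) (p : P) (B : Finset T) (f : Closure G) :
    0 ≤ lrk 𝒬 𝒯 r p B f :=
  cr_nonneg (hr _) B _

theorem lrk_one (hr : ∀ p, IsRank (r p)) (p : P) (B : Finset T) : lrk 𝒬 𝒯 r p B 1 = 0 := by
  unfold lrk
  rw [range_one]
  exact cr_univ (hr _) B

/-- the local rank as an extended nonnegative real number -/
noncomputable def lrho (r : P → Finset T → ℝ) (i : P × Finset T) (f : Closure G) : ℝ≥0∞ :=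
  ENNReal.ofReal (lrk 𝒬 𝒯 r i.1 i.2 f)

theorem lrho_usc (hr : ∀ p, IsRank (r p)) (i : P × Finset T) :
    @UpperSemicontinuous _ ℝ≥0∞ (t0 G) _ (lrho 𝒬 𝒯 r i) := by
  letI := t0 G
  intro f c hc
  by_cases hc' : c = ⊤
  · subst hc'
    exact Eventually.of_forall fun g => ENNReal.ofReal_lt_top
  · have h1 := (ENNReal.ofReal_lt_iff_lt_toReal (lrk_nonneg 𝒬 𝒯 hr i.1 i.2 f) hc').1 hc
    filter_upwards [lrk_usc 𝒬 𝒯 hr i.1 i.2 f h1] with g hg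
    exact (ENNReal.ofReal_lt_iff_lt_toReal (lrk_nonneg 𝒬 𝒯 hr i.1 i.2 g) hc').2 hg

/-- The topology generated by pointwise convergence and the local ranks over the image. -/
noncomputable def ltau (r : P → Finset T → ℝ) : TopologicalSpace (Closure G) :=
  t0 G ⊓ ⨅ i : P × Finset T, TopologicalSpace.induced (lrho 𝒬 𝒯 r i) inferInstance

theorem polish_ltau [Countable Ω] [Countable T] [Countable P] (hr : ∀ p, IsRank (r p)) :
    @PolishSpace (Closure G) (ltau 𝒬 𝒯 r) :=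
  polish_refine (t0 G) (polish_t0 G) _ fun i => Or.inr (lrho_usc 𝒬 𝒯 hr i)

theorem nhds_ltau (f : Closure G) :
    @nhds _ (ltau 𝒬 𝒯 r) f = @nhds _ (t0 G) f ⊓
      ⨅ i : P × Finset T, comap (lrho 𝒬 𝒯 r i) (𝓝 (lrho 𝒬 𝒯 r i f)) := by
  unfold ltau
  rw [@nhds_inf, @nhds_iInf]
  simp only [@nhds_induced]

theorem ltau_le (f : Closure G) : @nhds _ (ltau 𝒬 𝒯 r) f ≤ @nhds _ (t0 G) f := by
  rw [nhds_ltau]
  exact inf_le_left

theorem ltau_rho (f : Closure G) (i : P × Finset T) :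
    Tendsto (lrho 𝒬 𝒯 r i) (@nhds _ (ltau 𝒬 𝒯 r) f) (𝓝 (lrho 𝒬 𝒯 r i f)) := by
  rw [tendsto_iff_comap, nhds_ltau]
  exact inf_le_right.trans (iInf_le _ i)

theorem lrho_toReal (hr : ∀ p, IsRank (r p)) (p : P) (B : Finset T) (f : Closure G) :
    (lrho 𝒬 𝒯 r (p, B) f).toReal = lrk 𝒬 𝒯 r p B f :=
  ENNReal.toReal_ofReal (lrk_nonneg 𝒬 𝒯 hr p B f)

theorem ltau_rk (hr : ∀ p, IsRank (r p)) (f : Closure G) (p : P) (B : Finset T) :
    Tendsto (lrk 𝒬 𝒯 r p B) (@nhds _ (ltau 𝒬 𝒯 r) f) (𝓝 (lrk 𝒬 𝒯 r p B f)) := by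
  have h1 := (ENNReal.tendsto_toReal (a := lrho 𝒬 𝒯 r (p, B) f) ENNReal.ofReal_ne_top).comp
    (ltau_rho 𝒬 𝒯 f (p, B))
  rw [lrho_toReal 𝒬 𝒯 hr] at h1
  refine h1.congr fun g => ?_
  exact lrho_toReal 𝒬 𝒯 hr p B g

theorem ltau_mul (hr : ∀ p, IsRank (r p)) (hinv : LInv 𝒬 𝒯 r) (f g : Closure G) :
    Tendsto (fun p : Closure G × Closure G => p.1 * p.2)
      (@nhds _ (ltau 𝒬 𝒯 r) f ×ˢ @nhds _ (ltau 𝒬 𝒯 r) g) (@nhds _ (ltau 𝒬 𝒯 r) (f * g)) := by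
  have h0 : Tendsto (fun p : Closure G × Closure G => p.1 * p.2)
      (@nhds _ (ltau 𝒬 𝒯 r) f ×ˢ @nhds _ (ltau 𝒬 𝒯 r) g) (@nhds _ (t0 G) (f * g)) :=
    (t0_tendsto_mul G f g).mono_left (Filter.prod_mono (ltau_le 𝒬 𝒯 f) (ltau_le 𝒬 𝒯 g))
  rw [nhds_ltau 𝒬 𝒯 (f * g), tendsto_inf, tendsto_iInf]
  refine ⟨h0, fun i => ?_⟩
  obtain ⟨q, B⟩ := i
  rw [tendsto_comap_iff]
  suffices h : Tendsto (fun p : Closure G × Closure G => lrk 𝒬 𝒯 r q B (p.1 * p.2))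
      (@nhds _ (ltau 𝒬 𝒯 r) f ×ˢ @nhds _ (ltau 𝒬 𝒯 r) g) (𝓝 (lrk 𝒬 𝒯 r q B (f * g))) from
    (ENNReal.continuous_ofReal.tendsto _).comp h
  rw [tendsto_order]
  constructor
  · intro c hc
    have hε : 0 < (lrk 𝒬 𝒯 r q B (f * g) - c) / 4 := by linarith
    generalize hεd : (lrk 𝒬 𝒯 r q B (f * g) - c) / 4 = ε at hε
    obtain ⟨C, hC, hC'⟩ := exists_lt (hr (𝒬.act (f * g) q)) B (range (𝒯.act f)) hε
    obtain ⟨D, hD⟩ := exists_image 𝒯 hC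
    obtain ⟨A, hA, hA'⟩ := exists_lt2 (hr (𝒬.act (f * g) q)) C B (range (𝒯.act (f * g))) hε
    obtain ⟨A0, hA0⟩ := exists_image 𝒯 hA
    have e1 := (act_agree 𝒯 f (D ∪ A0.image (𝒯.act g))).filter_mono (ltau_le 𝒬 𝒯 (r := r) f)
    have e2 := (act_agree 𝒯 g A0).filter_mono (ltau_le 𝒬 𝒯 (r := r) g)
    have e3 := (ltau_rk 𝒬 𝒯 hr f (𝒬.act g q) B).eventually_const_lt
      (show lrk 𝒬 𝒯 r (𝒬.act g q) B f - ε < lrk 𝒬 𝒯 r (𝒬.act g q) B f by linarith)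
    have e4 := (ltau_rk 𝒬 𝒯 hr g q D).eventually_const_lt
      (show lrk 𝒬 𝒯 r q D g - ε < lrk 𝒬 𝒯 r q D g by linarith)
    have e5 := (𝒬.cont g q).filter_mono (ltau_le 𝒬 𝒯 (r := r) g)
    have e6 := (𝒬.cont f (𝒬.act g q)).filter_mono (ltau_le 𝒬 𝒯 (r := r) f)
    filter_upwards [((e1.and e3).and e6).prod_mk ((e2.and e4).and e5)] with p hp
    obtain ⟨⟨⟨hp1, hp3⟩, hp6⟩, ⟨hp2, hp4⟩, hp5⟩ := hp
    have hDC : D.image (𝒯.act p.1) = C := by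
      rw [← hD]
      apply Finset.image_congr
      intro t ht
      exact hp1 t (Finset.mem_union_left _ ht)
    have hAX : ∀ t ∈ A, t ∈ range (𝒯.act (p.1 * p.2)) := by
      intro t ht
      rw [← hA0] at ht
      obtain ⟨s, hs, rfl⟩ := Finset.mem_image.1 ht
      refine ⟨s, ?_⟩
      rw [𝒯.act_mul, 𝒯.act_mul, hp2 s hs,
        hp1 _ (Finset.mem_union_right _ (Finset.mem_image_of_mem _ hs))]
    have hact : 𝒬.act (p.1 * p.2) q = 𝒬.act (f * g) q := by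
      rw [𝒬.act_mul, hp5, hp6, ← 𝒬.act_mul]
    have k1 := lrk_mul_ge 𝒬 𝒯 hr hinv p.1 p.2 q B D
    rw [hDC, hp5] at k1
    have k2 := cr2_le (hr (𝒬.act (p.1 * p.2) q)) C B hAX
    have k3 := lrk_mul_le' 𝒬 𝒯 hr hinv f g q B D
    rw [hD] at k3
    rw [hact] at k1 k2
    have k4 : lrk 𝒬 𝒯 r (𝒬.act g q) B f = cr (r (𝒬.act (f * g) q)) B (range (𝒯.act f)) := by
      unfold lrk
      rw [𝒬.act_mul]
    have k5 : lrk 𝒬 𝒯 r q B (p.1 * p.2) =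
        cr (r (𝒬.act (f * g) q)) B (range (𝒯.act (p.1 * p.2))) := by
      unfold lrk
      rw [hact]
    linarith
  · intro c hc
    exact h0 (lrk_usc 𝒬 𝒯 hr q B (f * g) hc)

theorem nhds_ltau_one (hr : ∀ p, IsRank (r p)) :
    @nhds _ (t0 G) 1 ≤ @nhds _ (ltau 𝒬 𝒯 r) 1 := by
  rw [nhds_ltau]
  refine le_inf le_rfl (le_iInf fun i => ?_)
  rw [← tendsto_iff_comap]
  have h1 : lrho 𝒬 𝒯 r i 1 = 0 := by
    unfold lrho
    rw [lrk_one 𝒬 𝒯 hr]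
    simp
  rw [h1, ENNReal.nhds_zero, tendsto_iInf]
  intro a
  rw [tendsto_iInf]
  intro ha
  rw [tendsto_principal]
  have := lrho_usc 𝒬 𝒯 hr i 1 a (by
    show lrho 𝒬 𝒯 r i 1 < a
    rw [h1]
    exact pos_iff_ne_zero.2 ha)
  filter_upwards [this] with g hg
  exact hg

/-- the total local rank over the image -/
noncomputable def ldelta (r : P → Finset T → ℝ) (p : P) (f : Closure G) : ℝ≥0∞ :=
  ⨆ B : Finset T, lrho 𝒬 𝒯 r (p, B) f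

theorem ldelta_one (hr : ∀ p, IsRank (r p)) (p : P) : ldelta 𝒬 𝒯 r p 1 = 0 := by
  unfold ldelta lrho
  simp [lrk_one 𝒬 𝒯 hr]

theorem ldelta_mul (hr : ∀ p, IsRank (r p)) (hinv : LInv 𝒬 𝒯 r) (f g : Closure G) (p : P) :
    ldelta 𝒬 𝒯 r p (f * g) = ldelta 𝒬 𝒯 r (𝒬.act g p) f + ldelta 𝒬 𝒯 r p g := by
  apply le_antisymm
  · refine iSup_le fun B => ?_
    refine ENNReal.le_of_forall_pos_le_add fun ε hε _ => ?_
    obtain ⟨C, hC, hC'⟩ := exists_lt (hr (𝒬.act (f * g) p)) B (range (𝒯.act f))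
      (NNReal.coe_pos.2 hε)
    obtain ⟨D, hD⟩ := exists_image 𝒯 hC
    have k3 := lrk_mul_le' 𝒬 𝒯 hr hinv f g p B D
    rw [hD] at k3
    have k4 := cr2_nonneg (hr (𝒬.act (f * g) p)) C B (range (𝒯.act (f * g)))
    have k6 : lrk 𝒬 𝒯 r (𝒬.act g p) B f = cr (r (𝒬.act (f * g) p)) B (range (𝒯.act f)) := by
      unfold lrk
      rw [𝒬.act_mul]
    have k5 : lrk 𝒬 𝒯 r p B (f * g) ≤ lrk 𝒬 𝒯 r (𝒬.act g p) B f + lrk 𝒬 𝒯 r p D g + ε := by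
      linarith
    calc lrho 𝒬 𝒯 r (p, B) (f * g) ≤
          ENNReal.ofReal (lrk 𝒬 𝒯 r (𝒬.act g p) B f + lrk 𝒬 𝒯 r p D g + ε) :=
          ENNReal.ofReal_le_ofReal k5
      _ = lrho 𝒬 𝒯 r (𝒬.act g p, B) f + lrho 𝒬 𝒯 r (p, D) g + ε := by
          rw [ENNReal.ofReal_add (add_nonneg (lrk_nonneg 𝒬 𝒯 hr _ B f)
            (lrk_nonneg 𝒬 𝒯 hr _ D g)) (NNReal.coe_nonneg ε),
            ENNReal.ofReal_add (lrk_nonneg 𝒬 𝒯 hr _ B f) (lrk_nonneg 𝒬 𝒯 hr _ D g),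
            ENNReal.ofReal_coe_nnreal]
          rfl
      _ ≤ ldelta 𝒬 𝒯 r (𝒬.act g p) f + ldelta 𝒬 𝒯 r p g + ε := by
          gcongr
          · exact le_iSup (fun B => lrho 𝒬 𝒯 r (𝒬.act g p, B) f) B
          · exact le_iSup (fun B => lrho 𝒬 𝒯 r (p, B) g) D
  · refine ENNReal.iSup_add_iSup_le fun B D => ?_
    have k1 := lrk_union_mul_ge 𝒬 𝒯 hr hinv f g p B D
    calc lrho 𝒬 𝒯 r (𝒬.act g p, B) f + lrho 𝒬 𝒯 r (p, D) g =
          ENNReal.ofReal (lrk 𝒬 𝒯 r (𝒬.act g p) B f + lrk 𝒬 𝒯 r p D g) :=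
          (ENNReal.ofReal_add (lrk_nonneg 𝒬 𝒯 hr _ B f) (lrk_nonneg 𝒬 𝒯 hr _ D g)).symm
      _ ≤ lrho 𝒬 𝒯 r (p, B ∪ D.image (𝒯.act f)) (f * g) := ENNReal.ofReal_le_ofReal k1
      _ ≤ ldelta 𝒬 𝒯 r p (f * g) := le_iSup (fun B => lrho 𝒬 𝒯 r (p, B) (f * g)) _

theorem ldelta_lsc (f : Closure G) (p : P) {c : ℝ≥0∞} (hc : c < ldelta 𝒬 𝒯 r p f) :
    ∀ᶠ g in @nhds _ (ltau 𝒬 𝒯 r) f, c < ldelta 𝒬 𝒯 r p g := by
  obtain ⟨B, hB⟩ := lt_iSup_iff.1 hc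
  filter_upwards [(ltau_rho 𝒬 𝒯 f (p, B)).eventually_const_lt hB] with g hg
  exact lt_of_lt_of_le hg (le_iSup (fun B => lrho 𝒬 𝒯 r (p, B) g) B)

/-- The topologies distinguishing the total local ranks up to `v`. -/
noncomputable def ltauv (r : P → Finset T → ℝ) (v : ℝ≥0∞) : TopologicalSpace (Closure G) :=
  ltau 𝒬 𝒯 r ⊓ ⨅ p : P, TopologicalSpace.induced (fun f => min (ldelta 𝒬 𝒯 r p f) v)
    inferInstance

theorem polish_ltauv [Countable Ω] [Countable T] [Countable P] (hr : ∀ p, IsRank (r p))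
    (v : ℝ≥0∞) : @PolishSpace (Closure G) (ltauv 𝒬 𝒯 r v) := by
  refine polish_refine (ltau 𝒬 𝒯 r) (polish_ltau 𝒬 𝒯 hr) _ fun p => Or.inl ?_
  letI := ltau 𝒬 𝒯 r
  intro f c hc
  have hc' : c < ldelta 𝒬 𝒯 r p f ∧ c < v := lt_min_iff.1 hc
  filter_upwards [ldelta_lsc 𝒬 𝒯 f p hc'.1] with g hg
  exact lt_min hg hc'.2

theorem nhds_ltauv (v : ℝ≥0∞) (f : Closure G) :
    @nhds _ (ltauv 𝒬 𝒯 r v) f = @nhds _ (ltau 𝒬 𝒯 r) f ⊓
      ⨅ p : P, comap (fun f => min (ldelta 𝒬 𝒯 r p f) v) (𝓝 (min (ldelta 𝒬 𝒯 r p f) v)) := by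
  unfold ltauv
  rw [@nhds_inf, @nhds_iInf]
  simp only [@nhds_induced]

theorem ltauv_mul (hr : ∀ p, IsRank (r p)) (hinv : LInv 𝒬 𝒯 r) (v : ℝ≥0∞) (f g : Closure G) :
    Tendsto (fun p : Closure G × Closure G => p.1 * p.2)
      (@nhds _ (ltauv 𝒬 𝒯 r v) f ×ˢ @nhds _ (ltauv 𝒬 𝒯 r v) g)
      (@nhds _ (ltauv 𝒬 𝒯 r v) (f * g)) := by
  rw [nhds_ltauv 𝒬 𝒯 v (f * g), tendsto_inf, tendsto_iInf]
  have hle : ∀ x : Closure G, @nhds _ (ltauv 𝒬 𝒯 r v) x ≤ @nhds _ (ltau 𝒬 𝒯 r) x := fun x => by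
    rw [nhds_ltauv]
    exact inf_le_left
  have hmin : ∀ (x : Closure G) (p : P), Tendsto (fun f => min (ldelta 𝒬 𝒯 r p f) v)
      (@nhds _ (ltauv 𝒬 𝒯 r v) x) (𝓝 (min (ldelta 𝒬 𝒯 r p x) v)) := fun x p => by
    rw [tendsto_iff_comap, nhds_ltauv]
    exact inf_le_right.trans (iInf_le _ p)
  refine ⟨(ltau_mul 𝒬 𝒯 hr hinv f g).mono_left (Filter.prod_mono (hle f) (hle g)),
    fun q => ?_⟩
  rw [tendsto_comap_iff]
  have e1 := (𝒬.cont g q).filter_mono ((hle g).trans (ltau_le 𝒬 𝒯 (r := r) g))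
  have h1 : ((fun f => min (ldelta 𝒬 𝒯 r q f) v) ∘ fun p : Closure G × Closure G => p.1 * p.2)
      =ᶠ[(@nhds _ (ltauv 𝒬 𝒯 r v) f ×ˢ @nhds _ (ltauv 𝒬 𝒯 r v) g)]
      fun p => min (min (ldelta 𝒬 𝒯 r (𝒬.act g q) p.1) v + min (ldelta 𝒬 𝒯 r q p.2) v) v := by
    filter_upwards [tendsto_snd.eventually e1] with p hp
    show min (ldelta 𝒬 𝒯 r q (p.1 * p.2)) v = _
    rw [ldelta_mul 𝒬 𝒯 hr hinv, hp, min_add_min]
  refine Tendsto.congr' h1.symm ?_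
  rw [ldelta_mul 𝒬 𝒯 hr hinv, min_add_min]
  exact (((hmin f _).comp tendsto_fst).add ((hmin g q).comp tendsto_snd)).min
    tendsto_const_nhds

theorem ltauv_mem [Countable Ω] [Countable T] [Countable P] (hr : ∀ p, IsRank (r p))
    (hinv : LInv 𝒬 𝒯 r) (v : ℝ≥0∞) : ltauv 𝒬 𝒯 r v ∈ PolishSemigroupTopologies G :=
  ⟨polish_ltauv 𝒬 𝒯 hr v, continuousMul_of_nhds _ (ltauv_mul 𝒬 𝒯 hr hinv v)⟩

/-- The criterion for two of the topologies to be different. -/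
theorem ltauv_ne (hr : ∀ p, IsRank (r p)) (hinv : LInv 𝒬 𝒯 r) {f : Closure G} {c : P}
    {v w : ℝ≥0∞} (hf : ldelta 𝒬 𝒯 r c f ≠ ⊤) (hw : ldelta 𝒬 𝒯 r c f + 1 ≤ w)
    (hh : ∀ (F : Finset Ω) (Q : Finset P), (∀ q ∈ Q, ldelta 𝒬 𝒯 r q f < v) →
      ∃ h : Closure G, (∀ x ∈ F, ev h x = x) ∧ (∀ q ∈ Q, ldelta 𝒬 𝒯 r q h = 0) ∧
        1 ≤ ldelta 𝒬 𝒯 r c h) :
    ltauv 𝒬 𝒯 r v ≠ ltauv 𝒬 𝒯 r w := by
  classical
  intro heq
  have hW : {x : Closure G | min (ldelta 𝒬 𝒯 r c x) w < ldelta 𝒬 𝒯 r c f + 1} ∈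
      @nhds _ (ltauv 𝒬 𝒯 r w) f := by
    have hmin : Tendsto (fun x => min (ldelta 𝒬 𝒯 r c x) w)
        (@nhds _ (ltauv 𝒬 𝒯 r w) f) (𝓝 (min (ldelta 𝒬 𝒯 r c f) w)) := by
      rw [tendsto_iff_comap, nhds_ltauv]
      exact inf_le_right.trans (iInf_le _ c)
    refine hmin.eventually_lt_const ?_
    refine lt_of_le_of_lt (min_le_left _ _) ?_
    exact ENNReal.lt_add_right hf one_ne_zero
  rw [← heq] at hW
  let E : P → Set (Closure G) := fun q => {x | min (ldelta 𝒬 𝒯 r q x) v =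
    min (ldelta 𝒬 𝒯 r q f) v}
  have hB : @nhds _ (ltau 𝒬 𝒯 r) f ⊓ ⨅ q : P, 𝓟 (E q) ≤ @nhds _ (ltauv 𝒬 𝒯 r v) f := by
    rw [nhds_ltauv]
    refine le_inf inf_le_left (le_iInf fun q => ?_)
    rw [← tendsto_iff_comap]
    refine tendsto_const_nhds.congr' ?_
    have h0 : @nhds _ (ltau 𝒬 𝒯 r) f ⊓ ⨅ q : P, 𝓟 (E q) ≤ 𝓟 (E q) :=
      inf_le_right.trans (iInf_le (fun q => 𝓟 (E q)) q)
    have h1 : E q ∈ @nhds _ (ltau 𝒬 𝒯 r) f ⊓ ⨅ q : P, 𝓟 (E q) :=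
      h0 (mem_principal_self _)
    filter_upwards [h1] with x hx
    exact hx.symm
  obtain ⟨U1, hU1, U2, hU2, hU⟩ := mem_inf_iff_superset.1 (hB hW)
  obtain ⟨Q, hQ⟩ := (mem_iInf_finite _).1 hU2
  rw [iInf_principal_finset, mem_principal] at hQ
  -- near one
  have hV : {h : Closure G | f * h ∈ U1 ∧ 𝒬.act h c = c ∧ ∀ q ∈ Q, 𝒬.act h q = q} ∈
      @nhds _ (t0 G) 1 := by
    have h3 : ∀ᶠ h in @nhds _ (t0 G) (1 : Closure G), f * h ∈ U1 := by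
      apply nhds_ltau_one 𝒬 𝒯 hr
      have h1 := ltau_mul 𝒬 𝒯 hr hinv f 1
      rw [mul_one] at h1
      have h2 : Tendsto (fun h : Closure G => (f, h)) (@nhds _ (ltau 𝒬 𝒯 r) 1)
          (@nhds _ (ltau 𝒬 𝒯 r) f ×ˢ @nhds _ (ltau 𝒬 𝒯 r) 1) := by
        refine Tendsto.prodMk ?_ tendsto_id
        letI := ltau 𝒬 𝒯 r
        exact tendsto_const_nhds
      exact (h1.comp h2) hU1
    have h4 : ∀ᶠ h in @nhds _ (t0 G) (1 : Closure G), ∀ q ∈ insert c Q, 𝒬.act h q = q := by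
      rw [Filter.eventually_all_finset]
      intro q _
      filter_upwards [𝒬.cont 1 q] with h hh
      rw [hh, 𝒬.act_one]
    filter_upwards [h3, h4] with h h5 h6
    exact ⟨h5, h6 c (Finset.mem_insert_self _ _), fun q hq => h6 q (Finset.mem_insert_of_mem hq)⟩
  obtain ⟨F, -, hF⟩ := (t0_nhds G 1).mem_iff.1 hV
  obtain ⟨h, hh1, hh2, hh3⟩ := hh F (Q.filter fun q => ldelta 𝒬 𝒯 r q f < v) (by
    intro q hq
    exact (Finset.mem_filter.1 hq).2)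
  obtain ⟨hm1, hm2, hm3⟩ := hF (show h ∈ {g : Closure G | ∀ x ∈ F, ev g x = ev 1 x} from
    fun x hx => by rw [hh1 x hx, ev_one])
  have hx2 : f * h ∈ U2 := by
    apply hQ
    rw [mem_iInter₂]
    intro q hq
    show min (ldelta 𝒬 𝒯 r q (f * h)) v = min (ldelta 𝒬 𝒯 r q f) v
    rw [ldelta_mul 𝒬 𝒯 hr hinv, hm3 q hq]
    by_cases hqv : ldelta 𝒬 𝒯 r q f < v
    · rw [hh2 q (Finset.mem_filter.2 ⟨hq, hqv⟩), add_zero]
    · rw [not_lt] at hqv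
      rw [min_eq_right hqv, min_eq_right (hqv.trans le_self_add)]
  have hx := hU ⟨hm1, hx2⟩
  simp only [mem_ofPred_eq] at hx
  rw [ldelta_mul 𝒬 𝒯 hr hinv, hm2] at hx
  have h7 : ldelta 𝒬 𝒯 r c f + 1 ≤ min (ldelta 𝒬 𝒯 r c f + ldelta 𝒬 𝒯 r c h) w := by
    refine le_min ?_ hw
    gcongr
  exact absurd hx (not_lt.2 h7)

end PST
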