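import Mathlib
import Pool.Agent.Helper26.PST.Build
import Pool.Agent.Helper26.PST.Local

open TopologicalSpace Set Filter Topology
open scoped ENNReal

namespace PST

section closure
variable {Ω : Type*} [DecidableEq Ω]

/-- a closure relation with exchange on finite sets -/
structure IsCl (Cl : Finset Ω → Ω → Prop) : Prop where
  mono : ∀ A B x, A ⊆ B → Cl A x → Cl B x
  mem : ∀ A x, x ∈ A → Cl A x
  trans : ∀ A x y, Cl A x → Cl (insert x A) y → Cl A y
  exch : ∀ A x y, ¬ Cl A x → Cl (insert y A) x → Cl (insert x A) y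

open Classical in
/-- the increment of the rank -/
noncomputable def inc (Cl : Finset Ω → Ω → Prop) (A : Finset Ω) (x : Ω) : ℕ :=
  if Cl A x then 0 else 1

theorem inc_of (Cl : Finset Ω → Ω → Prop) {A : Finset Ω} {x : Ω} (h : Cl A x) :
    inc Cl A x = 0 := if_pos h

theorem inc_of_not (Cl : Finset Ω → Ω → Prop) {A : Finset Ω} {x : Ω} (h : ¬ Cl A x) :
    inc Cl A x = 1 := if_neg h

/-- the rank of a list -/
noncomputable def rl (Cl : Finset Ω → Ω → Prop) : List Ω → ℕ
  | [] => 0
  | x :: L => rl Cl L + inc Cl L.toFinset x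

variable {Cl : Finset Ω → Ω → Prop}

theorem inc_anti (h : IsCl Cl) {A B : Finset Ω} (hAB : A ⊆ B) (x : Ω) :
    inc Cl B x ≤ inc Cl A x := by
  by_cases hA : Cl A x
  · rw [inc_of Cl (h.mono A B x hAB hA)]
    exact Nat.zero_le _
  · rw [inc_of_not Cl hA]
    by_cases hB : Cl B x
    · rw [inc_of Cl hB]
      exact Nat.zero_le _
    · rw [inc_of_not Cl hB]

theorem inc_comm (h : IsCl Cl) (A : Finset Ω) (x y : Ω) :
    inc Cl A x + inc Cl (insert x A) y = inc Cl A y + inc Cl (insert y A) x := by
  by_cases hx : Cl A x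
  · have hx' : Cl (insert y A) x := h.mono _ _ x (Finset.subset_insert _ _) hx
    rw [inc_of Cl hx, inc_of Cl hx']
    by_cases hy : Cl A y
    · rw [inc_of Cl hy, inc_of Cl (h.mono _ _ y (Finset.subset_insert _ _) hy)]
    · rw [inc_of_not Cl hy, inc_of_not Cl (fun h' => hy (h.trans A x y hx h'))]
  · by_cases hy : Cl A y
    · have hy' : Cl (insert x A) y := h.mono _ _ y (Finset.subset_insert _ _) hy
      rw [inc_of Cl hy, inc_of Cl hy', inc_of_not Cl hx,
        inc_of_not Cl (fun h' => hx (h.trans A y x hy h'))]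
    · rw [inc_of_not Cl hx, inc_of_not Cl hy]
      by_cases hxy : Cl (insert y A) x
      · rw [inc_of Cl hxy, inc_of Cl (h.exch A x y hx hxy)]
      · rw [inc_of_not Cl hxy, inc_of_not Cl (fun h' => hxy (h.exch A y x hy h'))]

theorem rl_perm (h : IsCl Cl) {L L' : List Ω} (hp : L.Perm L') : rl Cl L = rl Cl L' := by
  induction hp with
  | nil => rfl
  | cons x hp ih =>
    show rl Cl _ + inc Cl _ x = rl Cl _ + inc Cl _ x
    rw [ih, List.toFinset_eq_of_perm _ _ hp]
  | swap x y l =>
    show rl Cl l + inc Cl l.toFinset x + inc Cl (x :: l).toFinset y =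
      rl Cl l + inc Cl l.toFinset y + inc Cl (y :: l).toFinset x
    rw [List.toFinset_cons, List.toFinset_cons]
    have := inc_comm h l.toFinset x y
    omega
  | trans _ _ ih1 ih2 => rw [ih1, ih2]

/-- the rank of a finite set -/
noncomputable def mrk (Cl : Finset Ω → Ω → Prop) (B : Finset Ω) : ℕ := rl Cl B.toList

theorem mrk_insert (h : IsCl Cl) (B : Finset Ω) (x : Ω) :
    mrk Cl (insert x B) = mrk Cl B + inc Cl B x := by
  by_cases hx : x ∈ B
  · rw [Finset.insert_eq_of_mem hx, inc_of Cl (h.mem B x hx), add_zero]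
  · unfold mrk
    rw [rl_perm h (Finset.toList_insert hx)]
    show rl Cl B.toList + inc Cl B.toList.toFinset x = _
    rw [Finset.toList_toFinset]

theorem mrk_le_union (h : IsCl Cl) (A J : Finset Ω) : mrk Cl A ≤ mrk Cl (A ∪ J) := by
  induction J using Finset.induction_on with
  | empty => simp
  | insert x J _ ih =>
    rw [Finset.union_insert, mrk_insert h]
    omega

theorem mrk_mono (h : IsCl Cl) {A B : Finset Ω} (hAB : A ⊆ B) : mrk Cl A ≤ mrk Cl B := by
  have := mrk_le_union h A B
  rwa [Finset.union_eq_right.2 hAB] at this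

theorem mrk_union_le (h : IsCl Cl) {I A : Finset Ω} (hIA : I ⊆ A) (J : Finset Ω) :
    mrk Cl (A ∪ J) + mrk Cl I ≤ mrk Cl (I ∪ J) + mrk Cl A := by
  induction J using Finset.induction_on with
  | empty => simp [add_comm]
  | insert x J _ ih =>
    rw [Finset.union_insert, Finset.union_insert, mrk_insert h, mrk_insert h]
    have := inc_anti h (Finset.union_subset_union_left hIA : I ∪ J ⊆ A ∪ J) x
    omega

theorem mrk_submod (h : IsCl Cl) (A B : Finset Ω) :
    mrk Cl (A ∪ B) + mrk Cl (A ∩ B) ≤ mrk Cl A + mrk Cl B := by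
  have h1 := mrk_union_le h (Finset.inter_subset_left : A ∩ B ⊆ A) B
  rw [Finset.union_eq_right.2 (Finset.inter_subset_right : A ∩ B ⊆ B)] at h1
  omega

theorem mrk_span (h : IsCl Cl) {A B : Finset Ω} (hB : ∀ b ∈ B, Cl A b) :
    mrk Cl (B ∪ A) = mrk Cl A := by
  induction B using Finset.induction_on with
  | empty => simp
  | insert x B _ ih =>
    rw [Finset.insert_union, mrk_insert h, ih fun b hb => hB b (Finset.mem_insert_of_mem hb),
      inc_of Cl (h.mono A _ x Finset.subset_union_right (hB x (Finset.mem_insert_self _ _))),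
      add_zero]

theorem mrk_isRank (h : IsCl Cl) : IsRank (fun B => (mrk Cl B : ℝ)) where
  mono A B hAB := Nat.cast_le.2 (mrk_mono h hAB)
  submod A B := by
    have := mrk_submod h A B
    exact_mod_cast this

theorem rl_map {Cl' : Finset Ω → Ω → Prop} {f : Ω → Ω} (L : List Ω)
    (hf : ∀ (A : Finset Ω) (x : Ω), A ⊆ L.toFinset → x ∈ L → (Cl' (A.image f) (f x) ↔ Cl A x)) :
    rl Cl' (L.map f) = rl Cl L := by
  induction L with
  | nil => rfl
  | cons x L ih =>
    show rl Cl' (L.map f) + inc Cl' (L.map f).toFinset (f x) = rl Cl L + inc Cl L.toFinset x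
    have h1 := ih fun A y hA hy => hf A y
      (hA.trans (by rw [List.toFinset_cons]; exact Finset.subset_insert _ _))
      (List.mem_cons_of_mem _ hy)
    have h2 : (L.map f).toFinset = L.toFinset.image f := by
      ext z
      simp
    have h3 := hf L.toFinset x (by rw [List.toFinset_cons]; exact Finset.subset_insert _ _)
      List.mem_cons_self
    rw [h1, h2]
    congr 1
    by_cases hx : Cl L.toFinset x
    · rw [inc_of Cl hx, inc_of Cl' (h3.2 hx)]
    · rw [inc_of_not Cl hx, inc_of_not Cl' (fun h' => hx (h3.1 h'))]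

theorem mrk_image {Cl' : Finset Ω → Ω → Prop} (h' : IsCl Cl') {f : Ω → Ω}
    (hinj : Function.Injective f) (B : Finset Ω)
    (hf : ∀ (A : Finset Ω) (x : Ω), A ⊆ B → x ∈ B → (Cl' (A.image f) (f x) ↔ Cl A x)) :
    mrk Cl' (B.image f) = mrk Cl B := by
  unfold mrk
  have hperm : (B.image f).toList.Perm (B.toList.map f) := by
    rw [List.perm_ext_iff_of_nodup (Finset.nodup_toList _)
      ((Finset.nodup_toList B).map hinj)]
    intro z
    simp
  rw [rl_perm h' hperm]
  apply rl_map
  intro A x hA hx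
  rw [Finset.toList_toFinset] at hA
  exact hf A x hA (Finset.mem_toList.1 hx)

end closure

end PST
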