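import Mathlib
import Pool.Agent.Helper26.PST.Omit

open TopologicalSpace Set Filter Topology
open scoped ENNReal Pointwise

namespace PST

variable {Ω : Type*}

/-- The types of new tuples algebraic over the image of `f` and `A`, with parameters in the
image of `f`, up to `G`. -/
def NewTypes (G : Subgroup (Equiv.Perm Ω)) (f : Closure G) (A : Finset Ω) :
    Set (List Ω × List Ω) :=
  {p | ∃ g ∈ G, (∀ x ∈ p.1, g x ∈ Acl G (range (ev f) ∪ A)) ∧
    (∃ x ∈ p.1, g x ∉ range (ev f)) ∧ (∀ y ∈ p.2, g y ∈ range (ev f))}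

/-- invariance of a set of pairs of tuples -/
def Inv (G : Subgroup (Equiv.Perm Ω)) (R : Set (List Ω × List Ω)) : Prop :=
  ∀ g ∈ G, ∀ p : List Ω × List Ω, p ∈ R ↔ (p.1.map g, p.2.map g) ∈ R

theorem inv_compl {G : Subgroup (Equiv.Perm Ω)} {R : Set (List Ω × List Ω)} (h : Inv G R) :
    Inv G Rᶜ := by
  intro g hg p
  rw [mem_compl_iff, mem_compl_iff, h g hg p]

theorem inv_newTypes (G : Subgroup (Equiv.Perm Ω)) (f : Closure G) (A : Finset Ω) :
    Inv G (NewTypes G f A) := by
  intro k hk p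
  constructor
  · rintro ⟨g, hg, h1, h2, h3⟩
    refine ⟨g * k⁻¹, G.mul_mem hg (G.inv_mem hk), ?_, ?_, ?_⟩
    · intro x hx
      obtain ⟨y, hy, rfl⟩ := List.mem_map.1 hx
      show g (k⁻¹ (k y)) ∈ _
      simpa using h1 y hy
    · obtain ⟨x, hx, hx'⟩ := h2
      refine ⟨k x, List.mem_map_of_mem hx, ?_⟩
      show g (k⁻¹ (k x)) ∉ _
      simpa using hx'
    · intro x hx
      obtain ⟨y, hy, rfl⟩ := List.mem_map.1 hx
      show g (k⁻¹ (k y)) ∈ _
      simpa using h3 y hy
  · rintro ⟨g, hg, h1, h2, h3⟩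
    refine ⟨g * k, G.mul_mem hg hk, ?_, ?_, ?_⟩
    · intro x hx
      exact h1 _ (List.mem_map_of_mem hx)
    · obtain ⟨x, hx, hx'⟩ := h2
      obtain ⟨y, hy, rfl⟩ := List.mem_map.1 hx
      exact ⟨y, hy, hx'⟩
    · intro y hy
      exact h3 _ (List.mem_map_of_mem hy)

/-- the basic sets -/
def C (G : Subgroup (Equiv.Perm Ω)) (i : List Ω × List Ω × List Ω) : Set (Closure G) :=
  {f | i.2.2.map (ev f) = i.2.1 ∧ ∃ x ∈ i.1, x ∉ range (ev f)}

theorem isClosed_C (G : Subgroup (Equiv.Perm Ω)) (i : List Ω × List Ω × List Ω) :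
    IsClosed[t0 G] (C G i) := by
  classical
  letI := t0 G
  rw [← isOpen_compl_iff]
  show IsOpen[t0 G] _
  rw [t0_isOpen_iff]
  intro f hf
  by_cases h1 : i.2.2.map (ev f) = i.2.1
  · have h2 : ∀ x ∈ i.1, x ∈ range (ev f) := by
      by_contra hcon
      push Not at hcon
      exact hf ⟨h1, hcon⟩
    choose! pre hpre using h2
    refine ⟨(i.1.map pre).toFinset, fun g hg hgC => ?_⟩
    obtain ⟨-, x, hx, hx'⟩ := hgC
    apply hx'
    refine ⟨pre x, ?_⟩
    rw [hg (pre x) (by simpa using ⟨x, hx, rfl⟩)]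
    exact hpre x hx
  · refine ⟨i.2.2.toFinset, fun g hg hgC => ?_⟩
    apply h1
    rw [← hgC.1]
    apply List.map_congr_left
    intro x hx
    exact (hg x (by simpa using hx)).symm

/-- the index type of the basic sets with type in `R` -/
abbrev Idx (R : Set (List Ω × List Ω)) := {i : List Ω × List Ω × List Ω // (i.1, i.2.1) ∈ R}

/-- The topology generated by pointwise convergence and the basic sets. -/
noncomputable def tR (G : Subgroup (Equiv.Perm Ω)) (R : Set (List Ω × List Ω)) :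
    TopologicalSpace (Closure G) :=
  t0 G ⊓ ⨅ i : Idx R, TopologicalSpace.induced ((C G i.1).indicator (1 : Closure G → ℝ≥0∞))
    inferInstance

theorem polish_tR [Countable Ω] (G : Subgroup (Equiv.Perm Ω)) (R : Set (List Ω × List Ω)) :
    @PolishSpace (Closure G) (tR G R) := by
  refine polish_refine (t0 G) (polish_t0 G) _ fun i => Or.inr ?_
  letI := t0 G
  have := (isClosed_C G i.1).upperSemicontinuous_indicator (y := (1 : ℝ≥0∞)) zero_le_one
  exact this

theorem nhds_tR (G : Subgroup (Equiv.Perm Ω)) (R : Set (List Ω × List Ω)) (f : Closure G) :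
    @nhds _ (tR G R) f = @nhds _ (t0 G) f ⊓
      ⨅ i : Idx R, comap ((C G i.1).indicator (1 : Closure G → ℝ≥0∞))
        (𝓝 ((C G i.1).indicator 1 f)) := by
  unfold tR
  rw [@nhds_inf, @nhds_iInf]
  simp only [@nhds_induced]

theorem tR_le (G : Subgroup (Equiv.Perm Ω)) (R : Set (List Ω × List Ω)) (f : Closure G) :
    @nhds _ (tR G R) f ≤ @nhds _ (t0 G) f := by
  rw [nhds_tR]
  exact inf_le_left

theorem tR_mem (G : Subgroup (Equiv.Perm Ω)) {R : Set (List Ω × List Ω)} {f : Closure G}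
    {a c c0 : List Ω} (hR : (a, c) ∈ R) (hf : f ∈ C G (a, c, c0)) :
    ∀ᶠ g in @nhds _ (tR G R) f, g ∈ C G (a, c, c0) := by
  have h1 : @nhds _ (tR G R) f ≤ comap ((C G (a, c, c0)).indicator (1 : Closure G → ℝ≥0∞))
      (𝓝 ((C G (a, c, c0)).indicator 1 f)) := by
    rw [nhds_tR]
    exact inf_le_right.trans (iInf_le _ (⟨(a, c, c0), hR⟩ : Idx R))
  apply h1
  rw [indicator_of_mem hf]
  refine mem_comap.2 ⟨Ioi 0, ?_, ?_⟩
  · exact (isOpen_Ioi).mem_nhds (by simp)
  · intro g hg
    by_contra hg'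
    have hg'' : g ∉ C G (a, c, c0) := hg'
    simp only [mem_preimage, mem_Ioi] at hg
    rw [indicator_of_notMem hg''] at hg
    exact lt_irrefl _ hg

theorem map_ev_inv {G : Subgroup (Equiv.Perm Ω)} {R : Set (List Ω × List Ω)} (hR : Inv G R)
    (f : Closure G) (b d : List Ω) : (b, d) ∈ R ↔ (b.map (ev f), d.map (ev f)) ∈ R := by
  classical
  obtain ⟨k, hk, hk'⟩ := ev_approx f (b.toFinset ∪ d.toFinset)
  rw [hR k hk (b, d)]
  have h1 : b.map k = b.map (ev f) := by
    apply List.map_congr_left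
    intro x hx
    exact hk' x (by simp [hx])
  have h2 : d.map k = d.map (ev f) := by
    apply List.map_congr_left
    intro x hx
    exact hk' x (by simp [hx])
  simp only [h1, h2]

theorem exists_map_of_subset_range {f : Ω → Ω} :
    ∀ {a : List Ω}, (∀ x ∈ a, x ∈ range f) → ∃ b : List Ω, b.map f = a
  | [], _ => ⟨[], rfl⟩
  | (x :: a), h => by
    obtain ⟨y, hy⟩ := h x (by simp)
    obtain ⟨b, hb⟩ := exists_map_of_subset_range (a := a) (fun z hz => h z (by simp [hz]))
    exact ⟨y :: b, by simp [hy, hb]⟩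

theorem tR_mul {G : Subgroup (Equiv.Perm Ω)} {R : Set (List Ω × List Ω)} (hR : Inv G R)
    (f g : Closure G) :
    Tendsto (fun p : Closure G × Closure G => p.1 * p.2)
      (@nhds _ (tR G R) f ×ˢ @nhds _ (tR G R) g) (@nhds _ (tR G R) (f * g)) := by
  classical
  have h0 : Tendsto (fun p : Closure G × Closure G => p.1 * p.2)
      (@nhds _ (tR G R) f ×ˢ @nhds _ (tR G R) g) (@nhds _ (t0 G) (f * g)) :=
    (t0_tendsto_mul G f g).mono_left (Filter.prod_mono (tR_le G R f) (tR_le G R g))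
  rw [nhds_tR G R (f * g), tendsto_inf, tendsto_iInf]
  refine ⟨h0, fun i => ?_⟩
  rw [tendsto_comap_iff]
  obtain ⟨⟨a, c, c0⟩, hi⟩ := i
  simp only at hi ⊢
  have key : ∀ᶠ p : Closure G × Closure G in (@nhds _ (tR G R) f ×ˢ @nhds _ (tR G R) g),
      (p.1 * p.2 ∈ C G (a, c, c0) ↔ f * g ∈ C G (a, c, c0)) := by
    by_cases hfg : f * g ∈ C G (a, c, c0)
    · simp only [hfg, iff_true]
      obtain ⟨hc, x, hx, hx'⟩ := hfg
      simp only at hc hx
      have hcf : (c0.map (ev g)).map (ev f) = c := by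
        rw [← hc, List.map_map]
        rfl
      by_cases ha : ∀ y ∈ a, y ∈ range (ev f)
      · obtain ⟨b, rfl⟩ := exists_map_of_subset_range ha
        obtain ⟨z, hz, rfl⟩ := List.mem_map.1 hx
        have hzg : z ∉ range (ev g) := by
          rintro ⟨w, rfl⟩
          exact hx' ⟨w, rfl⟩
        have hbR : (b, c0.map (ev g)) ∈ R := by
          rw [map_ev_inv hR f, hcf]
          exact hi
        have hgC : g ∈ C G (b, c0.map (ev g), c0) := ⟨rfl, z, hz, hzg⟩
        have e1 := tR_mem G hbR hgC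
        have e2 := (t0_agree G f (b.toFinset ∪ (c0.map (ev g)).toFinset)).filter_mono
          (tR_le G R f)
        filter_upwards [e2.prod_mk e1] with p hp
        obtain ⟨hp1, hp2, y, hy, hy'⟩ := hp
        simp only at hp2 hy
        refine ⟨?_, ?_⟩
        · show c0.map (ev (p.1 * p.2)) = c
          have : c0.map (ev (p.1 * p.2)) = (c0.map (ev p.2)).map (ev p.1) := by
            rw [List.map_map]
            rfl
          rw [this, hp2, ← hcf]
          apply List.map_congr_left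
          intro w hw
          exact hp1 w (by simp only [Finset.mem_union, List.mem_toFinset]; exact Or.inr hw)
        · refine ⟨ev f y, List.mem_map_of_mem hy, ?_⟩
          rintro ⟨w, hw⟩
          rw [← hp1 y (by simp [hy])] at hw
          exact hy' ⟨w, ev_injective p.1 hw⟩
      · push Not at ha
        have hfC : f ∈ C G (a, c, c0.map (ev g)) := ⟨hcf, ha⟩
        have e1 := tR_mem G hi hfC
        have e2 := (t0_agree G g c0.toFinset).filter_mono (tR_le G R g)
        filter_upwards [e1.prod_mk e2] with p hp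
        obtain ⟨⟨hp1, y, hy, hy'⟩, hp2⟩ := hp
        simp only at hp1 hy
        refine ⟨?_, y, hy, ?_⟩
        · show c0.map (ev (p.1 * p.2)) = c
          have h3 : c0.map (ev (p.1 * p.2)) = (c0.map (ev p.2)).map (ev p.1) := by
            rw [List.map_map]
            rfl
          have h4 : c0.map (ev p.2) = c0.map (ev g) := by
            apply List.map_congr_left
            intro w hw
            exact hp2 w (by simpa using hw)
          rw [h3, h4, hp1]
        · rintro ⟨w, hw⟩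
          exact hy' ⟨ev p.2 w, hw⟩
    · simp only [hfg, iff_false]
      have hop : (C G (a, c, c0))ᶜ ∈ @nhds _ (t0 G) (f * g) := by
        letI := t0 G
        exact (isClosed_C G (a, c, c0)).isOpen_compl.mem_nhds hfg
      exact h0 hop
  have hconst : (fun p : Closure G × Closure G =>
      (C G (a, c, c0)).indicator (1 : Closure G → ℝ≥0∞) (p.1 * p.2)) =ᶠ[
        (@nhds _ (tR G R) f ×ˢ @nhds _ (tR G R) g)]
      fun _ => (C G (a, c, c0)).indicator (1 : Closure G → ℝ≥0∞) (f * g) := by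
    filter_upwards [key] with p hp
    by_cases hfg : f * g ∈ C G (a, c, c0)
    · rw [indicator_of_mem hfg, indicator_of_mem (hp.2 hfg)]
      rfl
    · rw [indicator_of_notMem hfg, indicator_of_notMem (fun h => hfg (hp.1 h))]
  exact (tendsto_const_nhds).congr' hconst.symm

theorem tR_pst [Countable Ω] {G : Subgroup (Equiv.Perm Ω)} {R : Set (List Ω × List Ω)}
    (hR : Inv G R) : tR G R ∈ PolishSemigroupTopologies G :=
  ⟨polish_tR G R, continuousMul_of_nhds _ (tR_mul hR)⟩

/-- The basic neighbourhoods of `tR`. -/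
theorem tR_basis (G : Subgroup (Equiv.Perm Ω)) (R : Set (List Ω × List Ω)) {f : Closure G}
    {U : Set (Closure G)} (hU : U ∈ @nhds _ (tR G R) f) :
    ∃ (F : Finset Ω) (J : Finset (Idx R)), (∀ j ∈ J, f ∈ C G j.1) ∧
      ∀ g : Closure G, (∀ x ∈ F, ev g x = ev f x) → (∀ j ∈ J, g ∈ C G j.1) → g ∈ U := by
  classical
  let B : Filter (Closure G) := @nhds _ (t0 G) f ⊓
    ⨅ i : {i : Idx R // f ∈ C G i.1}, 𝓟 (C G i.1.1)
  have hB : B ≤ @nhds _ (tR G R) f := by
    rw [nhds_tR]
    refine le_inf inf_le_left (le_iInf fun i => ?_)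
    rw [← tendsto_iff_comap]
    by_cases hi : f ∈ C G i.1
    · have hev : ∀ᶠ g in B, g ∈ C G i.1 := by
        have : B ≤ 𝓟 (C G i.1) := inf_le_right.trans
          (iInf_le (fun i : {i : Idx R // f ∈ C G i.1} => 𝓟 (C G i.1.1)) ⟨i, hi⟩)
        exact this (mem_principal_self _)
      refine tendsto_const_nhds.congr' ?_
      filter_upwards [hev] with g hg
      rw [indicator_of_mem hg, indicator_of_mem hi]
      rfl
    · have hev : ∀ᶠ g in B, g ∉ C G i.1 := by
        have h1 : (C G i.1)ᶜ ∈ @nhds _ (t0 G) f := by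
          letI := t0 G
          exact (isClosed_C G i.1).isOpen_compl.mem_nhds hi
        exact (inf_le_left : B ≤ _) h1
      refine tendsto_const_nhds.congr' ?_
      filter_upwards [hev] with g hg
      rw [indicator_of_notMem hg, indicator_of_notMem hi]
  have hUB := hB hU
  obtain ⟨U1, hU1, U2, hU2, rfl⟩ := mem_inf_iff.1 hUB
  obtain ⟨F, -, hF⟩ := (t0_nhds G f).mem_iff.1 hU1
  obtain ⟨J, hJ⟩ := (mem_iInf_finite _).1 hU2
  rw [iInf_principal_finset, mem_principal] at hJ
  refine ⟨F, J.image Subtype.val, ?_, fun g hg hgJ => ⟨hF hg, hJ ?_⟩⟩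
  · intro j hj
    obtain ⟨i, -, rfl⟩ := Finset.mem_image.1 hj
    exact i.2
  · rw [mem_iInter₂]
    intro i hi
    exact hgJ i.1 (Finset.mem_image_of_mem _ hi)

/-- Detection: `A` is kept out of the images near `f` iff a type of `NewTypes G f A` is in
`R`. -/
theorem detect [Countable Ω] {G : Subgroup (Equiv.Perm Ω)} (hG : Oligomorphic G)
    {R : Set (List Ω × List Ω)} (hR : Inv G R) (f : Closure G) (A : Finset Ω) :
    {g : Closure G | ¬ (A : Set Ω) ⊆ range (ev g)} ∈ @nhds _ (tR G R) f ↔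
      (NewTypes G f A ∩ R).Nonempty := by
  classical
  constructor
  · intro hU
    by_contra hcon
    rw [Set.not_nonempty_iff_eq_empty] at hcon
    obtain ⟨F, J, hJf, hJ⟩ := tR_basis G R hU
    have hex : ∀ j : {j // j ∈ J}, ∃ e ∈ j.1.1.1, e ∉ Acl G (range (ev f) ∪ A) := by
      rintro ⟨j, hj⟩
      by_contra hall
      push Not at hall
      have hmem : ((j.1.1, j.1.2.1) : List Ω × List Ω) ∈ NewTypes G f A ∩ R := by
        refine ⟨⟨1, G.one_mem, fun x hx => hall x hx, ?_, ?_⟩, j.2⟩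
        · obtain ⟨-, x, hx, hx'⟩ := hJf j hj
          exact ⟨x, hx, hx'⟩
        · intro y hy
          obtain ⟨h1, -⟩ := hJf j hj
          simp only at hy
          rw [← h1] at hy
          obtain ⟨z, -, rfl⟩ := List.mem_map.1 hy
          exact ⟨z, rfl⟩
      rw [hcon] at hmem
      exact hmem
    choose e he he' using hex
    let F' : Finset Ω := F ∪ J.biUnion (fun j => j.1.2.2.toFinset)
    obtain ⟨k, hk, hkF⟩ := ev_approx f F'
    let P : Finset Ω := F' ∪ A.image (k⁻¹ : Equiv.Perm Ω)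
    have hP : ∀ x ∈ J.attach.image e, ¬ IsAlgebraicOver G (P.image k) x := by
      intro x hx hal
      obtain ⟨j, -, rfl⟩ := Finset.mem_image.1 hx
      apply he' j
      refine ⟨P.image k, ?_, hal⟩
      intro y hy
      obtain ⟨z, hz, rfl⟩ := Finset.mem_image.1 hy
      rcases Finset.mem_union.1 hz with hz | hz
      · exact Or.inl ⟨z, (hkF z hz).symm⟩
      · obtain ⟨w, hw, rfl⟩ := Finset.mem_image.1 hz
        right
        simpa using hw
    obtain ⟨g, hg1, hg2⟩ := omitting hG hk hP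
    have hgU := hJ g ?_ ?_
    · apply hgU
      intro x hx
      have hx' : k⁻¹ x ∈ P := Finset.mem_union_right _ (Finset.mem_image_of_mem _ hx)
      refine ⟨k⁻¹ x, ?_⟩
      rw [hg1 _ hx']
      simp
    · intro x hx
      have hxF' : x ∈ F' := Finset.mem_union_left _ hx
      rw [hg1 x (Finset.mem_union_left _ hxF'), hkF x hxF']
    · intro j hj
      refine ⟨?_, e ⟨j, hj⟩, he ⟨j, hj⟩,
        hg2 _ (Finset.mem_image_of_mem _ (Finset.mem_attach _ _))⟩
      rw [← (hJf j hj).1]
      apply List.map_congr_left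
      intro x hx
      have hxF' : x ∈ F' := Finset.mem_union_right _
        (Finset.mem_biUnion.2 ⟨j, hj, by simpa using hx⟩)
      rw [hg1 x (Finset.mem_union_left _ hxF'), hkF x hxF']
  · rintro ⟨⟨a', c'⟩, ⟨g0, hg0, h1, h2, h3⟩, hR0⟩
    simp only at h1 h2 h3
    have hac : (a'.map g0, c'.map g0) ∈ R := (hR g0 hg0 (a', c')).1 hR0
    obtain ⟨c0, hc0⟩ := exists_map_of_subset_range (f := ev f) (a := c'.map g0) (by
      intro x hx
      obtain ⟨y, hy, rfl⟩ := List.mem_map.1 hx
      exact h3 y hy)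
    have hfC : f ∈ C G (a'.map g0, c'.map g0, c0) := by
      obtain ⟨x, hx, hx'⟩ := h2
      exact ⟨hc0, g0 x, List.mem_map_of_mem hx, hx'⟩
    have e1 := tR_mem G hac hfC
    -- finite support of the algebraicity
    have hsup : ∀ x ∈ a'.map g0, ∃ F : Finset Ω, ∀ g : Closure G,
        (∀ y ∈ F, ev g y = ev f y) → (A : Set Ω) ⊆ range (ev g) → x ∈ range (ev g) := by
      intro x hx
      obtain ⟨y, hy, rfl⟩ := List.mem_map.1 hx
      obtain ⟨K, hK, hal⟩ := h1 y hy
      have hK' : ∀ z ∈ K, ∃ F : Finset Ω, ∀ g : Closure G,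
          (∀ y ∈ F, ev g y = ev f y) → (A : Set Ω) ⊆ range (ev g) → z ∈ range (ev g) := by
        intro z hz
        rcases hK z hz with ⟨w, rfl⟩ | hzA
        · exact ⟨{w}, fun g hg _ => ⟨w, hg w (by simp)⟩⟩
        · exact ⟨∅, fun g _ hA => hA hzA⟩
      choose! Fz hFz using hK'
      refine ⟨K.biUnion Fz, fun g hg hA => ?_⟩
      apply range_aclosed
      refine ⟨K, fun z hz => ?_, hal⟩
      exact hFz z hz g (fun y hy => hg y (Finset.mem_biUnion.2 ⟨z, hz, hy⟩)) hA
    choose! Fx hFx using hsup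
    have e2 := (t0_agree G f ((a'.map g0).toFinset.biUnion Fx)).filter_mono (tR_le G R f)
    filter_upwards [e1, e2] with g hg1 hg2 hA
    obtain ⟨-, x, hx, hx'⟩ := hg1
    simp only at hx
    apply hx'
    refine hFx x hx g (fun y hy => hg2 y ?_) hA
    exact Finset.mem_biUnion.2 ⟨x, List.mem_toFinset.2 hx, hy⟩

/-- Finitely many Polish semigroup topologies imply finitely many classes of new types. -/
theorem finite_newTypes [Countable Ω] {G : Subgroup (Equiv.Perm Ω)} (hG : Oligomorphic G)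
    (hfin : (PolishSemigroupTopologies G).Finite) :
    {Q | ∃ (f : Closure G) (A : Finset Ω), Q = NewTypes G f A}.Finite := by
  classical
  refine Set.Finite.of_finite_image (f := fun Q => tR G Qᶜ) (hfin.subset ?_) ?_
  · rintro _ ⟨Q, ⟨f, A, rfl⟩, rfl⟩
    exact tR_pst (inv_compl (inv_newTypes G f A))
  · have key : ∀ (f1 f2 : Closure G) (A1 A2 : Finset Ω),
        tR G (NewTypes G f1 A1)ᶜ = tR G (NewTypes G f2 A2)ᶜ →
        NewTypes G f1 A1 ⊆ NewTypes G f2 A2 := by
      intro f1 f2 A1 A2 h p hp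
      by_contra hp2
      have h1 := (detect hG (inv_compl (inv_newTypes G f2 A2)) f1 A1).2 ⟨p, hp, hp2⟩
      rw [← h] at h1
      obtain ⟨q, hq, hq'⟩ := (detect hG (inv_compl (inv_newTypes G f1 A1)) f1 A1).1 h1
      exact hq' hq
    rintro _ ⟨f1, A1, rfl⟩ _ ⟨f2, A2, rfl⟩ h
    exact subset_antisymm (key f1 f2 A1 A2 h) (key f2 f1 A2 A1 h.symm)

end PST
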