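import Mathlib
import Pool.Agent.Helper26.PST.Types

open TopologicalSpace Set Filter Topology
open scoped ENNReal

namespace PST

variable {Ω : Type*}

/-- invariance of a set of pairs (point, tuple) -/
def Inv1 (G : Subgroup (Equiv.Perm Ω)) (R : Set (Ω × List Ω)) : Prop :=
  ∀ g ∈ G, ∀ p : Ω × List Ω, p ∈ R ↔ (g p.1, p.2.map g) ∈ R

/-- all points related to the image of the tuple `c` lie in the image -/
def W (G : Subgroup (Equiv.Perm Ω)) (R : Set (Ω × List Ω)) (c : List Ω) : Set (Closure G) :=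
  {f | ∀ x, (x, c.map (ev f)) ∈ R → x ∈ range (ev f)}

/-- The elements of the closure whose image contains a whole infinite set `R(Ω, f c)`. -/
def FullSet (G : Subgroup (Equiv.Perm Ω)) (R : Set (Ω × List Ω)) : Set (Closure G) :=
  {f | ∃ c : List Ω, {x | (x, c.map (ev f)) ∈ R}.Infinite ∧
    {x | (x, c.map (ev f)) ∈ R} ⊆ range (ev f)}

theorem t1_le (G : Subgroup (Equiv.Perm Ω)) (f : Closure G) :
    @nhds _ (tR G univ) f ≤ @nhds _ (t0 G) f := tR_le G univ f

/-- omitted points are omitted nearby -/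
theorem t1_omit (G : Subgroup (Equiv.Perm Ω)) {f : Closure G} {x : Ω}
    (hx : x ∉ range (ev f)) : ∀ᶠ g in @nhds _ (tR G univ) f, x ∉ range (ev g) := by
  have h1 : f ∈ C G ([x], [], []) := ⟨rfl, x, by simp, hx⟩
  have h2 := tR_mem G (R := univ) (mem_univ _) h1
  filter_upwards [h2] with g hg
  obtain ⟨-, y, hy, hy'⟩ := hg
  simp only [List.mem_singleton] at hy
  rw [← hy]
  exact hy'

theorem map_agree {G : Subgroup (Equiv.Perm Ω)} [DecidableEq Ω] {f g : Closure G} {c : List Ω}
    (h : ∀ x ∈ c.toFinset, ev g x = ev f x) : c.map (ev g) = c.map (ev f) := by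
  apply List.map_congr_left
  intro x hx
  exact h x (by simpa using hx)

theorem isClosed_W (G : Subgroup (Equiv.Perm Ω)) (R : Set (Ω × List Ω)) (c : List Ω) :
    IsClosed[tR G univ] (W G R c) := by
  classical
  letI := tR G univ
  rw [← isOpen_compl_iff, isOpen_iff_mem_nhds]
  intro f hf
  have hf' : ∃ x, (x, c.map (ev f)) ∈ R ∧ x ∉ range (ev f) := by
    by_contra hcon
    push Not at hcon
    exact hf hcon
  obtain ⟨x, hx, hx'⟩ := hf'
  have e1 := t1_omit G hx'
  have e2 := (t0_agree G f c.toFinset).filter_mono (t1_le G f)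
  show ∀ᶠ g in @nhds _ (tR G univ) f, g ∈ (W G R c)ᶜ
  filter_upwards [e1, e2] with g hg1 hg2 hgW
  apply hg1
  apply hgW
  rw [map_agree hg2]
  exact hx

/-- The topology generated by `tR G univ` and the sets `W G R c`. -/
noncomputable def sR (G : Subgroup (Equiv.Perm Ω)) (R : Set (Ω × List Ω)) :
    TopologicalSpace (Closure G) :=
  tR G univ ⊓ ⨅ c : List Ω, TopologicalSpace.induced ((W G R c).indicator
    (1 : Closure G → ℝ≥0∞)) inferInstance

theorem polish_sR [Countable Ω] (G : Subgroup (Equiv.Perm Ω)) (R : Set (Ω × List Ω)) :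
    @PolishSpace (Closure G) (sR G R) := by
  refine polish_refine (tR G univ) (polish_tR G univ) _ fun c => Or.inr ?_
  letI := tR G univ
  have := (isClosed_W G R c).upperSemicontinuous_indicator (y := (1 : ℝ≥0∞)) zero_le_one
  exact this

theorem nhds_sR (G : Subgroup (Equiv.Perm Ω)) (R : Set (Ω × List Ω)) (f : Closure G) :
    @nhds _ (sR G R) f = @nhds _ (tR G univ) f ⊓
      ⨅ c : List Ω, comap ((W G R c).indicator (1 : Closure G → ℝ≥0∞))
        (𝓝 ((W G R c).indicator 1 f)) := by
  unfold sR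
  rw [@nhds_inf, @nhds_iInf]
  simp only [@nhds_induced]

theorem sR_le (G : Subgroup (Equiv.Perm Ω)) (R : Set (Ω × List Ω)) (f : Closure G) :
    @nhds _ (sR G R) f ≤ @nhds _ (tR G univ) f := by
  rw [nhds_sR]
  exact inf_le_left

theorem sR_mem (G : Subgroup (Equiv.Perm Ω)) {R : Set (Ω × List Ω)} {f : Closure G}
    {c : List Ω} (hf : f ∈ W G R c) :
    ∀ᶠ g in @nhds _ (sR G R) f, g ∈ W G R c := by
  have h1 : @nhds _ (sR G R) f ≤ comap ((W G R c).indicator (1 : Closure G → ℝ≥0∞))
      (𝓝 ((W G R c).indicator 1 f)) := by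
    rw [nhds_sR]
    exact inf_le_right.trans (iInf_le _ c)
  apply h1
  rw [indicator_of_mem hf]
  refine mem_comap.2 ⟨Ioi 0, ?_, ?_⟩
  · exact (isOpen_Ioi).mem_nhds (by simp)
  · intro g hg
    by_contra hg'
    have hg'' : g ∉ W G R c := hg'
    simp only [mem_preimage, mem_Ioi] at hg
    rw [indicator_of_notMem hg''] at hg
    exact lt_irrefl _ hg

theorem map_ev_inv1 {G : Subgroup (Equiv.Perm Ω)} {R : Set (Ω × List Ω)} (hR : Inv1 G R)
    (f : Closure G) (b : Ω) (d : List Ω) : (b, d) ∈ R ↔ (ev f b, d.map (ev f)) ∈ R := by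
  classical
  obtain ⟨k, hk, hk'⟩ := ev_approx f (insert b d.toFinset)
  rw [hR k hk (b, d)]
  have h1 : k b = ev f b := hk' b (by simp)
  have h2 : d.map k = d.map (ev f) := by
    apply List.map_congr_left
    intro x hx
    exact hk' x (by simp [hx])
  simp only [h1, h2]

theorem map_map_ev {G : Subgroup (Equiv.Perm Ω)} (f g : Closure G) (c : List Ω) :
    c.map (ev (f * g)) = (c.map (ev g)).map (ev f) := by
  rw [List.map_map]
  rfl

theorem mem_W_mul {G : Subgroup (Equiv.Perm Ω)} {R : Set (Ω × List Ω)} (hR : Inv1 G R)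
    (f g : Closure G) (c : List Ω) :
    f * g ∈ W G R c ↔ g ∈ W G R c ∧ f ∈ W G R (c.map (ev g)) := by
  constructor
  · intro h
    constructor
    · intro x hx
      have h1 : (ev f x, c.map (ev (f * g))) ∈ R := by
        rw [map_map_ev]
        exact (map_ev_inv1 hR f x _).1 hx
      obtain ⟨w, hw⟩ := h _ h1
      exact ⟨w, ev_injective f hw⟩
    · intro x hx
      rw [← map_map_ev] at hx
      obtain ⟨w, hw⟩ := h x hx
      exact ⟨ev g w, hw⟩
  · rintro ⟨hg, hf⟩ x hx
    rw [map_map_ev] at hx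
    obtain ⟨y, rfl⟩ := hf x hx
    obtain ⟨w, rfl⟩ := hg y ((map_ev_inv1 hR f y _).2 hx)
    exact ⟨w, rfl⟩

theorem sR_mul {G : Subgroup (Equiv.Perm Ω)} {R : Set (Ω × List Ω)} (hR : Inv1 G R)
    (f g : Closure G) :
    Tendsto (fun p : Closure G × Closure G => p.1 * p.2)
      (@nhds _ (sR G R) f ×ˢ @nhds _ (sR G R) g) (@nhds _ (sR G R) (f * g)) := by
  classical
  have hinv : Inv G (univ : Set (List Ω × List Ω)) := fun g _ p => by simp
  have h0 : Tendsto (fun p : Closure G × Closure G => p.1 * p.2)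
      (@nhds _ (sR G R) f ×ˢ @nhds _ (sR G R) g) (@nhds _ (tR G univ) (f * g)) :=
    (tR_mul hinv f g).mono_left (Filter.prod_mono (sR_le G R f) (sR_le G R g))
  rw [nhds_sR G R (f * g), tendsto_inf, tendsto_iInf]
  refine ⟨h0, fun c => ?_⟩
  rw [tendsto_comap_iff]
  have key : ∀ᶠ p : Closure G × Closure G in (@nhds _ (sR G R) f ×ˢ @nhds _ (sR G R) g),
      (p.1 * p.2 ∈ W G R c ↔ f * g ∈ W G R c) := by
    by_cases hfg : f * g ∈ W G R c
    · simp only [hfg, iff_true]
      obtain ⟨hg, hf⟩ := (mem_W_mul hR f g c).1 hfg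
      have e1 := sR_mem G hf
      have e2 := sR_mem G hg
      have e3 := (t0_agree G g c.toFinset).filter_mono ((sR_le G R g).trans (t1_le G g))
      filter_upwards [e1.prod_mk (e2.and e3)] with p hp
      obtain ⟨hp1, hp2, hp3⟩ := hp
      rw [mem_W_mul hR, map_agree hp3]
      exact ⟨hp2, hp1⟩
    · simp only [hfg, iff_false]
      have hop : (W G R c)ᶜ ∈ @nhds _ (tR G univ) (f * g) := by
        letI := tR G univ
        exact (isClosed_W G R c).isOpen_compl.mem_nhds hfg
      exact h0 hop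
  have hconst : (fun p : Closure G × Closure G =>
      (W G R c).indicator (1 : Closure G → ℝ≥0∞) (p.1 * p.2)) =ᶠ[
        (@nhds _ (sR G R) f ×ˢ @nhds _ (sR G R) g)]
      fun _ => (W G R c).indicator (1 : Closure G → ℝ≥0∞) (f * g) := by
    filter_upwards [key] with p hp
    by_cases hfg : f * g ∈ W G R c
    · rw [indicator_of_mem hfg, indicator_of_mem (hp.2 hfg)]
      rfl
    · rw [indicator_of_notMem hfg, indicator_of_notMem (fun h => hfg (hp.1 h))]
  exact (tendsto_const_nhds).congr' hconst.symm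

theorem sR_pst [Countable Ω] {G : Subgroup (Equiv.Perm Ω)} {R : Set (Ω × List Ω)}
    (hR : Inv1 G R) : sR G R ∈ PolishSemigroupTopologies G :=
  ⟨polish_sR G R, continuousMul_of_nhds _ (sR_mul hR)⟩

/-- Off `FullSet G R` the topology `sR` has the neighbourhoods of `tR G univ`. -/
theorem nhds_sR_of_notMem {G : Subgroup (Equiv.Perm Ω)} {R : Set (Ω × List Ω)} {f : Closure G}
    (hf : f ∉ FullSet G R) : @nhds _ (tR G univ) f ≤ @nhds _ (sR G R) f := by
  classical
  rw [nhds_sR]
  refine le_inf le_rfl (le_iInf fun c => ?_)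
  rw [← tendsto_iff_comap]
  have key : ∀ᶠ g in @nhds _ (tR G univ) f, (g ∈ W G R c ↔ f ∈ W G R c) := by
    by_cases hW : f ∈ W G R c
    · simp only [hW, iff_true]
      have hfin : {x | (x, c.map (ev f)) ∈ R}.Finite := by
        by_contra hinf
        exact hf ⟨c, hinf, hW⟩
      have hpre : ∀ x ∈ hfin.toFinset, x ∈ range (ev f) := by
        intro x hx
        rw [Set.Finite.mem_toFinset] at hx
        exact hW x hx
      choose! pre hpre' using hpre
      have e1 := (t0_agree G f (c.toFinset ∪ hfin.toFinset.image pre)).filter_mono (t1_le G f)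
      filter_upwards [e1] with g hg
      intro x hx
      rw [map_agree (fun y hy => hg y (Finset.mem_union_left _ hy))] at hx
      have hx' : x ∈ hfin.toFinset := by
        rw [Set.Finite.mem_toFinset]
        exact hx
      refine ⟨pre x, ?_⟩
      rw [hg _ (Finset.mem_union_right _ (Finset.mem_image_of_mem _ hx'))]
      exact hpre' x hx'
    · simp only [hW, iff_false]
      letI := tR G univ
      exact (isClosed_W G R c).isOpen_compl.mem_nhds hW
  have hconst : (fun g : Closure G => (W G R c).indicator (1 : Closure G → ℝ≥0∞) g) =ᶠ[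
        @nhds _ (tR G univ) f]
      fun _ => (W G R c).indicator (1 : Closure G → ℝ≥0∞) f := by
    filter_upwards [key] with g hg
    by_cases hfg : f ∈ W G R c
    · rw [indicator_of_mem hfg, indicator_of_mem (hg.2 hfg)]
      rfl
    · rw [indicator_of_notMem hfg, indicator_of_notMem (fun h => hfg (hg.1 h))]
  exact (tendsto_const_nhds).congr' hconst.symm

/-- A set `W G R c` with infinite `R(Ω, f c)` is not a neighbourhood in `tR G univ`. -/
theorem W_notMem [Countable Ω] {G : Subgroup (Equiv.Perm Ω)} (hG : Oligomorphic G)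
    {R : Set (Ω × List Ω)} {f : Closure G} {c : List Ω}
    (hinf : {x | (x, c.map (ev f)) ∈ R}.Infinite) : W G R c ∉ @nhds _ (tR G univ) f := by
  classical
  intro hW
  obtain ⟨F, J, hJf, hJ⟩ := tR_basis G univ hW
  have hex : ∀ j : {j // j ∈ J}, ∃ e ∈ j.1.1.1, e ∉ range (ev f) := by
    rintro ⟨j, hj⟩
    exact (hJf j hj).2
  choose e he he' using hex
  let F' : Finset Ω := F ∪ c.toFinset ∪ J.biUnion (fun j => j.1.2.2.toFinset)
  obtain ⟨k, hk, hkF⟩ := ev_approx f F'
  have hfin := finite_algebraic hG (F'.image k)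
  obtain ⟨x, hx, hx'⟩ := (hinf.diff hfin).nonempty
  have hP : ∀ y ∈ insert x (J.attach.image e), ¬ IsAlgebraicOver G (F'.image k) y := by
    intro y hy
    rcases Finset.mem_insert.1 hy with rfl | hy
    · exact hx'
    · obtain ⟨j, -, rfl⟩ := Finset.mem_image.1 hy
      intro hal
      apply he' j
      apply range_aclosed G f
      refine ⟨F'.image k, fun z hz => ?_, hal⟩
      obtain ⟨w, hw, rfl⟩ := Finset.mem_image.1 hz
      exact ⟨w, (hkF w hw).symm⟩
  obtain ⟨g, hg1, hg2⟩ := omitting hG hk hP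
  have hgf : ∀ y ∈ F', ev g y = ev f y := fun y hy => by rw [hg1 y hy, hkF y hy]
  have hgW : g ∈ W G R c := by
    apply hJ
    · intro y hy
      exact hgf y (Finset.mem_union_left _ (Finset.mem_union_left _ hy))
    · intro j hj
      refine ⟨?_, e ⟨j, hj⟩, he ⟨j, hj⟩,
        hg2 _ (Finset.mem_insert_of_mem (Finset.mem_image_of_mem _ (Finset.mem_attach _ _)))⟩
      rw [← (hJf j hj).1]
      apply List.map_congr_left
      intro y hy
      exact hgf y (Finset.mem_union_right _ (Finset.mem_biUnion.2 ⟨j, hj, by simpa using hy⟩))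
  have hcg : c.map (ev g) = c.map (ev f) := by
    apply map_agree
    intro y hy
    exact hgf y (Finset.mem_union_left _ (Finset.mem_union_right _ hy))
  apply hg2 x (Finset.mem_insert_self _ _)
  apply hgW x
  rw [hcg]
  exact hx

/-- Different sets `FullSet` give different topologies. -/
theorem fullSet_subset_of_eq [Countable Ω] {G : Subgroup (Equiv.Perm Ω)} (hG : Oligomorphic G)
    {R R' : Set (Ω × List Ω)} (h : sR G R = sR G R') : FullSet G R ⊆ FullSet G R' := by
  intro f hf
  by_contra hf'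
  obtain ⟨c, hinf, hsub⟩ := hf
  have h1 : W G R c ∈ @nhds _ (sR G R) f := sR_mem G (fun x hx => hsub hx)
  rw [h] at h1
  exact W_notMem hG hinf (nhds_sR_of_notMem hf' h1)

theorem sR_ne_t1 [Countable Ω] {G : Subgroup (Equiv.Perm Ω)} (hG : Oligomorphic G)
    {R : Set (Ω × List Ω)} (hne : (FullSet G R).Nonempty) : sR G R ≠ tR G univ := by
  intro h
  obtain ⟨f, c, hinf, hsub⟩ := hne
  have h1 : W G R c ∈ @nhds _ (sR G R) f := sR_mem G (fun x hx => hsub hx)
  rw [h] at h1
  exact W_notMem hG hinf h1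

/-- there is an element of the closure which is not surjective -/
theorem exists_not_surjective [Countable Ω] [Infinite Ω] {G : Subgroup (Equiv.Perm Ω)}
    (hG : Oligomorphic G) : ∃ (f : Closure G) (x : Ω), x ∉ range (ev f) := by
  classical
  have hfin := finite_algebraic hG ∅
  obtain ⟨x, hx⟩ := (Set.infinite_univ.diff hfin).nonempty
  obtain ⟨g, -, hg⟩ := omitting (P := ∅) (E := {x}) hG G.one_mem (by
    intro e he
    rw [Finset.mem_singleton.1 he, Finset.image_empty]
    exact hx.2)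
  exact ⟨g, x, hg x (Finset.mem_singleton_self x)⟩

theorem not_mem_t0 {G : Subgroup (Equiv.Perm Ω)} {f : Closure G} {x : Ω} :
    {g : Closure G | x ∉ range (ev g)} ∉ @nhds _ (t0 G) f := by
  intro h
  obtain ⟨F, -, hF⟩ := (t0_nhds G f).mem_iff.1 h
  obtain ⟨k, hk, hk'⟩ := ev_approx f F
  have h1 : ofG k hk ∈ {g : Closure G | x ∉ range (ev g)} := hF fun y hy => hk' y hy
  apply h1
  refine ⟨k⁻¹ x, ?_⟩
  rw [ev_ofG]
  simp

theorem t1_ne_t0 [Countable Ω] [Infinite Ω] {G : Subgroup (Equiv.Perm Ω)}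
    (hG : Oligomorphic G) : tR G univ ≠ t0 G := by
  intro h
  obtain ⟨f, x, hx⟩ := exists_not_surjective hG
  have h1 := t1_omit G hx
  rw [h] at h1
  exact not_mem_t0 h1

theorem sR_ne_t0 [Countable Ω] [Infinite Ω] {G : Subgroup (Equiv.Perm Ω)}
    (hG : Oligomorphic G) (R : Set (Ω × List Ω)) : sR G R ≠ t0 G := by
  intro h
  obtain ⟨f, x, hx⟩ := exists_not_surjective hG
  have h1 := (t1_omit G hx).filter_mono (sR_le G R f)
  rw [h] at h1
  exact not_mem_t0 h1

/-- There are at least two more Polish semigroup topologies than non-empty sets `FullSet`. -/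
theorem two_add_encard_le [Countable Ω] [Infinite Ω] {G : Subgroup (Equiv.Perm Ω)}
    (hG : Oligomorphic G) :
    2 + {Q : Set (Closure G) | Q.Nonempty ∧ ∃ R, Inv1 G R ∧ Q = FullSet G R}.encard ≤
      (PolishSemigroupTopologies G).encard := by
  classical
  set 𝒬 := {Q : Set (Closure G) | Q.Nonempty ∧ ∃ R, Inv1 G R ∧ Q = FullSet G R} with h𝒬
  have hch : ∀ Q : Set (Closure G), ∃ R : Set (Ω × List Ω),
      Q ∈ 𝒬 → Inv1 G R ∧ Q = FullSet G R := by
    intro Q
    by_cases hQ : Q ∈ 𝒬
    · obtain ⟨-, R, h1, h2⟩ := hQ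
      exact ⟨R, fun _ => ⟨h1, h2⟩⟩
    · exact ⟨∅, fun h => absurd h hQ⟩
  choose R hR using hch
  let φ : Set (Closure G) → TopologicalSpace (Closure G) := fun Q => sR G (R Q)
  have hinj : InjOn φ 𝒬 := by
    intro Q hQ Q' hQ' h
    have e1 := fullSet_subset_of_eq hG (R := R Q) (R' := R Q') h
    have e2 := fullSet_subset_of_eq hG (R := R Q') (R' := R Q) h.symm
    rw [← (hR Q hQ).2, ← (hR Q' hQ').2] at e1 e2
    exact subset_antisymm e1 e2
  have hinv : Inv G (univ : Set (List Ω × List Ω)) := fun g _ p => by simp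
  have hpair : ({t0 G, tR G univ} : Set (TopologicalSpace (Closure G))).encard = 2 :=
    Set.encard_pair (t1_ne_t0 hG).symm
  have hdisj : Disjoint ({t0 G, tR G univ} : Set (TopologicalSpace (Closure G))) (φ '' 𝒬) := by
    rw [Set.disjoint_left]
    rintro τ hτ ⟨Q, hQ, rfl⟩
    have hne : (FullSet G (R Q)).Nonempty := by
      rw [← (hR Q hQ).2]
      exact hQ.1
    rcases hτ with hτ | hτ
    · exact sR_ne_t0 hG _ hτ
    · exact sR_ne_t1 hG hne hτ
  rw [← hpair, ← hinj.encard_image, ← Set.encard_union_eq hdisj]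
  apply Set.encard_le_encard
  rintro τ (hτ | ⟨Q, hQ, rfl⟩)
  · rcases hτ with rfl | hτ
    · exact t0_mem G
    · rw [hτ]
      exact tR_pst hinv
  · exact sR_pst (hR Q hQ).1

end PST
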