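import Mathlib
import Pool.Agent.Helper26.PST.Dim
import Pool.Agent.Helper26.PST.Full

open TopologicalSpace Set Filter Topology
open scoped ENNReal Pointwise

namespace PST

variable {Ω : Type*}

/-- Back and forth over a fixed finite set. -/
theorem exists_maximal_image_fix [Countable Ω] [DecidableEq Ω] {G : Subgroup (Equiv.Perm Ω)}
    (F : Finset Ω) (Φ : Finset Ω → Prop) (h0 : Φ F) (hher : ∀ A B, A ⊆ B → Φ B → Φ A)
    (hext : ∀ C, F ⊆ C → Φ C → ∀ x, ∃ h ∈ G, (∀ y ∈ C, h y = y) ∧ Φ (insert (h x) C)) :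
    ∃ f : Closure G, (∀ x ∈ F, ev f x = x) ∧
      (∀ C : Finset Ω, (∀ x ∈ C, x ∈ range (ev f)) → Φ C) ∧
      ∀ b, b ∉ range (ev f) → ∃ C : Finset Ω, F ⊆ C ∧ (∀ x ∈ C, x ∈ range (ev f)) ∧
        ¬ Φ (insert b C) := by
  rcases isEmpty_or_nonempty Ω with hemp | hne
  · refine ⟨1, fun x => (IsEmpty.false x).elim, fun C _ => ?_, fun b => (IsEmpty.false b).elim⟩
    have : C = F := by
      ext x
      exact (IsEmpty.false x).elim
    rw [this]
    exact h0
  obtain ⟨enum, henum⟩ := exists_surjective_nat Ω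
  let St := {p : Equiv.Perm Ω × Finset Ω // p.1 ∈ G ∧ Φ (p.2.image p.1) ∧ F ⊆ p.2 ∧
    ∀ x ∈ F, p.1 x = x}
  have hstep : ∀ (n : ℕ) (p : St), ∃ q : St, insert (enum n) p.1.2 ⊆ q.1.2 ∧
      (∀ y ∈ p.1.2, q.1.1 y = p.1.1 y) ∧
      (enum n ∈ q.1.2.image q.1.1 ∨ ¬ Φ (insert (enum n) (q.1.2.image q.1.1))) := by
    rintro n ⟨⟨k, P⟩, hk, hP, hFP, hkF⟩
    simp only at hk hP hFP hkF
    have hFC : F ⊆ P.image k := by
      intro x hx
      exact Finset.mem_image.2 ⟨x, hFP hx, hkF x hx⟩
    obtain ⟨h, hh, hfix, hΦ⟩ := hext (P.image k) hFC hP (k (enum n))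
    have himg : (insert (enum n) P).image (h * k : Equiv.Perm Ω) =
        insert (h (k (enum n))) (P.image k) := by
      rw [Finset.image_insert]
      congr 1
      apply Finset.image_congr
      intro y hy
      exact hfix _ (Finset.mem_image_of_mem _ hy)
    have hk' : h * k ∈ G := G.mul_mem hh hk
    have hagr : ∀ y ∈ P, (h * k : Equiv.Perm Ω) y = k y := fun y hy =>
      hfix _ (Finset.mem_image_of_mem _ hy)
    have hF' : ∀ x ∈ F, (h * k : Equiv.Perm Ω) x = x := fun x hx => by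
      rw [hagr x (hFP hx), hkF x hx]
    by_cases hb : Φ (insert (enum n) ((insert (enum n) P).image (h * k : Equiv.Perm Ω)))
    · have himg2 : (insert ((h * k : Equiv.Perm Ω)⁻¹ (enum n)) (insert (enum n) P)).image
          (h * k : Equiv.Perm Ω) =
          insert (enum n) ((insert (enum n) P).image (h * k : Equiv.Perm Ω)) := by
        rw [Finset.image_insert]
        congr 1
        simp
      refine ⟨⟨(h * k, insert ((h * k : Equiv.Perm Ω)⁻¹ (enum n)) (insert (enum n) P)), hk',
        ?_, ?_, hF'⟩, ?_, hagr, Or.inl ?_⟩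
      · show Φ _
        rw [himg2]
        exact hb
      · exact hFP.trans ((Finset.subset_insert _ _).trans (Finset.subset_insert _ _))
      · exact Finset.subset_insert _ _
      · show enum n ∈ Finset.image _ _
        rw [himg2]
        exact Finset.mem_insert_self _ _
    · refine ⟨⟨(h * k, insert (enum n) P), hk', ?_, hFP.trans (Finset.subset_insert _ _), hF'⟩,
        subset_rfl, hagr, Or.inr hb⟩
      show Φ _
      rw [himg]
      exact hΦ
  choose next hnext1 hnext2 hnext3 using hstep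
  have h0' : Φ (F.image (1 : Equiv.Perm Ω)) := by
    have : F.image (1 : Equiv.Perm Ω) = F := by
      ext x
      simp
    rw [this]
    exact h0
  let s : ℕ → St := fun n => Nat.rec ⟨(1, F), G.one_mem, h0', subset_rfl, fun _ _ => rfl⟩
    (fun n p => next n p) n
  have hs2 : ∀ n, insert (enum n) (s n).1.2 ⊆ (s (n + 1)).1.2 := fun n => hnext1 n (s n)
  have hs1 : ∀ n, ∀ y ∈ (s n).1.2, (s (n + 1)).1.1 y = (s n).1.1 y := fun n => hnext2 n (s n)
  have hs3 : ∀ n, (enum n ∈ (s (n + 1)).1.2.image (s (n + 1)).1.1 ∨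
      ¬ Φ (insert (enum n) ((s (n + 1)).1.2.image (s (n + 1)).1.1))) := fun n => hnext3 n (s n)
  have hmono : ∀ m n, m ≤ n → (s m).1.2 ⊆ (s n).1.2 := by
    intro m n hmn
    induction n, hmn using Nat.le_induction with
    | base => exact fun _ h => h
    | succ n _ ih =>
      intro y hy
      exact hs2 n (Finset.mem_insert_of_mem (ih hy))
  have hagree : ∀ m n, m ≤ n → ∀ y ∈ (s m).1.2, (s n).1.1 y = (s m).1.1 y := by
    intro m n hmn
    induction n, hmn using Nat.le_induction with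
    | base => exact fun _ _ => rfl
    | succ n hmn' ih =>
      intro y hy
      rw [hs1 n y (hmono m n hmn' hy), ih y hy]
  choose idx hidx using henum
  have hin : ∀ x, x ∈ (s (idx x + 1)).1.2 := by
    intro x
    have := hs2 (idx x) (Finset.mem_insert_self _ _)
    rwa [hidx] at this
  let g : Ω → Ω := fun x => (s (idx x + 1)).1.1 x
  have hgs : ∀ n, ∀ x ∈ (s n).1.2, g x = (s n).1.1 x := by
    intro n x hx
    rcases le_total n (idx x + 1) with hle | hle
    · exact hagree _ _ hle x hx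
    · exact (hagree _ _ hle x (hin x)).symm
  have himgs : ∀ n, ∀ z ∈ (s n).1.2.image (s n).1.1, z ∈ range g := by
    intro n z hz
    obtain ⟨x, hx, rfl⟩ := Finset.mem_image.1 hz
    exact ⟨x, hgs n x hx⟩
  have hFs : ∀ n, F ⊆ (s n).1.2.image (s n).1.1 := by
    intro n x hx
    exact Finset.mem_image.2 ⟨x, (s n).2.2.2.1 hx, (s n).2.2.2.2 x hx⟩
  refine ⟨⟨g, ?_⟩, ?_, ?_, ?_⟩
  · intro A
    let N := A.sup (fun x => idx x + 1)
    refine ⟨(s N).1.1, (s N).2.1, fun x hx => ?_⟩
    have hle : idx x + 1 ≤ N := Finset.le_sup (f := fun x => idx x + 1) hx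
    exact (hgs N x (hmono _ _ hle (hin x))).symm
  · intro x hx
    have h1 := hgs 0 x ((s 0).2.2.2.1 hx)
    exact h1.trans ((s 0).2.2.2.2 x hx)
  · intro C hC
    have hC' : ∀ x ∈ C, ∃ y, g y = x := hC
    choose! pre hpre using hC'
    let N := C.sup (fun x => idx (pre x) + 1)
    refine hher _ _ ?_ (s N).2.2.1
    intro x hx
    have hle : idx (pre x) + 1 ≤ N := Finset.le_sup (f := fun x => idx (pre x) + 1) hx
    have hmem : pre x ∈ (s N).1.2 := hmono _ _ hle (hin (pre x))
    refine Finset.mem_image.2 ⟨pre x, hmem, ?_⟩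
    rw [← hgs N _ hmem]
    exact hpre x hx
  · intro b hb
    have hb' : b ∉ range g := hb
    refine ⟨(s (idx b + 1)).1.2.image (s (idx b + 1)).1.1, hFs (idx b + 1),
      fun z hz => himgs (idx b + 1) z hz, ?_⟩
    have h3 := hs3 (idx b)
    rw [hidx] at h3
    rcases h3 with h3 | h3
    · exact absurd (himgs (idx b + 1) b h3) hb'
    · exact h3

/-- A family of infinite strongly minimal sets, uniformly defined by `R`. -/
structure SMFamily (G : Subgroup (Equiv.Perm Ω)) (R : Set (Ω × List Ω)) : Prop where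
  inv : Inv1 G R
  inf : ∀ q x, (x, q) ∈ R → {y | (y, q) ∈ R}.Infinite
  sm : ∀ (q : List Ω) (D : Finset Ω) (x y : Ω), (∀ z ∈ q, z ∈ D) → (x, q) ∈ R → (y, q) ∈ R →
    ¬ IsAlgebraicOver G D x → ¬ IsAlgebraicOver G D y → ∃ g ∈ G, (∀ z ∈ D, g z = z) ∧ g x = y

theorem map_eq_self {g : Equiv.Perm Ω} {q : List Ω} (h : ∀ z ∈ q, g z = z) : q.map g = q := by
  conv_rhs => rw [← List.map_id q]
  apply List.map_congr_left
  intro z hz
  exact h z hz

theorem alg_image_iff [DecidableEq Ω] {G : Subgroup (Equiv.Perm Ω)} {F : Finset Ω} {x : Ω}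
    {k : Equiv.Perm Ω} (hk : k ∈ G) :
    IsAlgebraicOver G (F.image k) (k x) ↔ IsAlgebraicOver G F x := by
  constructor
  · intro h
    have := isAlgebraicOver_image G hk h
    simpa using this
  · intro h
    have h1 : F = (F.image k).image (k⁻¹ : Equiv.Perm Ω) := by
      rw [Finset.image_image]
      ext z
      simp
    rw [h1] at h
    have := isAlgebraicOver_image G (G.inv_mem hk) h
    simpa using this

theorem alg_ev_iff [DecidableEq Ω] {G : Subgroup (Equiv.Perm Ω)} (f : Closure G)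
    {F : Finset Ω} {x : Ω} :
    IsAlgebraicOver G (F.image (ev f)) (ev f x) ↔ IsAlgebraicOver G F x := by
  obtain ⟨k, hk, hk'⟩ := ev_approx f (insert x F)
  have h1 : F.image (ev f) = F.image k := by
    apply Finset.image_congr
    intro y hy
    exact (hk' y (Finset.mem_insert_of_mem hy)).symm
  rw [h1, ← hk' x (Finset.mem_insert_self _ _), alg_image_iff hk]

/-- exchange between a point of a strongly minimal set and an arbitrary point -/
theorem exchange [DecidableEq Ω] {G : Subgroup (Equiv.Perm Ω)} (hG : Oligomorphic G)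
    {R : Set (Ω × List Ω)} (hS : SMFamily G R) {q : List Ω} {D : Finset Ω} {u x : Ω}
    (hq : ∀ z ∈ q, z ∈ D) (hu : (u, q) ∈ R) (hx : ¬ IsAlgebraicOver G D x)
    (hxu : IsAlgebraicOver G (insert u D) x) : IsAlgebraicOver G (insert x D) u := by
  classical
  by_contra hux
  have hOfin : {b | ∃ g ∈ G, (∀ y ∈ insert u D, g y = y) ∧ g x = b}.Finite := hxu
  have hinf : {b | ∃ g ∈ G, (∀ y ∈ D, g y = y) ∧ g x = b}.Infinite := hx
  obtain ⟨s, hs, hcard⟩ := hinf.exists_subset_card_eq (hOfin.toFinset.card + 1)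
  have hfin := finite_algebraic hG (D ∪ s)
  obtain ⟨u', hu'q, hu'⟩ := ((hS.inf q u hu).sdiff hfin).nonempty
  have hu'q' : (u', q) ∈ R := hu'q
  have hu'' : ¬ IsAlgebraicOver G (D ∪ s) u' := hu'
  have key : ∀ x' ∈ s, ∃ g ∈ G, (∀ y ∈ D, g y = y) ∧ g u = u' ∧ g x = x' := by
    intro x' hx'
    obtain ⟨g, hg, hgD, hgx⟩ := hs hx'
    have hgq : q.map g = q := map_eq_self fun z hz => hgD z (hq z hz)
    have h1 : (g u, q) ∈ R := by
      have := (hS.inv g hg (u, q)).1 hu
      simpa only [hgq] using this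
    have himg : (insert x D).image g = insert x' D := by
      rw [Finset.image_insert, hgx]
      congr 1
      rw [Finset.image_congr (g := id) (fun y hy => hgD y hy), Finset.image_id]
    have h2 : ¬ IsAlgebraicOver G (insert x' D) (g u) := by
      rw [← himg, alg_image_iff hg]
      exact hux
    have h3 : ¬ IsAlgebraicOver G (insert x' D) u' := by
      intro h
      apply hu''
      refine isAlgebraicOver_mono G ?_ h
      intro z hz
      rcases Finset.mem_insert.1 hz with rfl | hz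
      · exact Finset.mem_union_right _ hx'
      · exact Finset.mem_union_left _ hz
    obtain ⟨k, hk, hkD, hku⟩ := hS.sm q (insert x' D) (g u) u'
      (fun z hz => Finset.mem_insert_of_mem (hq z hz)) h1 hu'q' h2 h3
    refine ⟨k * g, G.mul_mem hk hg, ?_, hku, ?_⟩
    · intro y hy
      show k (g y) = y
      rw [hgD y hy, hkD y (Finset.mem_insert_of_mem hy)]
    · show k (g x) = x'
      rw [hgx, hkD x' (Finset.mem_insert_self _ _)]
  have hne : s.Nonempty := by
    rw [← Finset.card_pos, hcard]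
    omega
  obtain ⟨x0, hx0⟩ := hne
  obtain ⟨g0, hg0, hg0D, hg0u, hg0x⟩ := key x0 hx0
  have hsub : s.image (g0⁻¹ : Equiv.Perm Ω) ⊆ hOfin.toFinset := by
    intro z hz
    obtain ⟨x', hx', rfl⟩ := Finset.mem_image.1 hz
    obtain ⟨g, hg, hgD, hgu, hgx⟩ := key x' hx'
    rw [Set.Finite.mem_toFinset]
    refine ⟨g0⁻¹ * g, G.mul_mem (G.inv_mem hg0) hg, ?_, ?_⟩
    · intro y hy
      show g0⁻¹ (g y) = y
      rw [Equiv.Perm.inv_eq_iff_eq]
      rcases Finset.mem_insert.1 hy with rfl | hy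
      · rw [hgu, hg0u]
      · rw [hgD y hy, hg0D y hy]
    · show g0⁻¹ (g x) = g0⁻¹ x'
      rw [hgx]
  have h1 := Finset.card_le_card hsub
  rw [Finset.card_image_of_injective _ (Equiv.injective _), hcard] at h1
  omega

/-- the closure relation in the strongly minimal set over `q` -/
def Clq (G : Subgroup (Equiv.Perm Ω)) (R : Set (Ω × List Ω)) (q : List Ω) (A : Finset Ω)
    (x : Ω) : Prop :=
  (x, q) ∉ R ∨ ∃ K : Finset Ω, (∀ z ∈ K, z ∈ q ∨ (z ∈ A ∧ (z, q) ∈ R)) ∧
    IsAlgebraicOver G K x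

section
variable [DecidableEq Ω] {G : Subgroup (Equiv.Perm Ω)} {R : Set (Ω × List Ω)}

open Classical in
/-- the base of the closure relation -/
noncomputable def bs (R : Set (Ω × List Ω)) (q : List Ω) (A : Finset Ω) : Finset Ω :=
  q.toFinset ∪ A.filter fun z => (z, q) ∈ R

theorem mem_bs {q : List Ω} {A : Finset Ω} {z : Ω} :
    z ∈ bs R q A ↔ z ∈ q ∨ (z ∈ A ∧ (z, q) ∈ R) := by
  classical
  unfold bs
  simp

theorem clq_iff {q : List Ω} {A : Finset Ω} {x : Ω} :
    Clq G R q A x ↔ (x, q) ∉ R ∨ IsAlgebraicOver G (bs R q A) x := by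
  unfold Clq
  constructor
  · rintro (h | ⟨K, hK, h⟩)
    · exact Or.inl h
    · exact Or.inr (isAlgebraicOver_mono G (fun z hz => mem_bs.2 (hK z hz)) h)
  · rintro (h | h)
    · exact Or.inl h
    · exact Or.inr ⟨bs R q A, fun z hz => mem_bs.1 hz, h⟩

theorem bs_mono {q : List Ω} {A B : Finset Ω} (h : A ⊆ B) : bs R q A ⊆ bs R q B := by
  intro z hz
  rw [mem_bs] at hz ⊢
  exact hz.imp id fun h' => ⟨h h'.1, h'.2⟩

theorem bs_insert_of_mem {q : List Ω} {A : Finset Ω} {x : Ω} (hx : (x, q) ∈ R) :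
    bs R q (insert x A) = insert x (bs R q A) := by
  ext z
  rw [mem_bs, Finset.mem_insert, Finset.mem_insert, mem_bs]
  constructor
  · rintro (h | ⟨rfl | h, h'⟩)
    · exact Or.inr (Or.inl h)
    · exact Or.inl rfl
    · exact Or.inr (Or.inr ⟨h, h'⟩)
  · rintro (rfl | h | ⟨h, h'⟩)
    · exact Or.inr ⟨Or.inl rfl, hx⟩
    · exact Or.inl h
    · exact Or.inr ⟨Or.inr h, h'⟩

theorem bs_insert_of_notMem {q : List Ω} {A : Finset Ω} {x : Ω} (hx : (x, q) ∉ R) :
    bs R q (insert x A) = bs R q A := by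
  ext z
  rw [mem_bs, mem_bs, Finset.mem_insert]
  constructor
  · rintro (h | ⟨rfl | h, h'⟩)
    · exact Or.inl h
    · exact absurd h' hx
    · exact Or.inr ⟨h, h'⟩
  · rintro (h | ⟨h, h'⟩)
    · exact Or.inl h
    · exact Or.inr ⟨Or.inr h, h'⟩

theorem clq_isCl (hG : Oligomorphic G) (hS : SMFamily G R) (q : List Ω) :
    IsCl (Clq G R q) where
  mono A B x hAB h := by
    rw [clq_iff] at h ⊢
    exact h.imp id fun h' => isAlgebraicOver_mono G (bs_mono hAB) h'
  mem A x hx := by
    rw [clq_iff]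
    by_cases hR : (x, q) ∈ R
    · exact Or.inr (isAlgebraicOver_of_mem G (mem_bs.2 (Or.inr ⟨hx, hR⟩)))
    · exact Or.inl hR
  trans A x y hx hy := by
    rw [clq_iff] at hx hy ⊢
    rcases hy with hy | hy
    · exact Or.inl hy
    · right
      by_cases hR : (x, q) ∈ R
      · have hx' : IsAlgebraicOver G (bs R q A) x := hx.resolve_left (not_not.2 hR)
        rw [bs_insert_of_mem hR] at hy
        apply isAlgebraicOver_trans (E := {x})
        · intro e he
          rw [Finset.mem_singleton.1 he]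
          exact hx'
        · rw [Finset.union_comm, ← Finset.insert_eq]
          exact hy
      · rw [bs_insert_of_notMem hR] at hy
        exact hy
  exch A x y hx hy := by
    rw [clq_iff, not_or, not_not] at hx
    rw [clq_iff] at hy ⊢
    have hy' := hy.resolve_left (not_not.2 hx.1)
    by_cases hR : (y, q) ∈ R
    · right
      rw [bs_insert_of_mem hR] at hy'
      rw [bs_insert_of_mem hx.1]
      exact exchange hG hS (fun z hz => mem_bs.2 (Or.inl hz)) hR hx.2 hy'
    · exact Or.inl hR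

/-- the lists as a sort -/
def listSort (G : Subgroup (Equiv.Perm Ω)) : GSort G (List Ω) where
  act f q := q.map (ev f)
  act_mul f g q := by
    rw [List.map_map]
    rfl
  act_one q := by
    conv_rhs => rw [← List.map_id q]
    rfl
  inj f := List.map_injective_iff.2 (ev_injective f)
  cont f q := by
    classical
    filter_upwards [t0_agree G f q.toFinset] with g hg
    exact map_agree hg

/-- the family of ranks -/
noncomputable def rS (G : Subgroup (Equiv.Perm Ω)) (R : Set (Ω × List Ω)) (q : List Ω)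
    (B : Finset Ω) : ℝ := (mrk (Clq G R q) B : ℝ)

theorem clq_ev_iff (hS : SMFamily G R) (f : Closure G) (q : List Ω) (A : Finset Ω) (x : Ω) :
    Clq G R (q.map (ev f)) (A.image (ev f)) (ev f x) ↔ Clq G R q A x := by
  rw [clq_iff, clq_iff, ← map_ev_inv1 hS.inv f x q]
  have h1 : bs R (q.map (ev f)) (A.image (ev f)) = (bs R q A).image (ev f) := by
    ext z
    constructor
    · intro h
      rw [mem_bs] at h
      rcases h with h | ⟨h, h'⟩
      · obtain ⟨w, hw, rfl⟩ := List.mem_map.1 h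
        exact Finset.mem_image_of_mem _ (mem_bs.2 (Or.inl hw))
      · obtain ⟨w, hw, rfl⟩ := Finset.mem_image.1 h
        exact Finset.mem_image_of_mem _
          (mem_bs.2 (Or.inr ⟨hw, (map_ev_inv1 hS.inv f w q).2 h'⟩))
    · intro h
      obtain ⟨w, hw, rfl⟩ := Finset.mem_image.1 h
      rw [mem_bs]
      rcases mem_bs.1 hw with hw | ⟨hw, hw'⟩
      · exact Or.inl (List.mem_map_of_mem hw)
      · exact Or.inr ⟨Finset.mem_image_of_mem _ hw, (map_ev_inv1 hS.inv f w q).1 hw'⟩
  rw [h1, alg_ev_iff]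

theorem rS_isRank (hG : Oligomorphic G) (hS : SMFamily G R) (q : List Ω) :
    IsRank (rS G R q) := mrk_isRank (clq_isCl hG hS q)

theorem rS_inv (hG : Oligomorphic G) (hS : SMFamily G R) :
    LInv (listSort G) (selfSort G) (rS G R) := by
  intro f q B
  show ((mrk (Clq G R (q.map (ev f))) (B.image (ev f)) : ℕ) : ℝ) = ((mrk (Clq G R q) B : ℕ) : ℝ)
  rw [mrk_image (clq_isCl hG hS _) (ev_injective f) B]
  intro A x _ _
  exact clq_ev_iff hS f q A x

/-- the dimension over the image, of the strongly minimal set at the image of `q` -/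
noncomputable def dm (G : Subgroup (Equiv.Perm Ω)) (R : Set (Ω × List Ω)) (q : List Ω)
    (f : Closure G) : ℝ≥0∞ := ldelta (listSort G) (selfSort G) (rS G R) q f

theorem dm_mul (hG : Oligomorphic G) (hS : SMFamily G R) (f g : Closure G) (q : List Ω) :
    dm G R q (f * g) = dm G R (q.map (ev g)) f + dm G R q g :=
  ldelta_mul (listSort G) (selfSort G) (rS_isRank hG hS) (rS_inv hG hS) f g q

theorem dm_one (hG : Oligomorphic G) (hS : SMFamily G R) (q : List Ω) :
    dm G R q 1 = 0 := ldelta_one (listSort G) (selfSort G) (rS_isRank hG hS) q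

theorem dm_eq_zero (hG : Oligomorphic G) (hS : SMFamily G R) {q : List Ω} {f : Closure G}
    (h : ∀ x, (x, q.map (ev f)) ∈ R → x ∈ range (ev f)) : dm G R q f = 0 := by
  classical
  unfold dm ldelta
  rw [ENNReal.iSup_eq_zero]
  intro B
  show ENNReal.ofReal _ = 0
  rw [ENNReal.ofReal_eq_zero]
  show cr (rS G R (q.map (ev f))) B (range (ev f)) ≤ 0
  have h1 := cr_le (rS_isRank hG hS (q.map (ev f))) B (X := range (ev f))
    (A := B.filter fun z => (z, q.map (ev f)) ∈ R)
    (fun t ht => h t (Finset.mem_filter.1 ht).2)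
  have h2 : mrk (Clq G R (q.map (ev f))) (B ∪ B.filter fun z => (z, q.map (ev f)) ∈ R) =
      mrk (Clq G R (q.map (ev f))) (B.filter fun z => (z, q.map (ev f)) ∈ R) := by
    apply mrk_span (clq_isCl hG hS _)
    intro b hb
    by_cases hR : (b, q.map (ev f)) ∈ R
    · exact (clq_isCl hG hS _).mem _ _ (Finset.mem_filter.2 ⟨hb, hR⟩)
    · exact Or.inl hR
  have h3 : rS G R (q.map (ev f)) (B ∪ B.filter fun z => (z, q.map (ev f)) ∈ R) =
      rS G R (q.map (ev f)) (B.filter fun z => (z, q.map (ev f)) ∈ R) := by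
    unfold rS
    rw [h2]
  linarith

theorem one_le_dm (hG : Oligomorphic G) (hS : SMFamily G R) {q : List Ω} {f : Closure G}
    {a : Ω} (ha : (a, q.map (ev f)) ∈ R) (ha' : a ∉ range (ev f)) : 1 ≤ dm G R q f := by
  refine le_trans ?_ (le_iSup (fun B => lrho (listSort G) (selfSort G) (rS G R) (q, B) f) {a})
  show 1 ≤ ENNReal.ofReal _
  rw [ENNReal.one_le_ofReal]
  show 1 ≤ cr (rS G R (q.map (ev f))) {a} (range (ev f))
  unfold cr
  haveI : Nonempty {C : Finset Ω // ∀ t ∈ C, t ∈ range (ev f)} := ⟨⟨∅, by simp⟩⟩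
  refine le_ciInf ?_
  rintro ⟨C, hC⟩
  have h1 := mrk_insert (clq_isCl hG hS (q.map (ev f))) C a
  have h2 : ¬ Clq G R (q.map (ev f)) C a := by
    rw [clq_iff, not_or, not_not]
    refine ⟨ha, fun hal => ha' ?_⟩
    apply range_aclosed G f
    refine ⟨_, fun z hz => ?_, hal⟩
    rcases mem_bs.1 hz with hz | hz
    · obtain ⟨w, -, rfl⟩ := List.mem_map.1 hz
      exact ⟨w, rfl⟩
    · exact hC z hz.1
  rw [inc_of_not _ h2] at h1
  show 1 ≤ rS G R (q.map (ev f)) ({a} ∪ C) - rS G R (q.map (ev f)) C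
  rw [← Finset.insert_eq]
  unfold rS
  rw [h1]
  push_cast
  linarith

theorem dm_le_one (hG : Oligomorphic G) (hS : SMFamily G R) {q : List Ω} {f : Closure G}
    {a : Ω} (h : ∀ B : Finset Ω, ∃ A : Finset Ω, (∀ x ∈ A, x ∈ range (ev f)) ∧
      ∀ b ∈ B, Clq G R (q.map (ev f)) (insert a A) b) : dm G R q f ≤ 1 := by
  refine iSup_le fun B => ?_
  show ENNReal.ofReal _ ≤ 1
  rw [ENNReal.ofReal_le_one]
  show cr (rS G R (q.map (ev f))) B (range (ev f)) ≤ 1
  obtain ⟨A, hA, hB⟩ := h B
  have h1 := cr_le (rS_isRank hG hS (q.map (ev f))) B hA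
  have h2 := mrk_span (clq_isCl hG hS (q.map (ev f))) hB
  have h3 := mrk_mono (clq_isCl hG hS (q.map (ev f)))
    (Finset.union_subset_union_right (Finset.subset_insert a A) : B ∪ A ⊆ B ∪ insert a A)
  have h4 := mrk_insert (clq_isCl hG hS (q.map (ev f))) A a
  have h5 : inc (Clq G R (q.map (ev f))) A a ≤ 1 := by
    unfold inc
    split_ifs <;> omega
  have h6 : mrk (Clq G R (q.map (ev f))) (B ∪ A) ≤ mrk (Clq G R (q.map (ev f))) A + 1 := by
    omega
  have h7 : rS G R (q.map (ev f)) (B ∪ A) ≤ rS G R (q.map (ev f)) A + 1 := by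
    unfold rS
    exact_mod_cast h6
  linarith

end

end PST
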