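import Mathlib
import Pool.Agent.Helper26.PST.SM

open TopologicalSpace Set Filter Topology
open scoped ENNReal Pointwise

namespace PST

variable {Ω : Type*} [DecidableEq Ω] {G : Subgroup (Equiv.Perm Ω)} {R : Set (Ω × List Ω)}

theorem acl_mono {X Y : Set Ω} (h : X ⊆ Y) : Acl G X ⊆ Acl G Y := by
  rintro a ⟨K, hK, hal⟩
  exact ⟨K, fun x hx => h (hK x hx), hal⟩

/-- An element of the closure, over `c`, whose image is maximal omitting the point `a` of the
strongly minimal set. -/
theorem exists_minimal [Countable Ω] (hG : Oligomorphic G) (hS : SMFamily G R) {c : List Ω}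
    {a : Ω} (ha' : ¬ IsAlgebraicOver G c.toFinset a) :
    ∃ f : Closure G, (∀ x ∈ c, ev f x = x) ∧ a ∉ range (ev f) ∧
      ∀ b, (b, c) ∈ R → b ∉ range (ev f) → ∃ C : Finset Ω, (∀ z ∈ c, z ∈ C) ∧
        (∀ x ∈ C, x ∈ range (ev f)) ∧ IsAlgebraicOver G (insert a C) b := by
  obtain ⟨f, hf1, hf2, hf3⟩ := exists_maximal_image_fix (G := G) c.toFinset
    (fun C => ¬ IsAlgebraicOver G C a) ha'
    (fun A B hAB hB hA => hB (isAlgebraicOver_mono G hAB hA)) (by
      intro C hC hCa x
      have hfin := finite_algebraic hG (insert x C)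
      obtain ⟨u, hu, hu'⟩ := neumann (stab G C) {a} hfin.toFinset (by
        intro e he hfin'
        rw [Finset.mem_singleton.1 he] at hfin'
        apply hCa
        refine hfin'.subset ?_
        rintro b ⟨g, hg, hgF, rfl⟩
        exact ⟨g, ⟨hg, hgF⟩, rfl⟩)
      have hfix : ∀ y ∈ C, u⁻¹ y = y := by
        intro y hy
        rw [Equiv.Perm.inv_eq_iff_eq]
        exact (hu.2 y hy).symm
      refine ⟨u⁻¹, G.inv_mem hu.1, hfix, ?_⟩
      intro hal
      apply hu' a (Finset.mem_singleton_self a)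
      rw [Set.Finite.mem_toFinset]
      have himg : insert (u⁻¹ x) C = (insert x C).image (u⁻¹ : Equiv.Perm Ω) := by
        rw [Finset.image_insert]
        congr 1
        symm
        rw [Finset.image_congr (g := id) (fun y hy => hfix y hy), Finset.image_id]
      rw [himg] at hal
      have := isAlgebraicOver_image G (G.inv_mem hu.1) hal
      simpa using this)
  refine ⟨f, fun x hx => hf1 x (by simpa using hx), ?_, ?_⟩
  · intro har
    exact hf2 {a} (by simpa using har) (isAlgebraicOver_of_mem G (Finset.mem_singleton_self a))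
  · intro b hb hbr
    obtain ⟨C, hC1, hC2, hC3⟩ := hf3 b hbr
    rw [not_not] at hC3
    refine ⟨C, fun z hz => hC1 (by simpa using hz), hC2, ?_⟩
    exact exchange hG hS (q := c) (fun z hz => hC1 (by simpa using hz)) hb (hf2 C hC2) hC3

/-- The strongly minimal set over `c` is controlled, over every finite set, by finitely many
of its points. -/
def Embedded (G : Subgroup (Equiv.Perm Ω)) (R : Set (Ω × List Ω)) (c : List Ω) : Prop :=
  ∀ C : Finset Ω, (∀ z ∈ c, z ∈ C) → ∃ E : Finset Ω, (∀ e ∈ E, (e, c) ∈ R) ∧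
    ∀ y x, (y, c) ∈ R → (x, c) ∈ R → IsAlgebraicOver G (insert y C) x →
      IsAlgebraicOver G (insert y (c.toFinset ∪ E)) x

theorem map_ev_eq_self {f : Closure G} {c : List Ω} (h : ∀ x ∈ c, ev f x = x) :
    c.map (ev f) = c := by
  conv_rhs => rw [← List.map_id c]
  apply List.map_congr_left
  intro z hz
  exact h z hz

theorem dm_le_one_of_embedded (hG : Oligomorphic G) (hS : SMFamily G R) {c : List Ω} {a : Ω}
    (ha : (a, c) ∈ R) (hE : Embedded G R c) {f : Closure G} (hf : ∀ x ∈ c, ev f x = x)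
    (hmax : ∀ b, (b, c) ∈ R → b ∉ range (ev f) → ∃ C : Finset Ω, (∀ z ∈ c, z ∈ C) ∧
        (∀ x ∈ C, x ∈ range (ev f)) ∧ IsAlgebraicOver G (insert a C) b) :
    dm G R c f ≤ 1 := by
  classical
  apply dm_le_one hG hS (a := a)
  rw [map_ev_eq_self hf]
  intro B
  have hch : ∀ b ∈ B, (b, c) ∈ R ∧ b ∉ range (ev f) → ∃ C : Finset Ω, (∀ z ∈ c, z ∈ C) ∧
        (∀ x ∈ C, x ∈ range (ev f)) ∧ IsAlgebraicOver G (insert a C) b :=
    fun b _ h => hmax b h.1 h.2
  choose! Cb hCb1 hCb2 hCb3 using hch
  let Bn : Finset Ω := B.filter fun b => (b, c) ∈ R ∧ b ∉ range (ev f)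
  have hBn : ∀ b ∈ Bn, b ∈ B ∧ ((b, c) ∈ R ∧ b ∉ range (ev f)) := fun b hb =>
    Finset.mem_filter.1 hb
  let C : Finset Ω := c.toFinset ∪ Bn.biUnion Cb
  have hC : ∀ x ∈ C, x ∈ range (ev f) := by
    intro x hx
    rcases Finset.mem_union.1 hx with hx | hx
    · exact ⟨x, hf x (by simpa using hx)⟩
    · obtain ⟨b, hb, hx'⟩ := Finset.mem_biUnion.1 hx
      exact hCb2 b (hBn b hb).1 (hBn b hb).2 x hx'
  let C0 : Finset Ω := C.preimage (ev f) ((ev_injective f).injOn)
  have hC0 : C0.image (ev f) = C := by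
    ext z
    rw [Finset.mem_image]
    constructor
    · rintro ⟨w, hw, rfl⟩
      exact Finset.mem_preimage.1 hw
    · intro hz
      obtain ⟨w, rfl⟩ := hC z hz
      exact ⟨w, Finset.mem_preimage.2 hz, rfl⟩
  have hcC : ∀ z ∈ c, z ∈ C := fun z hz => Finset.mem_union_left _ (by simpa using hz)
  have hcC0 : ∀ z ∈ c, z ∈ C0 := by
    intro z hz
    rw [Finset.mem_preimage, hf z hz]
    exact hcC z hz
  obtain ⟨E0, hE0, hE0'⟩ := hE C0 hcC0
  obtain ⟨k, hk, hkf⟩ := ev_approx f (C0 ∪ E0)
  have hkc : ∀ z ∈ c, k z = z := by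
    intro z hz
    rw [hkf z (Finset.mem_union_left _ (hcC0 z hz)), hf z hz]
  have hkc' : c.map k = c := map_eq_self hkc
  have hkinv : ∀ y, (y, c) ∈ R → (k⁻¹ y, c) ∈ R := by
    intro y hy
    have := (hS.inv k hk (k⁻¹ y, c)).2 (by simpa [hkc'] using hy)
    exact this
  have hE1 : E0.image (ev f) = E0.image k := by
    apply Finset.image_congr
    intro y hy
    exact (hkf y (Finset.mem_union_right _ hy)).symm
  have hC1 : C = C0.image k := by
    rw [← hC0]
    apply Finset.image_congr
    intro y hy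
    exact (hkf y (Finset.mem_union_left _ hy)).symm
  refine ⟨(B.filter fun b => b ∈ range (ev f)) ∪ E0.image (ev f), ?_, ?_⟩
  · intro x hx
    rcases Finset.mem_union.1 hx with hx | hx
    · exact (Finset.mem_filter.1 hx).2
    · obtain ⟨w, -, rfl⟩ := Finset.mem_image.1 hx
      exact ⟨w, rfl⟩
  · intro b hb
    by_cases hbR : (b, c) ∈ R
    · by_cases hbr : b ∈ range (ev f)
      · apply (clq_isCl hG hS c).mem
        exact Finset.mem_insert_of_mem (Finset.mem_union_left _ (Finset.mem_filter.2 ⟨hb, hbr⟩))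
      · have h1 := hCb3 b hb ⟨hbR, hbr⟩
        have h2 : IsAlgebraicOver G (insert a C) b := by
          refine isAlgebraicOver_mono G ?_ h1
          refine Finset.insert_subset_insert _ ?_
          exact (Finset.subset_biUnion_of_mem Cb (Finset.mem_filter.2 ⟨hb, hbR, hbr⟩)).trans
            Finset.subset_union_right
        have h3 : insert a C = (insert (k⁻¹ a) C0).image k := by
          rw [Finset.image_insert, hC1]
          simp
        have h4 : IsAlgebraicOver G (insert (k⁻¹ a) C0) (k⁻¹ b) := by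
          rw [← alg_image_iff hk, ← h3]
          simpa using h2
        have h5 := hE0' _ _ (hkinv a ha) (hkinv b hbR) h4
        rw [← alg_image_iff hk] at h5
        have h6 : (insert (k⁻¹ a) (c.toFinset ∪ E0)).image k =
            insert a (c.toFinset ∪ E0.image k) := by
          rw [Finset.image_insert, Finset.image_union]
          congr 1
          · simp
          · congr 1
            rw [Finset.image_congr (g := id) (fun y hy => hkc y (by simpa using hy)),
              Finset.image_id]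
        rw [h6] at h5
        rw [clq_iff]
        right
        refine isAlgebraicOver_mono G ?_ (by simpa using h5)
        intro z hz
        rw [mem_bs]
        rcases Finset.mem_insert.1 hz with rfl | hz
        · exact Or.inr ⟨Finset.mem_insert_self _ _, ha⟩
        · rcases Finset.mem_union.1 hz with hz | hz
          · exact Or.inl (by simpa using hz)
          · right
            refine ⟨Finset.mem_insert_of_mem (Finset.mem_union_right _ (hE1 ▸ hz)), ?_⟩
            obtain ⟨e, he, rfl⟩ := Finset.mem_image.1 hz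
            have := (hS.inv k hk (e, c)).1 (hE0 e he)
            simpa [hkc'] using this
    · exact Or.inl hbR

/-- Orthogonality: if the strongly minimal set over `c` is not algebraic over the ones in `Q`
and finitely many points, there is an element of the closure which does not add to the latter
but to the former. -/
theorem exists_orthogonal [Countable Ω] (hG : Oligomorphic G) (hS : SMFamily G R)
    {c : List Ω} {F : Finset Ω} {Q : Finset (List Ω)} (hF : ∀ z ∈ c, z ∈ F)
    (hFQ : ∀ q ∈ Q, ∀ z ∈ q, z ∈ F)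
    (hNI : ∀ E : Finset Ω, ∃ a, (a, c) ∈ R ∧
      a ∉ Acl G ((E : Set Ω) ∪ {x | ∃ q ∈ Q, (x, q) ∈ R})) :
    ∃ h : Closure G, (∀ x ∈ F, ev h x = x) ∧ (∀ q ∈ Q, dm G R q h = 0) ∧
      1 ≤ dm G R c h := by
  set U : Set Ω := {x | ∃ q ∈ Q, (x, q) ∈ R} with hU
  obtain ⟨a, ha, haF⟩ := hNI F
  obtain ⟨h, hh1, hh2, hh3⟩ := exists_maximal_image_fix (G := G) F
    (fun C => a ∉ Acl G ((C : Set Ω) ∪ U)) haF
    (fun A B hAB hB hA => hB (acl_mono (union_subset_union_left _ (by exact_mod_cast hAB)) hA))
    (by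
      intro C hFC hC x
      obtain ⟨a', ha', ha'2⟩ := hNI (insert x C)
      have h1 : ¬ IsAlgebraicOver G C a := fun hal =>
        hC ⟨C, fun z hz => Or.inl (by exact_mod_cast hz), hal⟩
      have h2 : ¬ IsAlgebraicOver G C a' := fun hal =>
        ha'2 ⟨C, fun z hz => Or.inl (by
          rw [Finset.coe_insert]
          exact Or.inr (by exact_mod_cast hz)), hal⟩
      obtain ⟨g, hg, hgC, hga⟩ := hS.sm c C a a' (fun z hz => hFC (hF z hz)) ha ha' h1 h2
      have hfix : ∀ y ∈ C, g⁻¹ y = y := by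
        intro y hy
        rw [Equiv.Perm.inv_eq_iff_eq]
        exact (hgC y hy).symm
      refine ⟨g⁻¹, G.inv_mem hg, hfix, ?_⟩
      rintro ⟨K, hK, hal⟩
      apply ha'2
      rw [← alg_image_iff hg, hga] at hal
      refine ⟨K.image g, ?_, hal⟩
      intro z hz
      obtain ⟨w, hw, rfl⟩ := Finset.mem_image.1 hz
      rcases hK w hw with hw' | ⟨q, hq, hwq⟩
      · left
        rw [Finset.coe_insert] at hw' ⊢
        rcases hw' with rfl | hw'
        · left
          simp
        · right
          rw [hgC w (by exact_mod_cast hw')]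
          exact hw'
      · right
        refine ⟨q, hq, ?_⟩
        have h3 := (hS.inv g hg (w, q)).1 hwq
        have h4 : q.map g = q := map_eq_self fun z hz => hgC z (hFC (hFQ q hq z hz))
        simpa only [h4] using h3)
  refine ⟨h, hh1, ?_, ?_⟩
  · intro q hq
    apply dm_eq_zero hG hS
    have h4 : q.map (ev h) = q := map_ev_eq_self fun z hz => hh1 z (hFQ q hq z hz)
    rw [h4]
    intro x hx
    by_contra hxr
    obtain ⟨C, -, hC2, hC3⟩ := hh3 x hxr
    apply hC3
    have h5 := hh2 C hC2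
    intro hal
    apply h5
    refine acl_mono ?_ hal
    rw [Finset.coe_insert]
    rintro z ((rfl | hz) | hz)
    · exact Or.inr ⟨q, hq, hx⟩
    · exact Or.inl hz
    · exact Or.inr hz
  · have h4 : c.map (ev h) = c := map_ev_eq_self fun z hz => hh1 z (hF z hz)
    apply one_le_dm hG hS (a := a)
    · rw [h4]
      exact ha
    · intro har
      have h5 := hh2 {a} (by simpa using har)
      apply h5
      exact subset_acl G _ (Or.inl (by simp))

theorem climb {x : Ω} (K : Finset Ω) : ∀ E : Finset Ω, ¬ IsAlgebraicOver G E x →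
    IsAlgebraicOver G (E ∪ K) x → ∃ E' : Finset Ω, E ⊆ E' ∧ ∃ u ∈ K,
      ¬ IsAlgebraicOver G E' x ∧ IsAlgebraicOver G (insert u E') x := by
  induction K using Finset.induction_on with
  | empty =>
    intro E hE hEK
    rw [Finset.union_empty] at hEK
    exact absurd hEK hE
  | insert u K _ ih =>
    intro E hE hEK
    by_cases hu : IsAlgebraicOver G (insert u E) x
    · exact ⟨E, subset_rfl, u, Finset.mem_insert_self _ _, hE, hu⟩
    · obtain ⟨E', hE', w, hw, h1, h2⟩ := ih (insert u E) hu (by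
        have : insert u E ∪ K = E ∪ insert u K := by
          rw [Finset.insert_union, Finset.union_insert]
        rw [this]
        exact hEK)
      exact ⟨E', (Finset.subset_insert _ _).trans hE', w, Finset.mem_insert_of_mem hw, h1, h2⟩

theorem exists_nonorthogonal (hG : Oligomorphic G) (hS : SMFamily G R)
    {c : List Ω} {F : Finset Ω} {Q : Finset (List Ω)} (hc : ∃ x, (x, c) ∈ R) {E : Finset Ω}
    (hE : ∀ a, (a, c) ∈ R → a ∈ Acl G ((E : Set Ω) ∪ {x | ∃ q ∈ Q, (x, q) ∈ R})) :
    ∃ q ∈ Q, ∃ (E' : Finset Ω) (x u : Ω), F ⊆ E' ∧ (x, c) ∈ R ∧ (u, q) ∈ R ∧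
      ¬ IsAlgebraicOver G E' x ∧ IsAlgebraicOver G (insert u E') x := by
  obtain ⟨x0, hx0⟩ := hc
  have hfin := finite_algebraic hG (E ∪ F)
  obtain ⟨x, hx, hx'⟩ := ((hS.inf c x0 hx0).sdiff hfin).nonempty
  obtain ⟨K, hK, hal⟩ := hE x hx
  obtain ⟨E', hE', u, hu, h1, h2⟩ := climb (G := G) (x := x) (K \ (E ∪ F)) (E ∪ F) hx' (by
    refine isAlgebraicOver_mono G ?_ hal
    rw [Finset.union_sdiff_self_eq_union]
    exact Finset.subset_union_right)
  rw [Finset.mem_sdiff] at hu
  rcases hK u hu.1 with huE | ⟨q, hq, huq⟩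
  · exact absurd (Finset.mem_union_left _ (by exact_mod_cast huE)) hu.2
  · exact ⟨q, hq, E', x, u, Finset.subset_union_right.trans hE', hx, huq, h1, h2⟩

/-- A strongly minimal set not orthogonal to the one over `c` grows, too. -/
theorem one_le_dm_of_nonorthogonal (hG : Oligomorphic G) (hS : SMFamily G R)
    {c q : List Ω} {E' : Finset Ω} {x u a : Ω} (hcE : ∀ z ∈ c, z ∈ E') (hqE : ∀ z ∈ q, z ∈ E')
    (hx : (x, c) ∈ R) (hu : (u, q) ∈ R) (hx' : ¬ IsAlgebraicOver G E' x)
    (hxu : IsAlgebraicOver G (insert u E') x) {f g : Closure G} (hf : ∀ z ∈ c, ev f z = z)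
    (hg : ∀ z ∈ c, ev g z = z) (ha : (a, c) ∈ R) (ha' : a ∉ range (ev f)) :
    1 ≤ dm G R (q.map (ev g)) f := by
  obtain ⟨k, hk, hkf⟩ := ev_approx (f * g) (insert x (insert u E'))
  have hkE : ∀ z ∈ E', k z = ev (f * g) z := fun z hz =>
    hkf z (Finset.mem_insert_of_mem (Finset.mem_insert_of_mem hz))
  have hkr : ∀ z ∈ E'.image k, z ∈ range (ev f) := by
    intro z hz
    obtain ⟨w, hw, rfl⟩ := Finset.mem_image.1 hz
    rw [hkE w hw]
    exact ⟨ev g w, rfl⟩
  have hkc : ∀ z ∈ c, k z = z := by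
    intro z hz
    rw [hkE z (hcE z hz), ev_mul, hg z hz, hf z hz]
  have hkc' : c.map k = c := map_eq_self hkc
  have h1 : (k x, c) ∈ R := by
    have := (hS.inv k hk (x, c)).1 hx
    simpa [hkc'] using this
  have h2 : ¬ IsAlgebraicOver G (E'.image k) (k x) := by
    rw [alg_image_iff hk]
    exact hx'
  have h3 : ¬ IsAlgebraicOver G (E'.image k) a := by
    intro hal
    apply ha'
    exact range_aclosed G f ⟨_, hkr, hal⟩
  obtain ⟨g', hg', hg'E, hg'a⟩ := hS.sm c (E'.image k) (k x) a (by
    intro z hz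
    rw [← hkc z hz]
    exact Finset.mem_image_of_mem _ (hcE z hz)) h1 ha h2 h3
  have hq2 : (q.map k).map g' = (q.map (ev g)).map (ev f) := by
    rw [← map_map_ev, List.map_map]
    apply List.map_congr_left
    intro z hz
    show g' (k z) = ev (f * g) z
    rw [hg'E _ (Finset.mem_image_of_mem _ (hqE z hz)), hkE z (hqE z hz)]
  have h4 : (g' (k u), (q.map (ev g)).map (ev f)) ∈ R := by
    rw [← hq2]
    exact (hS.inv g' hg' (k u, q.map k)).1 ((hS.inv k hk (u, q)).1 hu)
  refine one_le_dm hG hS h4 ?_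
  intro hur
  apply ha'
  have h5 : IsAlgebraicOver G (((insert u E').image k).image g') a := by
    rw [← hg'a, alg_image_iff hg', alg_image_iff hk]
    exact hxu
  refine range_aclosed G f ⟨_, ?_, h5⟩
  intro z hz
  obtain ⟨w, hw, rfl⟩ := Finset.mem_image.1 hz
  obtain ⟨y, hy, rfl⟩ := Finset.mem_image.1 hw
  rcases Finset.mem_insert.1 hy with rfl | hy
  · exact hur
  · rw [hg'E _ (Finset.mem_image_of_mem _ hy)]
    exact hkr _ (Finset.mem_image_of_mem _ hy)

theorem ev_pow_fix {f : Closure G} {c : List Ω} (hf : ∀ z ∈ c, ev f z = z) (j : ℕ) :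
    ∀ z ∈ c, ev (f ^ j) z = z := by
  induction j with
  | zero => intro z _; rfl
  | succ j ih =>
    intro z hz
    rw [pow_succ', ev_mul, ih z hz, hf z hz]

/-- If there is an embedded strongly minimal set definable with parameters, there are
infinitely many Polish semigroup topologies. -/
theorem infinite_of_stronglyMinimal [Countable Ω] (hG : Oligomorphic G) (hS : SMFamily G R)
    {c : List Ω} (hc : ∃ x, (x, c) ∈ R) (hE : Embedded G R c) :
    (PolishSemigroupTopologies G).Infinite := by
  classical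
  obtain ⟨x0, hx0⟩ := hc
  have hfin := finite_algebraic hG c.toFinset
  obtain ⟨a, ha, ha'⟩ := ((hS.inf c x0 hx0).sdiff hfin).nonempty
  obtain ⟨f, hf1, hf2, hf3⟩ := exists_minimal hG hS (c := c) ha'
  have hcf : c.map (ev f) = c := map_ev_eq_self hf1
  have hdm : dm G R c f = 1 := le_antisymm
    (dm_le_one_of_embedded hG hS (a := a) ha hE hf1 hf3)
    (one_le_dm hG hS (a := a) (by rw [hcf]; exact ha) hf2)
  have hdmj : ∀ j : ℕ, dm G R c (f ^ j) = j := by
    intro j
    induction j with
    | zero => rw [pow_zero, dm_one hG hS, Nat.cast_zero]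
    | succ j ih =>
      rw [pow_succ', dm_mul hG hS, ih, map_ev_eq_self (ev_pow_fix hf1 j), hdm]
      push_cast
      ring
  have hne : ∀ j k : ℕ, j < k → ltauv (listSort G) (selfSort G) (rS G R) (j : ℝ≥0∞) ≠
      ltauv (listSort G) (selfSort G) (rS G R) (k : ℝ≥0∞) := by
    intro j k hjk
    refine ltauv_ne (listSort G) (selfSort G) (rS_isRank hG hS) (rS_inv hG hS) (f := f ^ j)
      (c := c) ?_ ?_ ?_
    · show dm G R c (f ^ j) ≠ ⊤
      rw [hdmj]
      exact ENNReal.natCast_ne_top j
    · show dm G R c (f ^ j) + 1 ≤ _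
      rw [hdmj]
      exact_mod_cast hjk
    · intro F Q hQ
      let F' : Finset Ω := F ∪ c.toFinset ∪ Q.biUnion List.toFinset
      have hcF : ∀ z ∈ c, z ∈ F' := fun z hz =>
        Finset.mem_union_left _ (Finset.mem_union_right _ (by simpa using hz))
      have hQF : ∀ q ∈ Q, ∀ z ∈ q, z ∈ F' := fun q hq z hz =>
        Finset.mem_union_right _ (Finset.mem_biUnion.2 ⟨q, hq, by simpa using hz⟩)
      by_cases hNI : ∀ E : Finset Ω, ∃ a, (a, c) ∈ R ∧
          a ∉ Acl G ((E : Set Ω) ∪ {x | ∃ q ∈ Q, (x, q) ∈ R})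
      · obtain ⟨h, hh1, hh2, hh3⟩ := exists_orthogonal hG hS hcF hQF hNI
        exact ⟨h, fun x hx => hh1 x (Finset.mem_union_left _ (Finset.mem_union_left _ hx)),
          hh2, hh3⟩
      · exfalso
        push Not at hNI
        obtain ⟨E, hE'⟩ := hNI
        obtain ⟨q, hq, E', x, u, hFE, hx, hu, h1, h2⟩ :=
          exists_nonorthogonal (F := F') hG hS ⟨x0, hx0⟩ hE'
        have hgrow : ∀ i : ℕ, (i : ℝ≥0∞) ≤ dm G R q (f ^ i) := by
          intro i
          induction i with
          | zero => simp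
          | succ i ih =>
            rw [pow_succ', dm_mul hG hS]
            have h3 := one_le_dm_of_nonorthogonal hG hS (fun z hz => hFE (hcF z hz))
              (fun z hz => hFE (hQF q hq z hz)) hx hu h1 h2 hf1 (ev_pow_fix hf1 i) ha hf2
            push_cast
            rw [add_comm (i : ℝ≥0∞) 1]
            gcongr
        exact absurd (hQ q hq) (not_lt.2 (hgrow j))
  have hinj : Function.Injective (fun j : ℕ =>
      ltauv (listSort G) (selfSort G) (rS G R) (j : ℝ≥0∞)) := by
    intro j k hjk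
    rcases lt_trichotomy j k with h | h | h
    · exact absurd hjk (hne j k h)
    · exact h
    · exact absurd hjk.symm (hne k j h)
  refine (Set.infinite_range_of_injective hinj).mono ?_
  rintro _ ⟨j, rfl⟩
  exact ltauv_mem (listSort G) (selfSort G) (rS_isRank hG hS) (rS_inv hG hS) _

end PST
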