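import Mathlib
import Pool.Agent.Helper26.PST.SMThm

open TopologicalSpace Set Filter Topology
open scoped ENNReal Pointwise

namespace PST

variable {Ω : Type*} [DecidableEq Ω] {G : Subgroup (Equiv.Perm Ω)}

/-- the closure relation on an invariant set of points -/
def ClT (G : Subgroup (Equiv.Perm Ω)) (T : Set Ω) (A : Finset Ω) (x : Ω) : Prop :=
  x ∉ T ∨ ∃ K : Finset Ω, (∀ z ∈ K, z ∈ A ∧ z ∈ T) ∧ IsAlgebraicOver G K x

theorem clT_isCl {T : Set Ω}
    (hex : ∀ (D : Finset Ω) (x y : Ω), (∀ z ∈ D, z ∈ T) → x ∈ T → y ∈ T →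
      ¬ IsAlgebraicOver G D x → IsAlgebraicOver G (insert y D) x →
      IsAlgebraicOver G (insert x D) y) : IsCl (ClT G T) where
  mono A B x hAB h := by
    rcases h with h | ⟨K, hK, h⟩
    · exact Or.inl h
    · exact Or.inr ⟨K, fun z hz => ⟨hAB (hK z hz).1, (hK z hz).2⟩, h⟩
  mem A x hx := by
    by_cases hT : x ∈ T
    · refine Or.inr ⟨{x}, ?_, isAlgebraicOver_of_mem G (Finset.mem_singleton_self x)⟩
      intro z hz
      rw [Finset.mem_singleton.1 hz]
      exact ⟨hx, hT⟩
    · exact Or.inl hT
  trans A x y hx hy := by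
    rcases hy with hy | ⟨K2, hK2, hy⟩
    · exact Or.inl hy
    · right
      by_cases hT : x ∈ T
      · obtain ⟨K1, hK1, hx1⟩ := hx.resolve_left (not_not.2 hT)
        refine ⟨K1 ∪ K2.erase x, ?_, ?_⟩
        · intro z hz
          rcases Finset.mem_union.1 hz with hz | hz
          · exact hK1 z hz
          · obtain ⟨hzx, hz⟩ := Finset.mem_erase.1 hz
            refine ⟨?_, (hK2 z hz).2⟩
            rcases Finset.mem_insert.1 (hK2 z hz).1 with h | h
            · exact absurd h hzx
            · exact h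
        · apply isAlgebraicOver_trans (E := {x})
          · intro e he
            rw [Finset.mem_singleton.1 he]
            exact isAlgebraicOver_mono G Finset.subset_union_left hx1
          · refine isAlgebraicOver_mono G ?_ hy
            intro z hz
            by_cases hzx : z = x
            · exact Finset.mem_union_right _ (Finset.mem_singleton.2 hzx)
            · exact Finset.mem_union_left _ (Finset.mem_union_right _
                (Finset.mem_erase.2 ⟨hzx, hz⟩))
      · refine ⟨K2, fun z hz => ⟨?_, (hK2 z hz).2⟩, hy⟩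
        rcases Finset.mem_insert.1 (hK2 z hz).1 with h | h
        · exact absurd (h ▸ (hK2 z hz).2) hT
        · exact h
  exch A x y hx hy := by
    have hxT : x ∈ T := by
      by_contra h
      exact hx (Or.inl h)
    have hxA : ∀ K : Finset Ω, (∀ z ∈ K, z ∈ A ∧ z ∈ T) → ¬ IsAlgebraicOver G K x :=
      fun K hK h => hx (Or.inr ⟨K, hK, h⟩)
    obtain ⟨K, hK, hal⟩ := hy.resolve_left (not_not.2 hxT)
    by_cases hyT : y ∈ T
    · right
      have hD : ∀ z ∈ K.erase y, z ∈ A ∧ z ∈ T := by
        intro z hz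
        obtain ⟨hzy, hz⟩ := Finset.mem_erase.1 hz
        refine ⟨?_, (hK z hz).2⟩
        rcases Finset.mem_insert.1 (hK z hz).1 with h | h
        · exact absurd h hzy
        · exact h
      have h1 := hex (K.erase y) x y (fun z hz => (hD z hz).2) hxT hyT (hxA _ hD)
        (isAlgebraicOver_mono G (by
          intro z hz
          by_cases hzy : z = y
          · exact Finset.mem_insert.2 (Or.inl hzy)
          · exact Finset.mem_insert_of_mem (Finset.mem_erase.2 ⟨hzy, hz⟩)) hal)
      refine ⟨insert x (K.erase y), ?_, h1⟩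
      intro z hz
      rcases Finset.mem_insert.1 hz with rfl | hz
      · exact ⟨Finset.mem_insert_self _ _, hxT⟩
      · exact ⟨Finset.mem_insert_of_mem (hD z hz).1, (hD z hz).2⟩
    · exact Or.inl hyT

/-- If the algebraic closure is a pregeometry on an invariant set `T` and is controlled on `T`,
over every finite set, by finitely many points of `T`, there are infinitely many Polish
semigroup topologies. -/
theorem infinite_of_geometric [Countable Ω] (hG : Oligomorphic G) {T : Set Ω}
    (hT : ∀ g ∈ G, ∀ x ∈ T, g x ∈ T) {a : Ω} (ha : a ∈ T) (ha' : ¬ IsAlgebraicOver G ∅ a)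
    (hex : ∀ (D : Finset Ω) (x y : Ω), (∀ z ∈ D, z ∈ T) → x ∈ T → y ∈ T →
      ¬ IsAlgebraicOver G D x → IsAlgebraicOver G (insert y D) x →
      IsAlgebraicOver G (insert x D) y)
    (hem : ∀ C : Finset Ω, ∃ E : Finset Ω, (∀ z ∈ E, z ∈ T) ∧ ∀ x ∈ T, ∀ y ∈ T,
      IsAlgebraicOver G (insert y C) x → IsAlgebraicOver G (insert y E) x) :
    (PolishSemigroupTopologies G).Infinite := by
  classical
  obtain ⟨f, -, hf2, hf3⟩ := exists_maximal_image_fix (G := G) ∅
    (fun C => ¬ IsAlgebraicOver G C a) ha'
    (fun A B hAB hB hA => hB (isAlgebraicOver_mono G hAB hA)) (by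
      intro C _ hCa x
      have hfin := finite_algebraic hG (insert x C)
      obtain ⟨u, hu, hu'⟩ := neumann (stab G C) {a} hfin.toFinset (by
        intro e he hfin'
        rw [Finset.mem_singleton.1 he] at hfin'
        apply hCa
        refine hfin'.subset ?_
        rintro b ⟨g, hg, hgF, rfl⟩
        exact ⟨g, ⟨hg, hgF⟩, rfl⟩)
      have hfix : ∀ y ∈ C, u⁻¹ y = y := by
        intro y hy
        rw [Equiv.Perm.inv_eq_iff_eq]
        exact (hu.2 y hy).symm
      refine ⟨u⁻¹, G.inv_mem hu.1, hfix, ?_⟩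
      intro hal
      apply hu' a (Finset.mem_singleton_self a)
      rw [Set.Finite.mem_toFinset]
      have himg : insert (u⁻¹ x) C = (insert x C).image (u⁻¹ : Equiv.Perm Ω) := by
        rw [Finset.image_insert]
        congr 1
        symm
        rw [Finset.image_congr (g := id) (fun y hy => hfix y hy), Finset.image_id]
      rw [himg] at hal
      have := isAlgebraicOver_image G (G.inv_mem hu.1) hal
      simpa using this)
  have har : a ∉ range (ev f) := fun har =>
    hf2 {a} (by simpa using har) (isAlgebraicOver_of_mem G (Finset.mem_singleton_self a))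
  -- new points of `T` are dependent on `a` over the points of `T` in the image
  have hnew : ∀ b ∈ T, b ∉ range (ev f) → ∃ E : Finset Ω, (∀ z ∈ E, z ∈ T) ∧
      (∀ z ∈ E, z ∈ range (ev f)) ∧ IsAlgebraicOver G (insert a E) b := by
    intro b hb hbr
    obtain ⟨C, -, hC2, hC3⟩ := hf3 b hbr
    rw [not_not] at hC3
    let C0 : Finset Ω := C.preimage (ev f) ((ev_injective f).injOn)
    have hC0 : C0.image (ev f) = C := by
      ext z
      rw [Finset.mem_image]
      constructor
      · rintro ⟨w, hw, rfl⟩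
        exact Finset.mem_preimage.1 hw
      · intro hz
        obtain ⟨w, rfl⟩ := hC2 z hz
        exact ⟨w, Finset.mem_preimage.2 hz, rfl⟩
    obtain ⟨E0, hE0, hE0'⟩ := hem C0
    obtain ⟨k, hk, hkf⟩ := ev_approx f (C0 ∪ E0)
    have hC1 : C = C0.image k := by
      rw [← hC0]
      apply Finset.image_congr
      intro y hy
      exact (hkf y (Finset.mem_union_left _ hy)).symm
    have hkr : ∀ z ∈ E0.image k, z ∈ range (ev f) := by
      intro z hz
      obtain ⟨w, hw, rfl⟩ := Finset.mem_image.1 hz
      exact ⟨w, (hkf w (Finset.mem_union_right _ hw)).symm⟩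
    have hkT : ∀ z ∈ E0.image k, z ∈ T := by
      intro z hz
      obtain ⟨w, hw, rfl⟩ := Finset.mem_image.1 hz
      exact hT k hk w (hE0 w hw)
    have h1 : IsAlgebraicOver G (insert (k⁻¹ b) C0) (k⁻¹ a) := by
      rw [← alg_image_iff hk, Finset.image_insert, ← hC1]
      simpa using hC3
    have h2 := hE0' _ (hT _ (G.inv_mem hk) a ha) _ (hT _ (G.inv_mem hk) b hb) h1
    rw [← alg_image_iff hk, Finset.image_insert] at h2
    have h3 : IsAlgebraicOver G (insert b (E0.image k)) a := by simpa using h2
    refine ⟨E0.image k, hkT, hkr, hex _ a b hkT ha hb ?_ h3⟩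
    intro hal
    exact har (range_aclosed G f ⟨_, hkr, hal⟩)
  have hcl := clT_isCl (G := G) hex
  let r : Finset Ω → ℝ := fun B => (mrk (ClT G T) B : ℝ)
  have hr : IsRank r := mrk_isRank hcl
  have hrinv : RankInv (selfSort G) r := by
    intro g B
    show ((mrk (ClT G T) (B.image (ev g)) : ℕ) : ℝ) = ((mrk (ClT G T) B : ℕ) : ℝ)
    rw [mrk_image hcl (ev_injective g) B]
    intro A x _ _
    have hTg : ∀ z, ev g z ∈ T ↔ z ∈ T := by
      intro z
      obtain ⟨k, hk, hk'⟩ := ev_approx g {z}
      rw [← hk' z (Finset.mem_singleton_self z)]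
      constructor
      · intro h
        have := hT k⁻¹ (G.inv_mem hk) _ h
        simpa using this
      · exact hT k hk z
    constructor
    · rintro (h | ⟨K, hK, h⟩)
      · exact Or.inl fun h' => h ((hTg x).2 h')
      · right
        refine ⟨K.preimage (ev g) ((ev_injective g).injOn), ?_, ?_⟩
        · intro z hz
          obtain ⟨h1, h2⟩ := hK _ (Finset.mem_preimage.1 hz)
          obtain ⟨w, hw, hwz⟩ := Finset.mem_image.1 h1
          rw [ev_injective g hwz] at hw
          exact ⟨hw, (hTg z).1 h2⟩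
        · rw [← alg_ev_iff g]
          refine isAlgebraicOver_mono G ?_ h
          intro z hz
          obtain ⟨w, hw, rfl⟩ := Finset.mem_image.1 (hK z hz).1
          exact Finset.mem_image_of_mem _ (Finset.mem_preimage.2 hz)
    · rintro (h | ⟨K, hK, h⟩)
      · exact Or.inl fun h' => h ((hTg x).1 h')
      · right
        refine ⟨K.image (ev g), ?_, (alg_ev_iff g).2 h⟩
        intro z hz
        obtain ⟨w, hw, rfl⟩ := Finset.mem_image.1 hz
        exact ⟨Finset.mem_image_of_mem _ (hK w hw).1, (hTg w).2 (hK w hw).2⟩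
  have hlow : 1 ≤ rk (selfSort G) r {a} f := by
    unfold rk cr
    haveI : Nonempty {C : Finset Ω // ∀ t ∈ C, t ∈ range ((selfSort G).act f)} :=
      ⟨⟨∅, by simp⟩⟩
    refine le_ciInf ?_
    rintro ⟨C, hC⟩
    have h1 := mrk_insert hcl C a
    have h2 : ¬ ClT G T C a := by
      rintro (h | ⟨K, hK, h⟩)
      · exact h ha
      · exact har (range_aclosed G f ⟨K, fun z hz => hC z (hK z hz).1, h⟩)
    rw [inc_of_not _ h2] at h1
    show 1 ≤ r ({a} ∪ C) - r C
    rw [← Finset.insert_eq]
    simp only [r]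
    rw [h1]
    push_cast
    linarith
  have hup : ∀ B : Finset Ω, rk (selfSort G) r B f ≤ 1 := by
    intro B
    have hch : ∀ b ∈ B, b ∈ T ∧ b ∉ range (ev f) → ∃ E : Finset Ω, (∀ z ∈ E, z ∈ T) ∧
      (∀ z ∈ E, z ∈ range (ev f)) ∧ IsAlgebraicOver G (insert a E) b :=
      fun b _ h => hnew b h.1 h.2
    choose! Eb hEb1 hEb2 hEb3 using hch
    let Bn : Finset Ω := B.filter fun b => b ∈ T ∧ b ∉ range (ev f)
    have hBn : ∀ b ∈ Bn, b ∈ B ∧ (b ∈ T ∧ b ∉ range (ev f)) := fun b hb =>
      Finset.mem_filter.1 hb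
    let A : Finset Ω := (B.filter fun b => b ∈ range (ev f)) ∪ Bn.biUnion Eb
    have hA : ∀ x ∈ A, x ∈ range (ev f) := by
      intro x hx
      rcases Finset.mem_union.1 hx with hx | hx
      · exact (Finset.mem_filter.1 hx).2
      · obtain ⟨b, hb, hx'⟩ := Finset.mem_biUnion.1 hx
        exact hEb2 b (hBn b hb).1 (hBn b hb).2 x hx'
    have hspan : ∀ b ∈ B, ClT G T (insert a A) b := by
      intro b hb
      by_cases hbT : b ∈ T
      · by_cases hbr : b ∈ range (ev f)
        · exact hcl.mem _ _ (Finset.mem_insert_of_mem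
            (Finset.mem_union_left _ (Finset.mem_filter.2 ⟨hb, hbr⟩)))
        · right
          refine ⟨insert a (Eb b), ?_, hEb3 b hb ⟨hbT, hbr⟩⟩
          intro z hz
          rcases Finset.mem_insert.1 hz with rfl | hz
          · exact ⟨Finset.mem_insert_self _ _, ha⟩
          · exact ⟨Finset.mem_insert_of_mem (Finset.mem_union_right _
              (Finset.mem_biUnion.2 ⟨b, Finset.mem_filter.2 ⟨hb, hbT, hbr⟩, hz⟩)),
              hEb1 b hb ⟨hbT, hbr⟩ z hz⟩
      · exact Or.inl hbT
    have h1 : rk (selfSort G) r B f ≤ r (B ∪ A) - r A := cr_le hr B hA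
    have h2 := mrk_span hcl hspan
    have h3 := mrk_mono hcl
      (Finset.union_subset_union_right (Finset.subset_insert a A) : B ∪ A ⊆ B ∪ insert a A)
    have h4 := mrk_insert hcl A a
    have h5 : inc (ClT G T) A a ≤ 1 := by
      unfold inc
      split_ifs <;> omega
    have h6 : mrk (ClT G T) (B ∪ A) ≤ mrk (ClT G T) A + 1 := by omega
    have h7 : r (B ∪ A) ≤ r A + 1 := by
      simp only [r]
      exact_mod_cast h6
    linarith
  have hne0 : delta (selfSort G) r f ≠ 0 := by
    have h1 : (1 : ℝ≥0∞) ≤ delta (selfSort G) r f := by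
      refine le_trans ?_ (le_iSup (fun B => rho (selfSort G) r B f) {a})
      show 1 ≤ ENNReal.ofReal _
      rw [ENNReal.one_le_ofReal]
      exact hlow
    intro h
    rw [h] at h1
    exact absurd h1 (by simp)
  have hnetop : delta (selfSort G) r f ≠ ⊤ := by
    have h1 : delta (selfSort G) r f ≤ ENNReal.ofReal 1 :=
      iSup_le fun B => ENNReal.ofReal_le_ofReal (hup B)
    exact ne_top_of_le_ne_top ENNReal.ofReal_ne_top h1
  intro hfin
  rcases delta_zero_or_top (selfSort G) hr hrinv hfin f with h | h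
  · exact hne0 h
  · exact hnetop h

end PST
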