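import Mathlib
import Pool.Agent.Helper26.PST.Cocycle

open TopologicalSpace Set Filter Topology
open scoped ENNReal

namespace PST

variable {Ω : Type*} {G : Subgroup (Equiv.Perm Ω)}

/-- the one-point sort -/
def unitSort (G : Subgroup (Equiv.Perm Ω)) : GSort G Unit where
  act _ t := t
  act_mul _ _ _ := rfl
  act_one _ := rfl
  inj _ _ _ h := h
  cont _ _ := Filter.Eventually.of_forall fun _ => rfl

/-- A lower semicontinuous additive invariant with a value different from zero and infinity gives
infinitely many Polish semigroup topologies. -/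
theorem infinite_of_additive [Countable Ω] (τ : TopologicalSpace (Closure G))
    (hτ : τ ∈ PolishSemigroupTopologies G) (hle : τ ≤ t0 G)
    (hone : @nhds _ (t0 G) 1 ≤ @nhds _ τ 1) (δ : Closure G → ℝ≥0∞)
    (h1 : δ 1 = 0) (hmul : ∀ f g, δ (f * g) = δ f + δ g)
    (hlsc : @LowerSemicontinuous _ ℝ≥0∞ τ _ δ) (f : Closure G) (h0 : δ f ≠ 0)
    (htop : δ f ≠ ⊤) : (PolishSemigroupTopologies G).Infinite := by
  have hC : IsCocycle (unitSort G) τ (fun _ => δ) :=
    { polish := hτ.1
      mul := fun x y => by
        letI := τ
        haveI := hτ.2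
        exact tendsto_mul.comp (by rw [nhds_prod_eq]; exact tendsto_id) |>.mono_left le_rfl
      le := fun x => nhds_mono hle
      one := hone
      act := fun _ x y => hmul x y
      unit := fun _ => h1
      lsc := fun _ x c hc => hlsc x c hc }
  refine hC.infinite (c := ()) (f₁ := f) rfl h0 (fun _ _ _ => le_rfl) htop ?_
  intro Q hQ
  refine ⟨f, fun q hq => ?_, h0⟩
  exact absurd (fun x hx => hx) (hQ q hq).2

end PST
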