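import Mathlib
import Pool.Agent.Helper26.PST.Cocycle
import Pool.Agent.Helper26.PST.SM

open TopologicalSpace Set Filter Topology
open scoped ENNReal

namespace PST

variable {Ω : Type*} [DecidableEq Ω] {G : Subgroup (Equiv.Perm Ω)} {R : Set (Ω × List Ω)}

/-- the local coranks form a cocycle -/
theorem isCocycle_ldelta [Countable Ω] {P T : Type*} [Countable P] [Countable T]
    [DecidableEq T] (𝒬 : GSort G P) (𝒯 : GSort G T) {r : P → Finset T → ℝ}
    (hr : ∀ p, IsRank (r p)) (hinv : LInv 𝒬 𝒯 r) :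
    IsCocycle 𝒬 (ltau 𝒬 𝒯 r) (ldelta 𝒬 𝒯 r) where
  polish := polish_ltau 𝒬 𝒯 hr
  mul := ltau_mul 𝒬 𝒯 hr hinv
  le := ltau_le 𝒬 𝒯
  one := nhds_ltau_one 𝒬 𝒯 hr
  act p f g := ldelta_mul 𝒬 𝒯 hr hinv f g p
  unit := ldelta_one 𝒬 𝒯 hr
  lsc p f _ hc := ldelta_lsc 𝒬 𝒯 f p hc

/-- A family of sets with exchange, uniformly defined by `R`. -/
structure GFamily (G : Subgroup (Equiv.Perm Ω)) (R : Set (Ω × List Ω)) : Prop where
  inv : Inv1 G R
  exch : ∀ (q : List Ω) (D : Finset Ω) (x y : Ω), (∀ z ∈ D, (z, q) ∈ R) → (x, q) ∈ R →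
    (y, q) ∈ R → ¬ IsAlgebraicOver G (q.toFinset ∪ D) x →
    IsAlgebraicOver G (insert y (q.toFinset ∪ D)) x →
    IsAlgebraicOver G (insert x (q.toFinset ∪ D)) y

theorem GFamily.isCl (hS : GFamily G R) (q : List Ω) : IsCl (Clq G R q) where
  mono A B x hAB h := by
    rw [clq_iff] at h ⊢
    exact h.imp id fun h' => isAlgebraicOver_mono G (bs_mono hAB) h'
  mem A x hx := by
    rw [clq_iff]
    by_cases hR : (x, q) ∈ R
    · exact Or.inr (isAlgebraicOver_of_mem G (mem_bs.2 (Or.inr ⟨hx, hR⟩)))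
    · exact Or.inl hR
  trans A x y hx hy := by
    rw [clq_iff] at hx hy ⊢
    rcases hy with hy | hy
    · exact Or.inl hy
    · right
      by_cases hR : (x, q) ∈ R
      · have hx' : IsAlgebraicOver G (bs R q A) x := hx.resolve_left (not_not.2 hR)
        rw [bs_insert_of_mem hR] at hy
        apply isAlgebraicOver_trans (E := {x})
        · intro e he
          rw [Finset.mem_singleton.1 he]
          exact hx'
        · rw [Finset.union_comm, ← Finset.insert_eq]
          exact hy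
      · rw [bs_insert_of_notMem hR] at hy
        exact hy
  exch A x y hx hy := by
    classical
    rw [clq_iff, not_or, not_not] at hx
    rw [clq_iff] at hy ⊢
    have hy' := hy.resolve_left (not_not.2 hx.1)
    by_cases hR : (y, q) ∈ R
    · right
      rw [bs_insert_of_mem hR] at hy'
      rw [bs_insert_of_mem hx.1]
      have hb : bs R q A = q.toFinset ∪ A.filter fun z => (z, q) ∈ R := by
        ext z
        rw [mem_bs]
        simp
      rw [hb] at hx hy' ⊢
      exact hS.exch q _ x y (fun z hz => (Finset.mem_filter.1 hz).2) hx.1 hR hx.2 hy'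
    · exact Or.inl hR

theorem GFamily.isRank (hS : GFamily G R) (q : List Ω) : IsRank (rS G R q) :=
  mrk_isRank (hS.isCl q)

theorem clq_ev_iff' (hR : Inv1 G R) (f : Closure G) (q : List Ω) (A : Finset Ω) (x : Ω) :
    Clq G R (q.map (ev f)) (A.image (ev f)) (ev f x) ↔ Clq G R q A x := by
  rw [clq_iff, clq_iff, ← map_ev_inv1 hR f x q]
  have h1 : bs R (q.map (ev f)) (A.image (ev f)) = (bs R q A).image (ev f) := by
    ext z
    constructor
    · intro h
      rw [mem_bs] at h
      rcases h with h | ⟨h, h'⟩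
      · obtain ⟨w, hw, rfl⟩ := List.mem_map.1 h
        exact Finset.mem_image_of_mem _ (mem_bs.2 (Or.inl hw))
      · obtain ⟨w, hw, rfl⟩ := Finset.mem_image.1 h
        exact Finset.mem_image_of_mem _
          (mem_bs.2 (Or.inr ⟨hw, (map_ev_inv1 hR f w q).2 h'⟩))
    · intro h
      obtain ⟨w, hw, rfl⟩ := Finset.mem_image.1 h
      rw [mem_bs]
      rcases mem_bs.1 hw with hw | ⟨hw, hw'⟩
      · exact Or.inl (List.mem_map_of_mem hw)
      · exact Or.inr ⟨Finset.mem_image_of_mem _ hw, (map_ev_inv1 hR f w q).1 hw'⟩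
  rw [h1, alg_ev_iff]

theorem GFamily.linv (hS : GFamily G R) :
    LInv (listSort G) (selfSort G) (rS G R) := by
  intro f q B
  show ((mrk (Clq G R (q.map (ev f))) (B.image (ev f)) : ℕ) : ℝ) = ((mrk (Clq G R q) B : ℕ) : ℝ)
  rw [mrk_image (hS.isCl _) (ev_injective f) B]
  intro A x _ _
  exact clq_ev_iff' hS.inv f q A x

theorem GFamily.isCocycle [Countable Ω] (hS : GFamily G R) :
    IsCocycle (listSort G) (ltau (listSort G) (selfSort G) (rS G R)) (dm G R) :=
  isCocycle_ldelta (listSort G) (selfSort G) hS.isRank hS.linv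

theorem GFamily.dm_eq_zero (hS : GFamily G R) {q : List Ω} {f : Closure G}
    (h : ∀ x, (x, q.map (ev f)) ∈ R → x ∈ range (ev f)) : dm G R q f = 0 := by
  classical
  unfold dm ldelta
  rw [ENNReal.iSup_eq_zero]
  intro B
  show ENNReal.ofReal _ = 0
  rw [ENNReal.ofReal_eq_zero]
  show cr (rS G R (q.map (ev f))) B (range (ev f)) ≤ 0
  have h1 := cr_le (hS.isRank (q.map (ev f))) B (X := range (ev f))
    (A := B.filter fun z => (z, q.map (ev f)) ∈ R)
    (fun t ht => h t (Finset.mem_filter.1 ht).2)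
  have h2 : mrk (Clq G R (q.map (ev f))) (B ∪ B.filter fun z => (z, q.map (ev f)) ∈ R) =
      mrk (Clq G R (q.map (ev f))) (B.filter fun z => (z, q.map (ev f)) ∈ R) := by
    apply mrk_span (hS.isCl _)
    intro b hb
    by_cases hR : (b, q.map (ev f)) ∈ R
    · exact (hS.isCl _).mem _ _ (Finset.mem_filter.2 ⟨hb, hR⟩)
    · exact Or.inl hR
  have h3 : rS G R (q.map (ev f)) (B ∪ B.filter fun z => (z, q.map (ev f)) ∈ R) =
      rS G R (q.map (ev f)) (B.filter fun z => (z, q.map (ev f)) ∈ R) := by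
    unfold rS
    rw [h2]
  linarith

theorem GFamily.one_le_dm (hS : GFamily G R) {q : List Ω} {f : Closure G}
    {a : Ω} (ha : (a, q.map (ev f)) ∈ R) (ha' : a ∉ range (ev f)) : 1 ≤ dm G R q f := by
  refine le_trans ?_ (le_iSup (fun B => lrho (listSort G) (selfSort G) (rS G R) (q, B) f) {a})
  show 1 ≤ ENNReal.ofReal _
  rw [ENNReal.one_le_ofReal]
  show 1 ≤ cr (rS G R (q.map (ev f))) {a} (range (ev f))
  unfold cr
  haveI : Nonempty {C : Finset Ω // ∀ t ∈ C, t ∈ range (ev f)} := ⟨⟨∅, by simp⟩⟩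
  refine le_ciInf ?_
  rintro ⟨C, hC⟩
  have h1 := mrk_insert (hS.isCl (q.map (ev f))) C a
  have h2 : ¬ Clq G R (q.map (ev f)) C a := by
    rw [clq_iff, not_or, not_not]
    refine ⟨ha, fun hal => ha' ?_⟩
    apply range_aclosed G f
    refine ⟨_, fun z hz => ?_, hal⟩
    rcases mem_bs.1 hz with hz | hz
    · obtain ⟨w, -, rfl⟩ := List.mem_map.1 hz
      exact ⟨w, rfl⟩
    · exact hC z hz.1
  rw [inc_of_not _ h2] at h1
  show 1 ≤ rS G R (q.map (ev f)) ({a} ∪ C) - rS G R (q.map (ev f)) C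
  rw [← Finset.insert_eq]
  unfold rS
  rw [h1]
  push_cast
  linarith

theorem GFamily.dm_le_one (hS : GFamily G R) {q : List Ω} {f : Closure G}
    {a : Ω} (h : ∀ B : Finset Ω, ∃ A : Finset Ω, (∀ x ∈ A, x ∈ range (ev f)) ∧
      ∀ b ∈ B, Clq G R (q.map (ev f)) (insert a A) b) : dm G R q f ≤ 1 := by
  refine iSup_le fun B => ?_
  show ENNReal.ofReal _ ≤ 1
  rw [ENNReal.ofReal_le_one]
  show cr (rS G R (q.map (ev f))) B (range (ev f)) ≤ 1
  obtain ⟨A, hA, hB⟩ := h B
  have h1 := cr_le (hS.isRank (q.map (ev f))) B hA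
  have h2 := mrk_span (hS.isCl (q.map (ev f))) hB
  have h3 := mrk_mono (hS.isCl (q.map (ev f)))
    (Finset.union_subset_union_right (Finset.subset_insert a A) : B ∪ A ⊆ B ∪ insert a A)
  have h4 := mrk_insert (hS.isCl (q.map (ev f))) A a
  have h5 : inc (Clq G R (q.map (ev f))) A a ≤ 1 := by
    unfold inc
    split_ifs <;> omega
  have h6 : mrk (Clq G R (q.map (ev f))) (B ∪ A) ≤ mrk (Clq G R (q.map (ev f))) A + 1 := by
    omega
  have h7 : rS G R (q.map (ev f)) (B ∪ A) ≤ rS G R (q.map (ev f)) A + 1 := by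
    unfold rS
    exact_mod_cast h6
  linarith

/-- the value is zero exactly if the set over the image of `q` lies in the image -/
theorem GFamily.dm_eq_zero_iff (hS : GFamily G R) {q : List Ω} {f : Closure G} :
    dm G R q f = 0 ↔ ∀ x, (x, q.map (ev f)) ∈ R → x ∈ range (ev f) := by
  refine ⟨fun h x hx => ?_, hS.dm_eq_zero⟩
  by_contra hxr
  have h1 := hS.one_le_dm hx hxr
  rw [h] at h1
  exact absurd h1 (by simp)

theorem GFamily.one_le_of_ne (hS : GFamily G R) {q : List Ω} {f : Closure G}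
    (h : dm G R q f ≠ 0) : 1 ≤ dm G R q f := by
  rw [Ne, hS.dm_eq_zero_iff] at h
  push Not at h
  obtain ⟨x, hx, hxr⟩ := h
  exact hS.one_le_dm hx hxr

/-- The set over `c` is controlled by finitely many of its points, over every finite set. -/
def Ctrl (G : Subgroup (Equiv.Perm Ω)) (R : Set (Ω × List Ω)) (c : List Ω) : Prop :=
  ∀ C : Finset Ω, ∃ E : Finset Ω, (∀ e ∈ E, (e, c) ∈ R) ∧
    ∀ x y, (x, c) ∈ R → (y, c) ∈ R → IsAlgebraicOver G (insert y (c.toFinset ∪ C)) x →
      IsAlgebraicOver G (insert y (c.toFinset ∪ E)) x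

/-- an element over `c` whose local corank at `c` is one -/
theorem GFamily.exists_one [Countable Ω] (hG : Oligomorphic G) (hS : GFamily G R) {c : List Ω}
    {a : Ω} (ha : (a, c) ∈ R) (ha' : ¬ IsAlgebraicOver G c.toFinset a) (hE : Ctrl G R c) :
    ∃ f : Closure G, c.map (ev f) = c ∧ dm G R c f = 1 := by
  classical
  obtain ⟨f, hf1, hf2, hf3⟩ := exists_maximal_image_fix (G := G) c.toFinset
    (fun C => ¬ IsAlgebraicOver G C a) ha'
    (fun A B hAB hB hA => hB (isAlgebraicOver_mono G hAB hA)) (by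
      intro C _ hCa x
      have hfin := finite_algebraic hG (insert x C)
      obtain ⟨u, hu, hu'⟩ := neumann (stab G C) {a} hfin.toFinset (by
        intro e he hfin'
        rw [Finset.mem_singleton.1 he] at hfin'
        apply hCa
        refine hfin'.subset ?_
        rintro b ⟨g, hg, hgF, rfl⟩
        exact ⟨g, ⟨hg, hgF⟩, rfl⟩)
      have hfix : ∀ y ∈ C, u⁻¹ y = y := by
        intro y hy
        rw [Equiv.Perm.inv_eq_iff_eq]
        exact (hu.2 y hy).symm
      refine ⟨u⁻¹, G.inv_mem hu.1, hfix, ?_⟩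
      intro hal
      apply hu' a (Finset.mem_singleton_self a)
      rw [Set.Finite.mem_toFinset]
      have himg : insert (u⁻¹ x) C = (insert x C).image (u⁻¹ : Equiv.Perm Ω) := by
        rw [Finset.image_insert]
        congr 1
        symm
        rw [Finset.image_congr (g := id) (fun y hy => hfix y hy), Finset.image_id]
      rw [himg] at hal
      have := isAlgebraicOver_image G (G.inv_mem hu.1) hal
      simpa using this)
  have hfc : ∀ z ∈ c, ev f z = z := fun z hz => hf1 z (by simpa using hz)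
  have hcf : c.map (ev f) = c := by
    conv_rhs => rw [← List.map_id c]
    apply List.map_congr_left
    intro z hz
    exact hfc z hz
  have har : a ∉ range (ev f) := fun har =>
    hf2 {a} (by simpa using har) (isAlgebraicOver_of_mem G (Finset.mem_singleton_self a))
  have hnew : ∀ b, (b, c) ∈ R → b ∉ range (ev f) → ∃ E : Finset Ω, (∀ z ∈ E, (z, c) ∈ R) ∧
      (∀ z ∈ E, z ∈ range (ev f)) ∧ IsAlgebraicOver G (insert a (c.toFinset ∪ E)) b := by
    intro b hb hbr
    obtain ⟨C, hcC, hC2, hC3⟩ := hf3 b hbr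
    rw [not_not] at hC3
    let C0 : Finset Ω := C.preimage (ev f) ((ev_injective f).injOn)
    have hC0 : C0.image (ev f) = C := by
      ext z
      rw [Finset.mem_image]
      constructor
      · rintro ⟨w, hw, rfl⟩
        exact Finset.mem_preimage.1 hw
      · intro hz
        obtain ⟨w, rfl⟩ := hC2 z hz
        exact ⟨w, Finset.mem_preimage.2 hz, rfl⟩
    have hcC0 : ∀ z ∈ c, z ∈ C0 := by
      intro z hz
      rw [Finset.mem_preimage, hfc z hz]
      exact hcC (by simpa using hz)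
    obtain ⟨E0, hE0, hE0'⟩ := hE C0
    obtain ⟨k, hk, hkf⟩ := ev_approx f (C0 ∪ E0)
    have hkc : ∀ z ∈ c, k z = z := by
      intro z hz
      rw [hkf z (Finset.mem_union_left _ (hcC0 z hz)), hfc z hz]
    have hkc' : c.map k = c := map_eq_self hkc
    have hkinv : ∀ y, (y, c) ∈ R → (k⁻¹ y, c) ∈ R := by
      intro y hy
      have := (hS.inv k hk (k⁻¹ y, c)).2 (by simpa [hkc'] using hy)
      exact this
    have hC1 : C = C0.image k := by
      rw [← hC0]
      apply Finset.image_congr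
      intro y hy
      exact (hkf y (Finset.mem_union_left _ hy)).symm
    have hkr : ∀ z ∈ E0.image k, z ∈ range (ev f) := by
      intro z hz
      obtain ⟨w, hw, rfl⟩ := Finset.mem_image.1 hz
      exact ⟨w, (hkf w (Finset.mem_union_right _ hw)).symm⟩
    have hkT : ∀ z ∈ E0.image k, (z, c) ∈ R := by
      intro z hz
      obtain ⟨w, hw, rfl⟩ := Finset.mem_image.1 hz
      have := (hS.inv k hk (w, c)).1 (hE0 w hw)
      simpa [hkc'] using this
    have h1 : IsAlgebraicOver G (insert (k⁻¹ b) C0) (k⁻¹ a) := by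
      rw [← alg_image_iff hk, Finset.image_insert, ← hC1]
      simpa using hC3
    have h2 := hE0' _ _ (hkinv a ha) (hkinv b hb) (isAlgebraicOver_mono G
      (Finset.insert_subset_insert _ Finset.subset_union_right) h1)
    rw [← alg_image_iff hk] at h2
    have h6 : (insert (k⁻¹ b) (c.toFinset ∪ E0)).image k =
        insert b (c.toFinset ∪ E0.image k) := by
      rw [Finset.image_insert, Finset.image_union]
      congr 1
      · simp
      · congr 1
        rw [Finset.image_congr (g := id) (fun y hy => hkc y (by simpa using hy)),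
          Finset.image_id]
    rw [h6] at h2
    have h3 : IsAlgebraicOver G (insert b (c.toFinset ∪ E0.image k)) a := by simpa using h2
    refine ⟨E0.image k, hkT, hkr, hS.exch c _ a b hkT ha hb ?_ h3⟩
    intro hal
    refine har (range_aclosed G f ⟨_, ?_, hal⟩)
    intro z hz
    rcases Finset.mem_union.1 hz with hz | hz
    · exact ⟨z, hfc z (by simpa using hz)⟩
    · exact hkr z hz
  refine ⟨f, hcf, le_antisymm ?_ (hS.one_le_dm (a := a) (by rw [hcf]; exact ha) har)⟩
  apply hS.dm_le_one (a := a)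
  rw [hcf]
  intro B
  have hch : ∀ b ∈ B, (b, c) ∈ R ∧ b ∉ range (ev f) → ∃ E : Finset Ω,
      (∀ z ∈ E, (z, c) ∈ R) ∧ (∀ z ∈ E, z ∈ range (ev f)) ∧
      IsAlgebraicOver G (insert a (c.toFinset ∪ E)) b :=
    fun b _ h => hnew b h.1 h.2
  choose! Eb hEb1 hEb2 hEb3 using hch
  let Bn : Finset Ω := B.filter fun b => (b, c) ∈ R ∧ b ∉ range (ev f)
  have hBn : ∀ b ∈ Bn, b ∈ B ∧ ((b, c) ∈ R ∧ b ∉ range (ev f)) := fun b hb =>
    Finset.mem_filter.1 hb
  refine ⟨(B.filter fun b => b ∈ range (ev f)) ∪ Bn.biUnion Eb, ?_, ?_⟩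
  · intro x hx
    rcases Finset.mem_union.1 hx with hx | hx
    · exact (Finset.mem_filter.1 hx).2
    · obtain ⟨b, hb, hx'⟩ := Finset.mem_biUnion.1 hx
      exact hEb2 b (hBn b hb).1 (hBn b hb).2 x hx'
  · intro b hb
    by_cases hbR : (b, c) ∈ R
    · by_cases hbr : b ∈ range (ev f)
      · apply (hS.isCl c).mem
        exact Finset.mem_insert_of_mem
          (Finset.mem_union_left _ (Finset.mem_filter.2 ⟨hb, hbr⟩))
      · right
        refine ⟨insert a (c.toFinset ∪ Eb b), ?_, hEb3 b hb ⟨hbR, hbr⟩⟩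
        intro z hz
        rcases Finset.mem_insert.1 hz with rfl | hz
        · exact Or.inr ⟨Finset.mem_insert_self _ _, ha⟩
        · rcases Finset.mem_union.1 hz with hz | hz
          · exact Or.inl (by simpa using hz)
          · exact Or.inr ⟨Finset.mem_insert_of_mem (Finset.mem_union_right _
              (Finset.mem_biUnion.2 ⟨b, Finset.mem_filter.2 ⟨hb, hbR, hbr⟩, hz⟩)),
              hEb1 b hb ⟨hbR, hbr⟩ z hz⟩
    · exact Or.inl hbR

/-- The local geometric criterion in terms of the cocycle. -/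
theorem GFamily.infinite [Countable Ω] (hG : Oligomorphic G) (hS : GFamily G R) {c : List Ω}
    {a : Ω} (ha : (a, c) ∈ R) (ha' : ¬ IsAlgebraicOver G c.toFinset a) (hE : Ctrl G R c)
    (hnc : ∀ Q : Finset (List Ω), (∀ q ∈ Q, Dom (dm G R) q c ∧ ¬ Dom (dm G R) c q) →
      ∃ h : Closure G, (∀ q ∈ Q, dm G R q h = 0) ∧ dm G R c h ≠ 0) :
    (PolishSemigroupTopologies G).Infinite := by
  obtain ⟨f, hf1, hf2⟩ := hS.exists_one hG ha ha' hE
  refine hS.isCocycle.infinite (c := c) (f₁ := f) hf1 one_ne_zero ?_ ?_ hnc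
  · intro q _ h2
    apply hS.one_le_of_ne
    intro h3
    have h4 := h2 f h3
    rw [hf2] at h4
    exact one_ne_zero h4
  · rw [hf2]
    exact ENNReal.one_ne_top

end PST
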