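import Mathlib
import Pool.Agent.Helper26.PST.LocalGeo

open TopologicalSpace Set Filter Topology
open scoped ENNReal

namespace PST

variable {Ω : Type*} {G : Subgroup (Equiv.Perm Ω)}

/-- The translate of the pair `(D₀, X)` by `g` lies below the translates by the members of `Q`:
every element of the closure whose image contains `g D₀` and, for all `q` in `Q`, contains
`q D₀` and `q X`, has an image containing `g X`. -/
def Below (G : Subgroup (Equiv.Perm Ω)) (D₀ : Finset Ω) (X : Set Ω)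
    (Q : Finset (Equiv.Perm Ω)) (g : Equiv.Perm Ω) : Prop :=
  ∀ f : Closure G, (∀ z ∈ D₀, g z ∈ range f.1) →
    (∀ q ∈ Q, (∀ z ∈ D₀, q z ∈ range f.1) ∧ ∀ x ∈ X, q x ∈ range f.1) →
    ∀ x ∈ X, g x ∈ range f.1

/-- the family of translates of `X`, indexed by the translates of an enumeration of `D₀` -/
def famR (G : Subgroup (Equiv.Perm Ω)) (D₀ : Finset Ω) (X : Set Ω) : Set (Ω × List Ω) :=
  {p | ∃ g ∈ G, ∃ x ∈ X, p = (g x, D₀.toList.map g)}

theorem famR_inv (D₀ : Finset Ω) (X : Set Ω) : Inv1 G (famR G D₀ X) := by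
  intro k hk p
  constructor
  · rintro ⟨g, hg, x, hx, rfl⟩
    refine ⟨k * g, G.mul_mem hk hg, x, hx, ?_⟩
    simp
  · rintro ⟨g, hg, x, hx, hp⟩
    refine ⟨k⁻¹ * g, G.mul_mem (G.inv_mem hk) hg, x, hx, ?_⟩
    rw [Prod.mk.injEq] at hp
    obtain ⟨h1, h2⟩ := hp
    apply Prod.ext
    · show p.1 = k⁻¹ (g x)
      rw [← h1]
      simp
    · show p.2 = D₀.toList.map (k⁻¹ * g : Equiv.Perm Ω)
      have h3 : (p.2.map k).map (k⁻¹ : Equiv.Perm Ω) = (D₀.toList.map g).map
          (k⁻¹ : Equiv.Perm Ω) := by rw [h2]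
      rw [List.map_map, List.map_map] at h3
      have h4 : ((k⁻¹ : Equiv.Perm Ω) ∘ k) = id := by
        funext z
        simp
      rw [h4, List.map_id] at h3
      rw [h3]
      rfl

theorem mem_famR {D₀ : Finset Ω} {X : Set Ω}
    (hX : ∀ x ∈ X, ∀ g ∈ G, (∀ z ∈ D₀, g z = z) → g x ∈ X) {k : Equiv.Perm Ω} (hk : k ∈ G)
    {y : Ω} : (y, D₀.toList.map k) ∈ famR G D₀ X ↔ ∃ x ∈ X, y = k x := by
  constructor
  · rintro ⟨g, hg, x, hx, hp⟩
    rw [Prod.mk.injEq] at hp
    obtain ⟨h1, h2⟩ := hp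
    refine ⟨k⁻¹ (g x), ?_, by rw [h1]; simp⟩
    have := hX x hx (k⁻¹ * g) (G.mul_mem (G.inv_mem hk) hg) (by
      intro z hz
      show k⁻¹ (g z) = z
      rw [Equiv.Perm.inv_eq_iff_eq]
      exact (List.map_inj_left.1 h2 z (by simpa using hz)).symm)
    exact this
  · rintro ⟨x, hx, rfl⟩
    exact ⟨k, hk, x, hx, rfl⟩

theorem mem_famR_one {D₀ : Finset Ω} {X : Set Ω}
    (hX : ∀ x ∈ X, ∀ g ∈ G, (∀ z ∈ D₀, g z = z) → g x ∈ X)
    {y : Ω} : (y, D₀.toList) ∈ famR G D₀ X ↔ y ∈ X := by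
  have h1 := mem_famR hX G.one_mem (y := y)
  have h2 : D₀.toList.map (1 : Equiv.Perm Ω) = D₀.toList := by
    conv_rhs => rw [← List.map_id D₀.toList]
    rfl
  rw [h2] at h1
  rw [h1]
  constructor
  · rintro ⟨x, hx, rfl⟩
    exact hx
  · intro hy
    exact ⟨y, hy, rfl⟩

variable [DecidableEq Ω]

theorem famR_family {D₀ : Finset Ω} {X : Set Ω}
    (hX : ∀ x ∈ X, ∀ g ∈ G, (∀ z ∈ D₀, g z = z) → g x ∈ X)
    (hex : ∀ (D : Finset Ω) (x y : Ω), (∀ z ∈ D, z ∈ X) → x ∈ X → y ∈ X →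
      ¬ IsAlgebraicOver G (D₀ ∪ D) x → IsAlgebraicOver G (insert y (D₀ ∪ D)) x →
      IsAlgebraicOver G (insert x (D₀ ∪ D)) y) : GFamily G (famR G D₀ X) where
  inv := famR_inv D₀ X
  exch := by
    intro q D x y hD hx hy h1 h2
    have hx0 := hx
    obtain ⟨g, hg, x', hx', hp⟩ := hx0
    rw [Prod.mk.injEq] at hp
    obtain ⟨-, rfl⟩ := hp
    have hmem : ∀ w, (w, D₀.toList.map g) ∈ famR G D₀ X → g⁻¹ w ∈ X := by
      intro w hw
      obtain ⟨x, hx, rfl⟩ := (mem_famR hX hg).1 hw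
      simpa using hx
    have hD' : ∀ z ∈ D.image (g⁻¹ : Equiv.Perm Ω), z ∈ X := by
      intro z hz
      obtain ⟨w, hw, rfl⟩ := Finset.mem_image.1 hz
      exact hmem w (hD w hw)
    have himg : (D₀ ∪ D.image (g⁻¹ : Equiv.Perm Ω)).image g =
        (D₀.toList.map g).toFinset ∪ D := by
      rw [Finset.image_union, Finset.image_image]
      congr 1
      · ext z
        simp
      · ext z
        simp
    have himg2 : ∀ w, (insert (g⁻¹ w) (D₀ ∪ D.image (g⁻¹ : Equiv.Perm Ω))).image g =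
        insert w ((D₀.toList.map g).toFinset ∪ D) := by
      intro w
      rw [Finset.image_insert, himg]
      simp
    have e1 : ∀ w, IsAlgebraicOver G ((D₀.toList.map g).toFinset ∪ D) w ↔
        IsAlgebraicOver G (D₀ ∪ D.image (g⁻¹ : Equiv.Perm Ω)) (g⁻¹ w) := by
      intro w
      rw [← alg_image_iff hg (x := g⁻¹ w), himg]
      simp
    have e2 : ∀ u w, IsAlgebraicOver G (insert u ((D₀.toList.map g).toFinset ∪ D)) w ↔
        IsAlgebraicOver G (insert (g⁻¹ u) (D₀ ∪ D.image (g⁻¹ : Equiv.Perm Ω))) (g⁻¹ w) := by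
      intro u w
      rw [← alg_image_iff hg (x := g⁻¹ w), himg2]
      simp
    rw [e2]
    rw [e1] at h1
    rw [e2] at h2
    exact hex (D.image (g⁻¹ : Equiv.Perm Ω)) (g⁻¹ x) (g⁻¹ y) hD' (hmem x hx) (hmem y hy) h1 h2

/-- the value at a translate is zero exactly if the image contains the set over its image -/
theorem dm_famR_eq_zero {D₀ : Finset Ω} {X : Set Ω}
    (hX : ∀ x ∈ X, ∀ g ∈ G, (∀ z ∈ D₀, g z = z) → g x ∈ X)
    (hS : GFamily G (famR G D₀ X)) {g k : Equiv.Perm Ω} (hg : g ∈ G) (hk : k ∈ G)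
    {f : Closure G} (hkf : ∀ z ∈ D₀, k (g z) = ev f (g z)) :
    dm G (famR G D₀ X) (D₀.toList.map g) f = 0 ↔ ∀ x ∈ X, k (g x) ∈ range (ev f) := by
  have h1 : (D₀.toList.map g).map (ev f) = D₀.toList.map (k * g : Equiv.Perm Ω) := by
    rw [List.map_map]
    apply List.map_congr_left
    intro z hz
    exact (hkf z (by simpa using hz)).symm
  rw [hS.dm_eq_zero_iff, h1]
  constructor
  · intro h x hx
    exact h _ ((mem_famR hX (G.mul_mem hk hg)).2 ⟨x, hx, rfl⟩)
  · intro h x hx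
    obtain ⟨x', hx', rfl⟩ := (mem_famR hX (G.mul_mem hk hg)).1 hx
    exact h x' hx'

theorem below_iff {D₀ : Finset Ω} {X : Set Ω}
    (hX : ∀ x ∈ X, ∀ g ∈ G, (∀ z ∈ D₀, g z = z) → g x ∈ X)
    (hS : GFamily G (famR G D₀ X)) {Q : Finset (Equiv.Perm Ω)} (hQ : ∀ q ∈ Q, q ∈ G)
    {g : Equiv.Perm Ω} (hg : g ∈ G) :
    Below G D₀ X Q g ↔ ∀ h : Closure G,
      (∀ q ∈ Q, dm G (famR G D₀ X) (D₀.toList.map q) h = 0) →
      dm G (famR G D₀ X) (D₀.toList.map g) h = 0 := by
  classical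
  let F : Finset Ω := D₀.image g ∪ Q.biUnion fun q => D₀.image q
  have hFg : ∀ z ∈ D₀, g z ∈ F := fun z hz =>
    Finset.mem_union_left _ (Finset.mem_image_of_mem _ hz)
  have hFq : ∀ q ∈ Q, ∀ z ∈ D₀, q z ∈ F := fun q hq z hz =>
    Finset.mem_union_right _ (Finset.mem_biUnion.2 ⟨q, hq, Finset.mem_image_of_mem _ hz⟩)
  constructor
  · intro hB h hh
    obtain ⟨k, hk, hkF⟩ := ev_approx h F
    rw [dm_famR_eq_zero hX hS hg hk (fun z hz => hkF _ (hFg z hz))]
    have hr : ∀ y, y ∈ range (ofG k⁻¹ (G.inv_mem hk) * h : Closure G).1 ↔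
        k y ∈ range (ev h) := by
      intro y
      constructor
      · rintro ⟨w, hw⟩
        refine ⟨w, ?_⟩
        rw [← hw]
        show ev h w = k (k⁻¹ (ev h w))
        simp
      · rintro ⟨w, hw⟩
        refine ⟨w, ?_⟩
        show k⁻¹ (ev h w) = y
        rw [hw]
        simp
    intro x hx
    rw [← hr]
    refine hB _ ?_ ?_ x hx
    · intro z hz
      rw [hr, hkF _ (hFg z hz)]
      exact ⟨_, rfl⟩
    · intro q hq
      refine ⟨fun z hz => ?_, fun x hx => ?_⟩
      · rw [hr, hkF _ (hFq q hq z hz)]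
        exact ⟨_, rfl⟩
      · rw [hr]
        exact (dm_famR_eq_zero hX hS (hQ q hq) hk (fun z hz => hkF _ (hFq q hq z hz))).1
          (hh q hq) x hx
  · intro hh f hf1 hf2
    have hFr : ∀ z ∈ F, z ∈ range (ev f) := by
      intro z hz
      rcases Finset.mem_union.1 hz with hz | hz
      · obtain ⟨w, hw, rfl⟩ := Finset.mem_image.1 hz
        exact hf1 w hw
      · obtain ⟨q, hq, hz⟩ := Finset.mem_biUnion.1 hz
        obtain ⟨w, hw, rfl⟩ := Finset.mem_image.1 hz
        exact (hf2 q hq).1 w hw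
    obtain ⟨k, hk, hkF⟩ := ev_approx f (F.preimage (ev f) ((ev_injective f).injOn))
    have hfix : ∀ z ∈ F, ev (f * ofG k⁻¹ (G.inv_mem hk)) z = z := by
      intro z hz
      obtain ⟨w, rfl⟩ := hFr z hz
      have h1 := hkF w (Finset.mem_preimage.2 hz)
      have h2 : k⁻¹ (ev f w) = w := by
        rw [Equiv.Perm.inv_eq_iff_eq, h1]
      show ev f (k⁻¹ (ev f w)) = ev f w
      rw [h2]
    have hr : range (ev (f * ofG k⁻¹ (G.inv_mem hk))) = range (ev f) := by
      ext y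
      constructor
      · rintro ⟨w, rfl⟩
        exact ⟨k⁻¹ w, rfl⟩
      · rintro ⟨w, rfl⟩
        refine ⟨k w, ?_⟩
        show ev f (k⁻¹ (k w)) = ev f w
        simp
    have h1 := hh (f * ofG k⁻¹ (G.inv_mem hk)) (by
      intro q hq
      rw [dm_famR_eq_zero hX hS (hQ q hq) G.one_mem
        (fun z hz => (hfix _ (hFq q hq z hz)).symm), hr]
      exact (hf2 q hq).2)
    rw [dm_famR_eq_zero hX hS hg G.one_mem (fun z hz => (hfix _ (hFg z hz)).symm), hr] at h1
    exact h1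

/-- The local geometric criterion: a set `X`, invariant under the pointwise stabiliser of a
finite set `D₀`, on which the algebraic closure over `D₀` is a pregeometry, controlled by
finitely many points of `X` over every finite set, and which does not lie below finitely many
of its translates that lie strictly below it. -/
theorem infinite_of_localGeometric [Countable Ω] (hG : Oligomorphic G) {D₀ : Finset Ω}
    {X : Set Ω} (hX : ∀ x ∈ X, ∀ g ∈ G, (∀ z ∈ D₀, g z = z) → g x ∈ X) {a : Ω} (ha : a ∈ X)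
    (ha' : ¬ IsAlgebraicOver G D₀ a)
    (hex : ∀ (D : Finset Ω) (x y : Ω), (∀ z ∈ D, z ∈ X) → x ∈ X → y ∈ X →
      ¬ IsAlgebraicOver G (D₀ ∪ D) x → IsAlgebraicOver G (insert y (D₀ ∪ D)) x →
      IsAlgebraicOver G (insert x (D₀ ∪ D)) y)
    (hem : ∀ C : Finset Ω, ∃ E : Finset Ω, (∀ z ∈ E, z ∈ X) ∧ ∀ x ∈ X, ∀ y ∈ X,
      IsAlgebraicOver G (insert y (D₀ ∪ C)) x → IsAlgebraicOver G (insert y (D₀ ∪ E)) x)
    (hnc : ∀ Q : Finset (Equiv.Perm Ω),
      (∀ q ∈ Q, q ∈ G ∧ Below G D₀ X {1} q ∧ ¬ Below G D₀ X {q} 1) → ¬ Below G D₀ X Q 1) :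
    (PolishSemigroupTopologies G).Infinite := by
  classical
  have hS := famR_family hX hex
  have hone : D₀.toList.map (1 : Equiv.Perm Ω) = D₀.toList := by
    conv_rhs => rw [← List.map_id D₀.toList]
    rfl
  refine hS.infinite hG (c := D₀.toList) ((mem_famR_one hX).2 ha) (by simpa using ha') ?_ ?_
  · intro C
    obtain ⟨E, hE1, hE2⟩ := hem C
    refine ⟨E, fun e he => (mem_famR_one hX).2 (hE1 e he), fun x y hx hy h => ?_⟩
    rw [Finset.toList_toFinset] at h ⊢
    exact hE2 x ((mem_famR_one hX).1 hx) y ((mem_famR_one hX).1 hy) h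
  · intro Q hQ
    let Q' : Finset (List Ω) := Q.filter fun q => ∃ g ∈ G, q = D₀.toList.map g
    have horb : ∀ q ∈ Q', ∃ g ∈ G, q = D₀.toList.map g := fun q hq =>
      (Finset.mem_filter.1 hq).2
    have hQ' : ∀ q ∈ Q', q ∈ Q := fun q hq => (Finset.mem_filter.1 hq).1
    choose! γ hγ1 hγ2 using horb
    have h1 := hnc (Q'.image γ) (by
      intro g hg
      obtain ⟨q, hq, rfl⟩ := Finset.mem_image.1 hg
      have h2 := hQ q (hQ' q hq)
      refine ⟨hγ1 q hq, ?_, ?_⟩
      · rw [below_iff hX hS (by simp [G.one_mem]) (hγ1 q hq)]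
        intro h hh
        have := hh 1 (by simp)
        rw [hone] at this
        rw [← hγ2 q hq]
        exact h2.1 h this
      · rw [below_iff hX hS (by simpa using hγ1 q hq) G.one_mem]
        intro hcon
        apply h2.2
        intro h hh
        have := hcon h (by
          intro g hg
          rw [Finset.mem_singleton.1 hg, ← hγ2 q hq]
          exact hh)
        rw [hone] at this
        exact this)
    rw [below_iff hX hS (by
      intro g hg
      obtain ⟨q, hq, rfl⟩ := Finset.mem_image.1 hg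
      exact hγ1 q hq) G.one_mem] at h1
    push Not at h1
    obtain ⟨h, hh1, hh2⟩ := h1
    rw [hone] at hh2
    refine ⟨h, fun q hq => ?_, hh2⟩
    by_cases hqo : ∃ g ∈ G, q = D₀.toList.map g
    · have hq' : q ∈ Q' := Finset.mem_filter.2 ⟨hq, hqo⟩
      have := hh1 (γ q) (Finset.mem_image_of_mem _ hq')
      rw [← hγ2 q hq'] at this
      exact this
    · rw [hS.dm_eq_zero_iff]
      rintro x ⟨g, hg, x', -, hp⟩
      exfalso
      apply hqo
      rw [Prod.mk.injEq] at hp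
      obtain ⟨k, hk, hkF⟩ := ev_approx h q.toFinset
      refine ⟨k⁻¹ * g, G.mul_mem (G.inv_mem hk) hg, ?_⟩
      have h3 : q.map (ev h) = q.map k := by
        apply List.map_congr_left
        intro z hz
        exact (hkF z (by simpa using hz)).symm
      have h4 : (q.map k).map (k⁻¹ : Equiv.Perm Ω) =
          (D₀.toList.map g).map (k⁻¹ : Equiv.Perm Ω) := by
        rw [← h3, hp.2]
      rw [List.map_map, List.map_map] at h4
      have h5 : ((k⁻¹ : Equiv.Perm Ω) ∘ k) = id := by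
        funext z
        simp
      rw [h5, List.map_id] at h4
      rw [h4]
      rfl

end PST
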