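import Mathlib
import Pool.Agent.Helper26.PST.SMThm

open TopologicalSpace Set Filter Topology
open scoped ENNReal Pointwise

namespace PST

variable {Ω : Type*}

/-- The orbit of a tuple under the pointwise stabiliser of a finite set. -/
def Orb (G : Subgroup (Equiv.Perm Ω)) (D : Finset Ω) {n : ℕ} (a : Fin n → Ω) :
    Set (Fin n → Ω) :=
  {b | ∃ g ∈ G, (∀ x ∈ D, g x = x) ∧ ∀ i, g (a i) = b i}

/-- A complete type in `n` variables over `Z`: a coherent choice, for each finite subset of `Z`,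
of an orbit on `n`-tuples of its pointwise stabiliser. -/
structure TypeOver (G : Subgroup (Equiv.Perm Ω)) (Z : Set Ω) (n : ℕ) where
  orb : {D : Finset Ω // (D : Set Ω) ⊆ Z} → Set (Fin n → Ω)
  isOrb : ∀ D, ∃ a, orb D = Orb G D.1 a
  anti : ∀ D E, D.1 ⊆ E.1 → orb E ⊆ orb D

theorem mem_orb_self (G : Subgroup (Equiv.Perm Ω)) (D : Finset Ω) {n : ℕ} (a : Fin n → Ω) :
    a ∈ Orb G D a := ⟨1, G.one_mem, fun _ _ => rfl, fun _ => rfl⟩

theorem orb_trans {G : Subgroup (Equiv.Perm Ω)} {D : Finset Ω} {n : ℕ} {a b c : Fin n → Ω}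
    (hab : b ∈ Orb G D a) (hbc : c ∈ Orb G D b) : c ∈ Orb G D a := by
  obtain ⟨g, hg, hgD, hga⟩ := hab
  obtain ⟨h, hh, hhD, hhb⟩ := hbc
  refine ⟨h * g, G.mul_mem hh hg, fun x hx => ?_, fun i => ?_⟩
  · show h (g x) = x
    rw [hgD x hx, hhD x hx]
  · show h (g (a i)) = c i
    rw [hga, hhb]

theorem orb_symm {G : Subgroup (Equiv.Perm Ω)} {D : Finset Ω} {n : ℕ} {a b : Fin n → Ω}
    (hab : b ∈ Orb G D a) : a ∈ Orb G D b := by
  obtain ⟨g, hg, hgD, hga⟩ := hab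
  refine ⟨g⁻¹, G.inv_mem hg, fun x hx => ?_, fun i => ?_⟩
  · rw [Equiv.Perm.inv_eq_iff_eq]
    exact (hgD x hx).symm
  · rw [Equiv.Perm.inv_eq_iff_eq]
    exact (hga i).symm

theorem orb_anti {G : Subgroup (Equiv.Perm Ω)} {D E : Finset Ω} (h : D ⊆ E) {n : ℕ}
    (a : Fin n → Ω) : Orb G E a ⊆ Orb G D a := by
  rintro b ⟨g, hg, hgE, hga⟩
  exact ⟨g, hg, fun x hx => hgE x (h hx), hga⟩

theorem orb_eq {G : Subgroup (Equiv.Perm Ω)} {D : Finset Ω} {n : ℕ} {a b : Fin n → Ω}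
    (hab : b ∈ Orb G D a) : Orb G D b = Orb G D a :=
  subset_antisymm (fun _ hc => orb_trans hab hc) (fun _ hc => orb_trans (orb_symm hab) hc)

/-- finitely many orbits over a finite set -/
theorem finite_orbits {G : Subgroup (Equiv.Perm Ω)} (hG : Oligomorphic G) (D : Finset Ω)
    (n : ℕ) : (range fun a : Fin n → Ω => Orb G D a).Finite := by
  classical
  obtain ⟨s, hs⟩ := hG (D.card + n)
  let c : Fin D.card → Ω := fun i => (D.equivFin.symm i : Ω)
  have hc : ∀ x ∈ D, ∃ i, c i = x := fun x hx => ⟨D.equivFin ⟨x, hx⟩, by simp [c]⟩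
  choose rep hrep g hg hrep' using fun a : Fin n → Ω => hs (Fin.append c a)
  have hsame : ∀ a a', rep a = rep a' → a' ∈ Orb G D a := by
    intro a a' haa
    have key : ∀ i, (g a' * (g a)⁻¹) (Fin.append c a i) = Fin.append c a' i := by
      intro i
      show g a' ((g a)⁻¹ (Fin.append c a i)) = _
      rw [← hrep' a i, ← hrep' a' i, haa]
      simp
    refine ⟨g a' * (g a)⁻¹, G.mul_mem (hg a') (G.inv_mem (hg a)), ?_, ?_⟩
    · intro x hx
      obtain ⟨i, rfl⟩ := hc x hx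
      have := key (Fin.castAdd n i)
      simpa using this
    · intro i
      have := key (Fin.natAdd D.card i)
      simpa using this
  let φ : (Fin (D.card + n) → Ω) → Set (Fin n → Ω) := fun b =>
    if h : ∃ a, rep a = b then Orb G D h.choose else ∅
  refine (s.finite_toSet.image φ).subset ?_
  rintro _ ⟨a, rfl⟩
  refine ⟨rep a, hrep a, ?_⟩
  have h : ∃ a', rep a' = rep a := ⟨a, rfl⟩
  simp only [φ]
  rw [dif_pos h]
  exact orb_eq (hsame a h.choose h.choose_spec.symm)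

theorem uncountable_branches : Uncountable (ℕ → Bool) := by
  rw [← Cardinal.aleph0_lt_mk_iff]
  have h : Cardinal.mk (ℕ → Bool) = 2 ^ Cardinal.aleph0 := by simp
  rw [h]
  exact Cardinal.cantor _

/-- The type given by an ultrafilter. -/
def typeOf {G : Subgroup (Equiv.Perm Ω)} (hG : Oligomorphic G) (Z : Set Ω) {n : ℕ}
    (𝒰 : Ultrafilter (Fin n → Ω)) : TypeOver G Z n where
  orb D := {b | Orb G D.1 b ∈ 𝒰}
  isOrb := by
    rintro ⟨D, hDZ⟩
    have huniv : (⋃₀ range fun a : Fin n → Ω => Orb G D a) ∈ 𝒰 := by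
      have : (⋃₀ range fun a : Fin n → Ω => Orb G D a) = univ := by
        rw [eq_univ_iff_forall]
        intro a
        exact ⟨Orb G D a, ⟨a, rfl⟩, mem_orb_self G D a⟩
      rw [this]
      exact Filter.univ_mem
    rw [Ultrafilter.finite_sUnion_mem_iff (finite_orbits hG D n)] at huniv
    obtain ⟨_, ⟨a, rfl⟩, ha⟩ := huniv
    refine ⟨a, ?_⟩
    ext b
    constructor
    · intro hb
      have hb' : Orb G D b ∈ 𝒰 := hb
      obtain ⟨c, hc1, hc2⟩ := 𝒰.nonempty_of_mem (Filter.inter_mem ha hb')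
      exact orb_trans hc1 (orb_symm hc2)
    · intro hb
      show Orb G D b ∈ 𝒰
      rw [orb_eq hb]
      exact ha
  anti D E hDE := by
    intro b hb
    exact Filter.mem_of_superset (show Orb G E.1 b ∈ 𝒰 from hb) (orb_anti hDE b)

theorem typeOf_subset {G : Subgroup (Equiv.Perm Ω)} (hG : Oligomorphic G) {Z : Set Ω} {n : ℕ}
    {𝒰 : Ultrafilter (Fin n → Ω)} {Y : Set (Fin n → Ω)} (hY : Y ∈ 𝒰)
    {D : {D : Finset Ω // (D : Set Ω) ⊆ Z}}
    (hD : ∀ a ∈ Y, Orb G D.1 a ⊆ Y) : (typeOf hG Z 𝒰).orb D ⊆ Y := by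
  intro b hb
  have hb' : Orb G D.1 b ∈ 𝒰 := hb
  obtain ⟨c, hc1, hc2⟩ := 𝒰.nonempty_of_mem (Filter.inter_mem hY hb')
  exact hD c hc1 (orb_symm hc2)

/-- A splitting tree of definable sets gives uncountably many types. -/
theorem not_countable_of_tree {G : Subgroup (Equiv.Perm Ω)} (hG : Oligomorphic G) {Z : Set Ω}
    {n : ℕ} (𝒮 : Set (Set (Fin n → Ω))) (h0 : 𝒮.Nonempty) (hne : ∀ Y ∈ 𝒮, Y.Nonempty)
    (hdef : ∀ Y ∈ 𝒮, ∃ D : Finset Ω, (D : Set Ω) ⊆ Z ∧ ∀ a ∈ Y, Orb G D a ⊆ Y)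
    (hsplit : ∀ Y ∈ 𝒮, ∃ Y0 ∈ 𝒮, ∃ Y1 ∈ 𝒮, Y0 ⊆ Y ∧ Y1 ⊆ Y ∧ Disjoint Y0 Y1) :
    ¬ Countable (TypeOver G Z n) := by
  classical
  intro hcount
  obtain ⟨Yr, hYr⟩ := h0
  have hsplit' : ∀ Y : 𝒮, ∃ ch : Bool → 𝒮, (∀ b, (ch b).1 ⊆ Y.1) ∧
      Disjoint (ch true).1 (ch false).1 := by
    rintro ⟨Y, hY⟩
    obtain ⟨Y0, hY0, Y1, hY1, h1, h2, h3⟩ := hsplit Y hY
    refine ⟨fun b => if b then ⟨Y0, hY0⟩ else ⟨Y1, hY1⟩, ?_, ?_⟩
    · intro b
      cases b
      · exact h2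
      · exact h1
    · exact h3
  choose ch hch1 hch2 using hsplit'
  let nd : (ℕ → Bool) → ℕ → 𝒮 := fun σ m => Nat.rec ⟨Yr, hYr⟩ (fun m Y => ch Y (σ m)) m
  have hnd0 : ∀ σ, nd σ 0 = ⟨Yr, hYr⟩ := fun σ => rfl
  have hnds : ∀ σ m, nd σ (m + 1) = ch (nd σ m) (σ m) := fun σ m => rfl
  have hanti : ∀ σ, Antitone fun m => (nd σ m).1 := by
    intro σ
    apply antitone_nat_of_succ_le
    intro m
    rw [hnds]
    exact hch1 _ _
  have hneBot : ∀ σ, (⨅ m, 𝓟 (nd σ m).1 : Filter (Fin n → Ω)).NeBot := by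
    intro σ
    haveI : Nonempty (Fin n → Ω) := (hne Yr hYr).to_type
    refine Filter.iInf_neBot_of_directed ?_ ?_
    · intro i j
      refine ⟨max i j, ?_, ?_⟩
      · exact Filter.principal_mono.2 (hanti σ (le_max_left i j))
      · exact Filter.principal_mono.2 (hanti σ (le_max_right i j))
    · intro m
      rw [Filter.principal_neBot_iff]
      exact hne _ (nd σ m).2
  let 𝒰 : (ℕ → Bool) → Ultrafilter (Fin n → Ω) := fun σ =>
    haveI := hneBot σ
    Ultrafilter.of (⨅ m, 𝓟 (nd σ m).1)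
  have h𝒰 : ∀ σ m, (nd σ m).1 ∈ 𝒰 σ := by
    intro σ m
    haveI := hneBot σ
    have h1 : (𝒰 σ : Filter (Fin n → Ω)) ≤ ⨅ m, 𝓟 (nd σ m).1 := Ultrafilter.of_le _
    exact (h1.trans (iInf_le _ m)) (Filter.mem_principal_self _)
  have hinj : Function.Injective fun σ => typeOf hG Z (𝒰 σ) := by
    intro σ σ' h
    by_contra hne'
    have hex : ∃ m, σ m ≠ σ' m := by
      by_contra hcon
      push Not at hcon
      exact hne' (funext hcon)
    have hmin := Nat.find_spec hex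
    have hlt : ∀ m < Nat.find hex, σ m = σ' m := fun m hm => by
      have := Nat.find_min hex hm
      push Not at this
      exact this
    generalize Nat.find hex = m at hmin hlt
    have heq : ∀ k ≤ m, nd σ k = nd σ' k := by
      intro k
      induction k with
      | zero => intro _; rfl
      | succ k ih =>
        intro hk
        rw [hnds, hnds, ih (by omega), hlt k (by omega)]
    have hdisj : Disjoint (nd σ (m + 1)).1 (nd σ' (m + 1)).1 := by
      rw [hnds, hnds, heq m le_rfl]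
      cases hb : σ m with
      | false =>
        cases hb' : σ' m with
        | false => exact absurd (hb.trans hb'.symm) hmin
        | true => exact (hch2 _).symm
      | true =>
        cases hb' : σ' m with
        | false => exact hch2 _
        | true => exact absurd (hb.trans hb'.symm) hmin
    obtain ⟨D, hDZ, hD⟩ := hdef _ (nd σ (m + 1)).2
    obtain ⟨D', hDZ', hD'⟩ := hdef _ (nd σ' (m + 1)).2
    let DD : {D : Finset Ω // (D : Set Ω) ⊆ Z} := ⟨D ∪ D', by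
      rw [Finset.coe_union]
      exact union_subset hDZ hDZ'⟩
    have h1 := typeOf_subset hG (h𝒰 σ (m + 1)) (D := DD)
      (fun a ha => (orb_anti Finset.subset_union_left a).trans (hD a ha))
    have h2 := typeOf_subset hG (h𝒰 σ' (m + 1)) (D := DD)
      (fun a ha => (orb_anti Finset.subset_union_right a).trans (hD' a ha))
    have h3 : (typeOf hG Z (𝒰 σ)).orb DD = (typeOf hG Z (𝒰 σ')).orb DD := by
      have h' : typeOf hG Z (𝒰 σ) = typeOf hG Z (𝒰 σ') := h
      rw [h']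
    obtain ⟨a, ha⟩ := (typeOf hG Z (𝒰 σ)).isOrb DD
    have h4 : a ∈ (typeOf hG Z (𝒰 σ)).orb DD := by
      rw [ha]
      exact mem_orb_self G _ a
    exact Set.disjoint_left.1 hdisj (h1 h4) (h2 (h3 ▸ h4))
  haveI := uncountable_branches
  exact not_countable (hinj.countable)

/-- An infinite set, invariant under the pointwise stabiliser of a finite subset of `Z`, which
is not split into two infinite parts by any such set. -/
theorem exists_minimal_set {G : Subgroup (Equiv.Perm Ω)} (hG : Oligomorphic G)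
    {Z : Set Ω} {D0 : Finset Ω} {X : Set Ω} (hXinf : X.Infinite) (hDZ : (D0 : Set Ω) ⊆ Z)
    (hXinv : ∀ x ∈ X, ∀ g ∈ G, (∀ z ∈ D0, g z = z) → g x ∈ X)
    (hst : Countable (TypeOver G Z 1)) :
    ∃ (D1 : Finset Ω) (X1 : Set Ω), D0 ⊆ D1 ∧ (D1 : Set Ω) ⊆ Z ∧ X1 ⊆ X ∧ X1.Infinite ∧
      (∀ x ∈ X1, ∀ g ∈ G, (∀ z ∈ D1, g z = z) → g x ∈ X1) ∧
      ∀ (D : Finset Ω) (Y : Set Ω), (D : Set Ω) ⊆ Z →
        (∀ x ∈ Y, ∀ g ∈ G, (∀ z ∈ D, g z = z) → g x ∈ Y) →
        (X1 ∩ Y).Finite ∨ (X1 \ Y).Finite := by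
  classical
  by_contra hcon
  push Not at hcon
  let lift : Set Ω → Set (Fin 1 → Ω) := fun X => {a | a 0 ∈ X}
  refine not_countable_of_tree hG (Z := Z) (n := 1) {W | ∃ (D : Finset Ω) (X1 : Set Ω),
      D0 ⊆ D ∧ (D : Set Ω) ⊆ Z ∧ X1 ⊆ X ∧ X1.Infinite ∧
      (∀ x ∈ X1, ∀ g ∈ G, (∀ z ∈ D, g z = z) → g x ∈ X1) ∧ W = lift X1} ?_ ?_ ?_ ?_ hst
  · exact ⟨lift X, D0, X, subset_rfl, hDZ, subset_rfl, hXinf, hXinv, rfl⟩
  · rintro _ ⟨D, X1, -, -, -, hX1, -, rfl⟩
    obtain ⟨x, hx⟩ := hX1.nonempty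
    exact ⟨fun _ => x, hx⟩
  · rintro _ ⟨D, X1, -, hDZ1, -, -, hD, rfl⟩
    refine ⟨D, hDZ1, ?_⟩
    rintro a ha b ⟨g, hg, hgD, hab⟩
    show b 0 ∈ X1
    rw [← hab 0]
    exact hD _ ha g hg hgD
  · rintro _ ⟨D, X1, hD0, hDZ1, hX1X, hX1, hD, rfl⟩
    obtain ⟨E, Y, hEZ, hY, h1, h2⟩ := hcon D X1 hD0 hDZ1 hX1X hX1 hD
    have hDE : ((D ∪ E : Finset Ω) : Set Ω) ⊆ Z := by
      rw [Finset.coe_union]
      exact union_subset hDZ1 hEZ
    refine ⟨lift (X1 ∩ Y), ⟨D ∪ E, X1 ∩ Y, hD0.trans Finset.subset_union_left, hDE,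
      inter_subset_left.trans hX1X, h1, ?_, rfl⟩, lift (X1 \ Y),
      ⟨D ∪ E, X1 \ Y, hD0.trans Finset.subset_union_left, hDE, sdiff_subset.trans hX1X,
      h2, ?_, rfl⟩, fun a ha => ha.1, fun a ha => ha.1, ?_⟩
    · rintro x ⟨hx, hx'⟩ g hg hgD
      exact ⟨hD x hx g hg fun z hz => hgD z (Finset.mem_union_left _ hz),
        hY x hx' g hg fun z hz => hgD z (Finset.mem_union_right _ hz)⟩
    · rintro x ⟨hx, hx'⟩ g hg hgD
      refine ⟨hD x hx g hg fun z hz => hgD z (Finset.mem_union_left _ hz), fun hcon' => hx' ?_⟩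
      have h3 := hY (g x) hcon' g⁻¹ (G.inv_mem hg) (by
        intro z hz
        rw [Equiv.Perm.inv_eq_iff_eq]
        exact (hgD z (Finset.mem_union_right _ hz)).symm)
      simpa using h3
    · rw [Set.disjoint_left]
      rintro a ⟨-, ha⟩ ⟨-, ha'⟩
      exact ha' ha

/-- A set which is not split by sets definable over `Z` is not split by definable sets, if there
are countably many types over `Z`. -/
theorem unsplit {G : Subgroup (Equiv.Perm Ω)} (hG : Oligomorphic G)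
    {Z : Set Ω} {D1 : Finset Ω} {X1 : Set Ω} (hDZ : (D1 : Set Ω) ⊆ Z) (hXZ : X1 ⊆ Z)
    (hXinv : ∀ x ∈ X1, ∀ g ∈ G, (∀ z ∈ D1, g z = z) → g x ∈ X1)
    (hun : ∀ (D : Finset Ω) (Y : Set Ω), (D : Set Ω) ⊆ Z →
        (∀ x ∈ Y, ∀ g ∈ G, (∀ z ∈ D, g z = z) → g x ∈ Y) →
        (X1 ∩ Y).Finite ∨ (X1 \ Y).Finite) (hst : ∀ n, Countable (TypeOver G Z n)) :
    ∀ (C : Finset Ω) (Y : Set Ω), (∀ x ∈ Y, ∀ g ∈ G, (∀ z ∈ C, g z = z) → g x ∈ Y) →
        (X1 ∩ Y).Finite ∨ (X1 \ Y).Finite := by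
  classical
  intro C Y hY
  by_contra hcon
  push Not at hcon
  have hinf1 : (X1 ∩ Y).Infinite := hcon.1
  have hinf2 : (X1 \ Y).Infinite := hcon.2
  let t : Fin C.card → Ω := fun i => (C.equivFin.symm i : Ω)
  have ht : ∀ z ∈ C, ∃ i, t i = z := fun z hz => ⟨C.equivFin ⟨z, hz⟩, by simp [t]⟩
  refine not_countable_of_tree hG (Z := Z) (n := C.card) {W | ∃ (E : Finset Ω)
      (γ : Equiv.Perm Ω), D1 ⊆ E ∧ (E : Set Ω) ⊆ Z ∧ γ ∈ G ∧ (∀ z ∈ D1, γ z = z) ∧
      W = Orb G E (fun i => γ (t i))} ?_ ?_ ?_ ?_ (hst C.card)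
  · exact ⟨_, D1, 1, subset_rfl, hDZ, G.one_mem, fun _ _ => rfl, rfl⟩
  · rintro _ ⟨E, γ, -, -, -, -, rfl⟩
    exact ⟨_, mem_orb_self G _ _⟩
  · rintro _ ⟨E, γ, -, hEZ, -, -, rfl⟩
    refine ⟨E, hEZ, fun a ha => ?_⟩
    intro b hb
    exact orb_trans ha hb
  · rintro _ ⟨E, γ, hDE, hEZ, hγ, hγD, rfl⟩
    have hfin := finite_algebraic hG E
    have hγi : ∀ z ∈ D1, γ⁻¹ z = z := by
      intro z hz
      rw [Equiv.Perm.inv_eq_iff_eq]
      exact (hγD z hz).symm
    -- points of `X1` in and out of `γ Y`, not algebraic over `E`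
    have h1 : ({x | x ∈ X1 ∧ γ⁻¹ x ∈ Y}).Infinite := by
      refine (hinf1.image (f := γ) (γ.injective.injOn)).mono ?_
      rintro _ ⟨x, ⟨hx, hxY⟩, rfl⟩
      exact ⟨hXinv x hx γ hγ hγD, by simpa using hxY⟩
    have h2 : ({x | x ∈ X1 ∧ γ⁻¹ x ∉ Y}).Infinite := by
      refine (hinf2.image (f := γ) (γ.injective.injOn)).mono ?_
      rintro _ ⟨x, ⟨hx, hxY⟩, rfl⟩
      exact ⟨hXinv x hx γ hγ hγD, by simpa using hxY⟩
    obtain ⟨x, ⟨hxX, hxY⟩, hxE⟩ := (h1.sdiff hfin).nonempty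
    obtain ⟨x', ⟨hxX', hxY'⟩, hxE'⟩ := (h2.sdiff hfin).nonempty
    -- they are conjugate over `E`
    have hconj : ∃ g ∈ G, (∀ z ∈ E, g z = z) ∧ g x = x' := by
      let O : Set Ω := {b | ∃ g ∈ G, (∀ z ∈ E, g z = z) ∧ g x = b}
      have hOinf : O.Infinite := hxE
      have hOX : O ⊆ X1 := by
        rintro b ⟨g, hg, hgE, rfl⟩
        exact hXinv x hxX g hg fun z hz => hgE z (hDE hz)
      have hOinv : ∀ b ∈ O, ∀ g ∈ G, (∀ z ∈ E, g z = z) → g b ∈ O := by
        rintro b ⟨h, hh, hhE, rfl⟩ g hg hgE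
        refine ⟨g * h, G.mul_mem hg hh, fun z hz => ?_, rfl⟩
        show g (h z) = z
        rw [hhE z hz, hgE z hz]
      by_contra hno
      have hyO : x' ∉ O := hno
      rcases hun E O hEZ hOinv with h | h
      · rw [inter_eq_self_of_subset_right hOX] at h
        exact hOinf h
      · apply hxE'
        show IsAlgebraicOver G E x'
        refine h.subset ?_
        rintro b ⟨g, hg, hgE, rfl⟩
        refine ⟨hXinv x' hxX' g hg fun z hz => hgE z (hDE hz), fun hcon' => hyO ?_⟩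
        have := hOinv _ hcon' g⁻¹ (G.inv_mem hg) (by
          intro z hz
          rw [Equiv.Perm.inv_eq_iff_eq]
          exact (hgE z hz).symm)
        simpa using this
    obtain ⟨g, hg, hgE, hgx⟩ := hconj
    have hE'Z : ((insert x' E : Finset Ω) : Set Ω) ⊆ Z := by
      rw [Finset.coe_insert]
      exact insert_subset (hXZ hxX') hEZ
    have hsub : E ⊆ insert x' E := Finset.subset_insert _ _
    refine ⟨Orb G (insert x' E) (fun i => γ (t i)), ⟨insert x' E, γ, hDE.trans hsub, hE'Z, hγ,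
      hγD, rfl⟩, Orb G (insert x' E) (fun i => (g * γ : Equiv.Perm Ω) (t i)),
      ⟨insert x' E, g * γ, hDE.trans hsub, hE'Z, G.mul_mem hg hγ, ?_, rfl⟩, orb_anti hsub _,
      ?_, ?_⟩
    · intro z hz
      show g (γ z) = z
      rw [hγD z hz, hgE z (hDE hz)]
    · intro b hb
      refine orb_trans ?_ (orb_anti hsub _ hb)
      exact ⟨g, hg, hgE, fun i => rfl⟩
    · rw [Set.disjoint_left]
      rintro b ⟨k1, hk1, hk1E, hk1b⟩ ⟨k2, hk2, hk2E, hk2b⟩
      -- `k = k2⁻¹ k1` maps `γ t` to `g γ t` and fixes `x'`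
      apply hxY'
      have hfix : ∀ z ∈ C, ((k1 * γ)⁻¹ * (k2 * (g * γ))) z = z := by
        intro z hz
        obtain ⟨i, rfl⟩ := ht z hz
        show (k1 * γ)⁻¹ (k2 (g (γ (t i)))) = t i
        rw [Equiv.Perm.inv_eq_iff_eq]
        exact (hk2b i).trans (hk1b i).symm
      have hmem : ((k1 * γ)⁻¹ * (k2 * (g * γ))) ∈ G :=
        G.mul_mem (G.inv_mem (G.mul_mem hk1 hγ)) (G.mul_mem hk2 (G.mul_mem hg hγ))
      have h3 := hY _ hxY _ hmem hfix
      have h4 : ((k1 * γ)⁻¹ * (k2 * (g * γ))) (γ⁻¹ x) = γ⁻¹ x' := by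
        show (k1 * γ)⁻¹ (k2 (g (γ (γ⁻¹ x)))) = γ⁻¹ x'
        rw [Equiv.Perm.inv_eq_iff_eq]
        show k2 (g (γ (γ⁻¹ x))) = k1 (γ (γ⁻¹ x'))
        have e1 : γ (γ⁻¹ x) = x := by simp
        have e2 : γ (γ⁻¹ x') = x' := by simp
        rw [e1, e2, hgx, hk2E x' (Finset.mem_insert_self _ _),
          hk1E x' (Finset.mem_insert_self _ _)]
      rw [h4] at h3
      exact h3

/-- The family of conjugates of a set with parameters. -/
def famR (G : Subgroup (Equiv.Perm Ω)) (c : List Ω) (X : Set Ω) : Set (Ω × List Ω) :=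
  {p | ∃ g ∈ G, ∃ x ∈ X, p = (g x, c.map g)}

theorem mem_famR_self {G : Subgroup (Equiv.Perm Ω)} {c : List Ω} {X : Set Ω}
    (hX : ∀ x ∈ X, ∀ g ∈ G, (∀ z ∈ c, g z = z) → g x ∈ X) {x : Ω} :
    (x, c) ∈ famR G c X ↔ x ∈ X := by
  constructor
  · rintro ⟨g, hg, y, hy, h⟩
    obtain ⟨rfl, h2⟩ := Prod.mk.inj h
    apply hX y hy g hg
    intro z hz
    have h3 : c.map g = c.map id := by rw [List.map_id]; exact h2.symm
    exact (List.map_inj_left.1 h3) z hz
  · intro hx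
    refine ⟨1, G.one_mem, x, hx, ?_⟩
    rw [map_eq_self (g := 1) (fun z _ => rfl)]
    rfl

theorem smFamily_of_minimal [DecidableEq Ω] {G : Subgroup (Equiv.Perm Ω)}
    {D0 : Finset Ω} {X : Set Ω} (hXinf : X.Infinite)
    (hX : ∀ x ∈ X, ∀ g ∈ G, (∀ z ∈ D0, g z = z) → g x ∈ X)
    (hsplit : ∀ (D : Finset Ω) (Y : Set Ω), (∀ x ∈ Y, ∀ g ∈ G, (∀ z ∈ D, g z = z) → g x ∈ Y) →
        (X ∩ Y).Finite ∨ (X \ Y).Finite) :
    SMFamily G (famR G D0.toList X) ∧ ∀ x, (x, D0.toList) ∈ famR G D0.toList X ↔ x ∈ X := by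
  classical
  have hX' : ∀ x ∈ X, ∀ g ∈ G, (∀ z ∈ D0.toList, g z = z) → g x ∈ X := by
    intro x hx g hg h
    exact hX x hx g hg fun z hz => h z (Finset.mem_toList.2 hz)
  -- the key property over `D0`
  have key : ∀ (E : Finset Ω) (x y : Ω), D0 ⊆ E → x ∈ X → y ∈ X → ¬ IsAlgebraicOver G E x →
      ¬ IsAlgebraicOver G E y → ∃ g ∈ G, (∀ z ∈ E, g z = z) ∧ g x = y := by
    intro E x y hE hx hy hxE hyE
    let Y : Set Ω := {b | ∃ g ∈ G, (∀ z ∈ E, g z = z) ∧ g x = b}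
    have hYinf : Y.Infinite := hxE
    have hYX : Y ⊆ X := by
      rintro b ⟨g, hg, hgE, rfl⟩
      exact hX x hx g hg fun z hz => hgE z (hE hz)
    have hYinv : ∀ b ∈ Y, ∀ g ∈ G, (∀ z ∈ E, g z = z) → g b ∈ Y := by
      rintro b ⟨h, hh, hhE, rfl⟩ g hg hgE
      refine ⟨g * h, G.mul_mem hg hh, fun z hz => ?_, rfl⟩
      show g (h z) = z
      rw [hhE z hz, hgE z hz]
    by_contra hcon
    have hyY : y ∉ Y := hcon
    rcases hsplit E Y hYinv with h | h
    · rw [inter_eq_self_of_subset_right hYX] at h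
      exact hYinf h
    · apply hyE
      refine h.subset ?_
      rintro b ⟨g, hg, hgE, rfl⟩
      refine ⟨hX y hy g hg fun z hz => hgE z (hE hz), fun hcon' => hyY ?_⟩
      have := hYinv _ hcon' g⁻¹ (G.inv_mem hg) (by
        intro z hz
        rw [Equiv.Perm.inv_eq_iff_eq]
        exact (hgE z hz).symm)
      simpa using this
  refine ⟨⟨?_, ?_, ?_⟩, fun x => mem_famR_self hX'⟩
  · intro h hh p
    constructor
    · rintro ⟨g, hg, x, hx, rfl⟩
      refine ⟨h * g, G.mul_mem hh hg, x, hx, ?_⟩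
      simp only [List.map_map]
      rfl
    · rintro ⟨g, hg, x, hx, hp⟩
      obtain ⟨h1, h2⟩ := Prod.mk.inj hp
      refine ⟨h⁻¹ * g, G.mul_mem (G.inv_mem hh) hg, x, hx, ?_⟩
      apply Prod.ext
      · show p.1 = h⁻¹ (g x)
        rw [← h1]
        simp
      · show p.2 = D0.toList.map (h⁻¹ * g : Equiv.Perm Ω)
        have h3 : D0.toList.map (h⁻¹ * g : Equiv.Perm Ω) =
            (D0.toList.map g).map (h⁻¹ : Equiv.Perm Ω) := by
          rw [List.map_map]
          rfl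
        rw [h3, ← h2, List.map_map]
        conv_lhs => rw [← List.map_id p.2]
        apply List.map_congr_left
        intro z _
        show z = h⁻¹ (h z)
        simp
  · rintro q x ⟨g, hg, x', hx', hp⟩
    obtain ⟨-, h2⟩ := Prod.mk.inj hp
    refine ((hXinf.image (f := g) (g.injective.injOn))).mono ?_
    rintro _ ⟨y, hy, rfl⟩
    exact ⟨g, hg, y, hy, by rw [h2]⟩
  · rintro q D x y hqD ⟨g, hg, x0, hx0, hp⟩ ⟨g', hg', y0, hy0, hp'⟩ hxD hyD
    obtain ⟨rfl, rfl⟩ := Prod.mk.inj hp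
    obtain ⟨rfl, h2⟩ := Prod.mk.inj hp'
    have hy1 : g⁻¹ (g' y0) ∈ X := by
      have h3 : ∀ z ∈ D0.toList, g z = g' z := fun z hz => (List.map_inj_left.1 h2) z hz
      refine hX' y0 hy0 (g⁻¹ * g') (G.mul_mem (G.inv_mem hg) hg') ?_
      intro z hz
      show g⁻¹ (g' z) = z
      rw [← h3 z hz]
      simp
    have hD0 : D0 ⊆ D.image (g⁻¹ : Equiv.Perm Ω) := by
      intro z hz
      refine Finset.mem_image.2 ⟨g z, hqD _ (List.mem_map_of_mem (Finset.mem_toList.2 hz)), ?_⟩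
      simp
    have hx1 : ¬ IsAlgebraicOver G (D.image (g⁻¹ : Equiv.Perm Ω)) x0 := by
      have h4 := (alg_image_iff (G := G) (F := D) (x := g x0) (G.inv_mem hg)).not
      rw [← h4] at hxD
      simpa using hxD
    have hy2 : ¬ IsAlgebraicOver G (D.image (g⁻¹ : Equiv.Perm Ω)) (g⁻¹ (g' y0)) :=
      (alg_image_iff (G := G) (F := D) (x := g' y0) (G.inv_mem hg)).not.2 hyD
    obtain ⟨h, hh, hhD, hhx⟩ := key _ x0 _ hD0 hx0 hy1 hx1 hy2
    refine ⟨g * h * g⁻¹, G.mul_mem (G.mul_mem hg hh) (G.inv_mem hg), ?_, ?_⟩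
    · intro z hz
      show g (h (g⁻¹ z)) = z
      rw [hhD _ (Finset.mem_image_of_mem _ hz)]
      simp
    · show g (h (g⁻¹ (g x0))) = g' y0
      have h5 : g⁻¹ (g x0) = x0 := by simp
      rw [h5, hhx]
      simp

/-- Countably many types over `Z` give embeddedness. -/
theorem embedded_of_stable [DecidableEq Ω] {G : Subgroup (Equiv.Perm Ω)}
    (hG : Oligomorphic G) {Z : Set Ω} (hst : ∀ n, Countable (TypeOver G Z n))
    {R : Set (Ω × List Ω)} (hS : SMFamily G R)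
    {c : List Ω} (hcZ : ∀ z ∈ c, z ∈ Z) (hRZ : ∀ x, (x, c) ∈ R → x ∈ Z) : Embedded G R c := by
  classical
  intro C hcC
  by_contra hcon
  push Not at hcon
  let t : Fin C.card → Ω := fun i => (C.equivFin.symm i : Ω)
  have ht : ∀ z ∈ C, ∃ i, t i = z := fun z hz => ⟨C.equivFin ⟨z, hz⟩, by simp [t]⟩
  refine not_countable_of_tree hG (Z := Z) (n := C.card) {Y | ∃ (E : Finset Ω)
      (γ : Equiv.Perm Ω), (∀ e ∈ E, (e, c) ∈ R) ∧ γ ∈ G ∧ (∀ z ∈ c, γ z = z) ∧
      Y = Orb G (c.toFinset ∪ E) (fun i => γ (t i))} ?_ ?_ ?_ ?_ (hst C.card)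
  · exact ⟨_, ∅, 1, by simp, G.one_mem, fun _ _ => rfl, rfl⟩
  · rintro _ ⟨E, γ, -, -, -, rfl⟩
    exact ⟨_, mem_orb_self G _ _⟩
  · rintro _ ⟨E, γ, hE, -, -, rfl⟩
    refine ⟨c.toFinset ∪ E, ?_, fun a ha => ?_⟩
    · intro z hz
      rcases Finset.mem_union.1 (Finset.mem_coe.1 hz) with hz | hz
      · exact hcZ z (by simpa using hz)
      · exact hRZ z (hE z hz)
    intro b hb
    exact orb_trans ha hb
  · rintro _ ⟨E, γ, hE, hγ, hγc, rfl⟩
    have hγc' : c.map γ = c := map_eq_self hγc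
    have hγi : ∀ e, (e, c) ∈ R → (γ⁻¹ e, c) ∈ R := by
      intro e he
      exact (hS.inv γ hγ (γ⁻¹ e, c)).2 (by simpa [hγc'] using he)
    have hγf : ∀ e, (e, c) ∈ R → (γ e, c) ∈ R := by
      intro e he
      have := (hS.inv γ hγ (e, c)).1 he
      simpa [hγc'] using this
    obtain ⟨y0, x0, hy0, hx0, hal, hnal⟩ := hcon (E.image (γ⁻¹ : Equiv.Perm Ω)) (by
      intro e he
      obtain ⟨w, hw, rfl⟩ := Finset.mem_image.1 he
      exact hγi w (hE w hw))
    have hal1 : IsAlgebraicOver G (insert (γ y0) (C.image γ)) (γ x0) := by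
      rw [← Finset.image_insert, alg_image_iff hγ]
      exact hal
    have himg : (insert y0 (c.toFinset ∪ E.image (γ⁻¹ : Equiv.Perm Ω))).image γ =
        insert (γ y0) (c.toFinset ∪ E) := by
      rw [Finset.image_insert, Finset.image_union, Finset.image_image]
      congr 1
      congr 1
      · rw [Finset.image_congr (g := id) (fun y hy => hγc y (by simpa using hy)),
          Finset.image_id]
      · ext z
        simp
    have hnal1 : ¬ IsAlgebraicOver G (insert (γ y0) (c.toFinset ∪ E)) (γ x0) := by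
      rw [← himg, alg_image_iff hγ]
      exact hnal
    let y := γ y0
    let x := γ x0
    let K1 : Finset Ω := insert y (C.image γ) ∪ (c.toFinset ∪ E)
    have hOfin : {b | ∃ g ∈ G, (∀ z ∈ K1, g z = z) ∧ g x = b}.Finite :=
      isAlgebraicOver_mono G Finset.subset_union_left hal1
    obtain ⟨h, hh, hh'⟩ := neumann (stab G (insert y (c.toFinset ∪ E))) hOfin.toFinset
      hOfin.toFinset (by
        intro o ho hfin
        rw [Set.Finite.mem_toFinset] at ho
        obtain ⟨g, hg, hgK, rfl⟩ := ho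
        apply hnal1
        have hgK' : ∀ z ∈ insert y (c.toFinset ∪ E), g z = z := by
          intro z hz
          apply hgK
          rcases Finset.mem_insert.1 hz with rfl | hz
          · exact Finset.mem_union_left _ (Finset.mem_insert_self _ _)
          · exact Finset.mem_union_right _ hz
        refine hfin.subset ?_
        rintro b ⟨g', hg', hg'K, rfl⟩
        refine ⟨g' * g⁻¹, ⟨G.mul_mem hg' (G.inv_mem hg), ?_⟩, ?_⟩
        · intro z hz
          show g' (g⁻¹ z) = z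
          have h1 : g⁻¹ z = z := by
            rw [Equiv.Perm.inv_eq_iff_eq]
            exact (hgK' z hz).symm
          rw [h1, hg'K z hz]
        · show g' (g⁻¹ (g x)) = g' x
          simp)
    have hhK : ∀ z ∈ insert y (c.toFinset ∪ E), h z = z := hh.2
    have hhc : ∀ z ∈ c, h z = z := fun z hz => hhK z
      (Finset.mem_insert_of_mem (Finset.mem_union_left _ (by simpa using hz)))
    let E' : Finset Ω := insert y (insert x E)
    have hE' : ∀ e ∈ E', (e, c) ∈ R := by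
      intro e he
      rcases Finset.mem_insert.1 he with rfl | he
      · exact hγf y0 hy0
      · rcases Finset.mem_insert.1 he with rfl | he
        · exact hγf x0 hx0
        · exact hE e he
    have hEE' : c.toFinset ∪ E ⊆ c.toFinset ∪ E' := Finset.union_subset_union_right
      ((Finset.subset_insert _ _).trans (Finset.subset_insert _ _))
    refine ⟨Orb G (c.toFinset ∪ E') (fun i => γ (t i)), ⟨E', γ, hE', hγ, hγc, rfl⟩,
      Orb G (c.toFinset ∪ E') (fun i => (h * γ : Equiv.Perm Ω) (t i)),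
      ⟨E', h * γ, hE', G.mul_mem hh.1 hγ, ?_, rfl⟩, orb_anti hEE' _, ?_, ?_⟩
    · intro z hz
      show h (γ z) = z
      rw [hγc z hz, hhc z hz]
    · intro b hb
      refine orb_trans ?_ (orb_anti hEE' _ hb)
      exact ⟨h, hh.1, fun z hz => hhK z (Finset.mem_insert_of_mem hz), fun i => rfl⟩
    · rw [Set.disjoint_left]
      rintro b ⟨k1, hk1, hk1E, hk1b⟩ ⟨k2, hk2, hk2E, hk2b⟩
      -- `h⁻¹ k2⁻¹ k1` fixes the tuple
      have hfixC : ∀ z ∈ C.image γ, (h⁻¹ * (k2⁻¹ * k1)) z = z := by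
        intro z hz
        obtain ⟨w, hw, rfl⟩ := Finset.mem_image.1 hz
        obtain ⟨i, rfl⟩ := ht w hw
        show h⁻¹ (k2⁻¹ (k1 (γ (t i)))) = γ (t i)
        rw [hk1b i, ← hk2b i]
        show h⁻¹ (k2⁻¹ (k2 (h (γ (t i))))) = γ (t i)
        simp
      have hfixE : ∀ z ∈ c.toFinset ∪ E', (k2⁻¹ * k1) z = z := by
        intro z hz
        show k2⁻¹ (k1 z) = z
        rw [hk1E z hz, Equiv.Perm.inv_eq_iff_eq]
        exact (hk2E z hz).symm
      have hhinv : ∀ z ∈ insert y (c.toFinset ∪ E), h⁻¹ z = z := by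
        intro z hz
        rw [Equiv.Perm.inv_eq_iff_eq]
        exact (hhK z hz).symm
      have hxE' : x ∈ c.toFinset ∪ E' :=
        Finset.mem_union_right _ (Finset.mem_insert_of_mem (Finset.mem_insert_self _ _))
      have hyE' : y ∈ c.toFinset ∪ E' :=
        Finset.mem_union_right _ (Finset.mem_insert_self _ _)
      have hfixK : ∀ z ∈ K1, (h⁻¹ * (k2⁻¹ * k1)) z = z := by
        intro z hz
        rcases Finset.mem_union.1 hz with hz | hz
        · rcases Finset.mem_insert.1 hz with rfl | hz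
          · show h⁻¹ ((k2⁻¹ * k1) y) = y
            rw [hfixE y hyE', hhinv y (Finset.mem_insert_self _ _)]
          · exact hfixC z hz
        · show h⁻¹ ((k2⁻¹ * k1) z) = z
          rw [hfixE z (hEE' hz), hhinv z (Finset.mem_insert_of_mem hz)]
      have hxO : x ∈ hOfin.toFinset := by
        rw [Set.Finite.mem_toFinset]
        exact ⟨1, G.one_mem, fun _ _ => rfl, rfl⟩
      have hxO' : h⁻¹ x ∈ hOfin.toFinset := by
        rw [Set.Finite.mem_toFinset]
        refine ⟨h⁻¹ * (k2⁻¹ * k1), G.mul_mem (G.inv_mem hh.1)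
          (G.mul_mem (G.inv_mem hk2) hk1), hfixK, ?_⟩
        show h⁻¹ ((k2⁻¹ * k1) x) = h⁻¹ x
        rw [hfixE x hxE']
      have := hh' _ hxO'
      apply this
      simpa using hxO

/-- If there are only countably many types over an infinite definable set, there are infinitely
many Polish semigroup topologies. -/
theorem infinite_of_countable_types [Countable Ω] {G : Subgroup (Equiv.Perm Ω)}
    (hG : Oligomorphic G) {D0 : Finset Ω} {X : Set Ω} (hXinf : X.Infinite)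
    (hX : ∀ x ∈ X, ∀ g ∈ G, (∀ z ∈ D0, g z = z) → g x ∈ X)
    (hst : ∀ n, Countable (TypeOver G ((D0 : Set Ω) ∪ X) n)) :
    (PolishSemigroupTopologies G).Infinite := by
  classical
  obtain ⟨D1, X1, -, hD1Z, hX1X, hX1inf, hX1, hun⟩ :=
    exists_minimal_set hG hXinf subset_union_left hX (hst 1)
  have hX1Z : X1 ⊆ (D0 : Set Ω) ∪ X := hX1X.trans subset_union_right
  have hun' := unsplit hG hD1Z hX1Z hX1 hun hst
  obtain ⟨hS, hmem⟩ := smFamily_of_minimal hX1inf hX1 hun'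
  obtain ⟨x, hx⟩ := hX1inf.nonempty
  refine infinite_of_stronglyMinimal hG hS ⟨x, (hmem x).2 hx⟩
    (embedded_of_stable hG hst hS ?_ ?_)
  · intro z hz
    exact hD1Z (Finset.mem_coe.2 (Finset.mem_toList.1 hz))
  · intro x hx
    exact hX1Z ((hmem x).1 hx)

end PST
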