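import Mathlib
import Pool.Agent.Helper26.PST.LocalSet

open TopologicalSpace Set Filter Topology
open scoped ENNReal

namespace PST

variable {Ω : Type*} [DecidableEq Ω] {G : Subgroup (Equiv.Perm Ω)}

/-- Every `G`-invariant transitive relation on tuples is symmetric between conjugate tuples: for
oligomorphic `G` this is the absence of the strict order property. -/
def NoStrictOrder (G : Subgroup (Equiv.Perm Ω)) : Prop :=
  ∀ (n : ℕ) (R : (Fin n → Ω) → (Fin n → Ω) → Prop),
    (∀ g ∈ G, ∀ a b, R a b → R (g ∘ a) (g ∘ b)) → (∀ a b c, R a b → R b c → R a c) →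
    ∀ (a : Fin n → Ω), ∀ g ∈ G, R a (g ∘ a) → R (g ∘ a) a

/-- A symmetric ordinal-valued rank: `r A B` is the rank of the finite set `A` over the finite
set `B`. -/
structure IsSymRank (G : Subgroup (Equiv.Perm Ω)) (r : Finset Ω → Finset Ω → Ordinal.{0}) :
    Prop where
  inv : ∀ g ∈ G, ∀ A B : Finset Ω, r (A.image g) (B.image g) = r A B
  mono : ∀ A B C : Finset Ω, B ⊆ C → r A C ≤ r A B
  alg : ∀ (x : Ω) (B : Finset Ω), r {x} B = 0 ↔ IsAlgebraicOver G B x
  symm : ∀ A B C : Finset Ω, r A (B ∪ C) = r A B → r C (B ∪ A) = r C B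

theorem ofFn_comp {n : ℕ} (g : Equiv.Perm Ω) (a : Fin n → Ω) :
    List.ofFn (g ∘ a) = (List.ofFn a).map g := by
  rw [List.map_ofFn]

/-- without the strict order property, a locally geometric set gives infinitely many
topologies -/
theorem infinite_of_noStrictOrder [Countable Ω] (hG : Oligomorphic G) (hN : NoStrictOrder G)
    {D₀ : Finset Ω} {X : Set Ω} (hX : ∀ x ∈ X, ∀ g ∈ G, (∀ z ∈ D₀, g z = z) → g x ∈ X) {a : Ω}
    (ha : a ∈ X) (ha' : ¬ IsAlgebraicOver G D₀ a)
    (hex : ∀ (D : Finset Ω) (x y : Ω), (∀ z ∈ D, z ∈ X) → x ∈ X → y ∈ X →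
      ¬ IsAlgebraicOver G (D₀ ∪ D) x → IsAlgebraicOver G (insert y (D₀ ∪ D)) x →
      IsAlgebraicOver G (insert x (D₀ ∪ D)) y)
    (hem : ∀ C : Finset Ω, ∃ E : Finset Ω, (∀ z ∈ E, z ∈ X) ∧ ∀ x ∈ X, ∀ y ∈ X,
      IsAlgebraicOver G (insert y (D₀ ∪ C)) x → IsAlgebraicOver G (insert y (D₀ ∪ E)) x) :
    (PolishSemigroupTopologies G).Infinite := by
  classical
  have hS := famR_family hX hex
  apply infinite_of_localGeometric hG hX ha ha' hex hem
  intro Q hQ
  have hQe : Q = ∅ := by
    by_contra hne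
    obtain ⟨g, hg⟩ := Finset.nonempty_iff_ne_empty.2 hne
    obtain ⟨hgG, h1, h2⟩ := hQ g hg
    apply h2
    have hone : D₀.toList.map (1 : Equiv.Perm Ω) = D₀.toList := by
      conv_rhs => rw [← List.map_id D₀.toList]
      rfl
    rw [below_iff hX hS (by simpa using G.one_mem) hgG] at h1
    rw [below_iff hX hS (by simpa using hgG) G.one_mem]
    have h3 : Dom (dm G (famR G D₀ X)) (D₀.toList.map g) D₀.toList := by
      intro f hf
      apply h1 f
      intro q hq
      rw [Finset.mem_singleton.1 hq, hone]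
      exact hf
    have h4 : Dom (dm G (famR G D₀ X)) D₀.toList (D₀.toList.map g) := by
      have key := hN D₀.toList.length
        (fun a b => Dom (dm G (famR G D₀ X)) (List.ofFn a) (List.ofFn b)) ?_ ?_
        (g ∘ D₀.toList.get) g⁻¹ (G.inv_mem hgG) ?_
      · simp only [ofFn_comp, List.ofFn_get] at key
        have h5 : (D₀.toList.map g).map (g⁻¹ : Equiv.Perm Ω) = D₀.toList := by
          rw [List.map_map]
          conv_rhs => rw [← List.map_id D₀.toList]
          apply List.map_congr_left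
          intro z _
          simp
        rw [h5] at key
        exact key
      · intro k hk a b hab
        rw [ofFn_comp, ofFn_comp]
        exact hS.isCocycle.dom_act (ofG k hk) hab
      · intro a b c hab hbc f hf
        exact hab f (hbc f hf)
      · simp only [ofFn_comp, List.ofFn_get]
        have h5 : (D₀.toList.map g).map (g⁻¹ : Equiv.Perm Ω) = D₀.toList := by
          rw [List.map_map]
          conv_rhs => rw [← List.map_id D₀.toList]
          apply List.map_congr_left
          intro z _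
          simp
        rw [h5]
        exact h3
    intro f hf
    rw [hone]
    exact h4 f (hf g (by simp))
  subst hQe
  intro hB
  -- an element over `D₀` omitting `a`
  have hone : D₀.toList.map (1 : Equiv.Perm Ω) = D₀.toList := by
    conv_rhs => rw [← List.map_id D₀.toList]
    rfl
  rw [below_iff hX hS (by simp) G.one_mem] at hB
  have hCtrl : Ctrl G (famR G D₀ X) D₀.toList := by
    intro C
    obtain ⟨E, hE1, hE2⟩ := hem C
    refine ⟨E, fun e he => (mem_famR_one hX).2 (hE1 e he), fun x y hx hy h => ?_⟩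
    rw [Finset.toList_toFinset] at h ⊢
    exact hE2 x ((mem_famR_one hX).1 hx) y ((mem_famR_one hX).1 hy) h
  obtain ⟨f, -, hf⟩ := hS.exists_one hG ((mem_famR_one hX).2 ha) (by simpa using ha') hCtrl
  have h1 := hB f (by simp)
  rw [hone, hf] at h1
  exact one_ne_zero h1

/-- With a symmetric ordinal-valued rank and without the strict order property there are
infinitely many Polish semigroup topologies. -/
theorem infinite_of_symRank [Countable Ω] [Infinite Ω] (hG : Oligomorphic G)
    (hN : NoStrictOrder G) {r : Finset Ω → Finset Ω → Ordinal.{0}} (hr : IsSymRank G r) :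
    (PolishSemigroupTopologies G).Infinite := by
  classical
  -- a point of minimal positive rank
  let V : Set Ordinal.{0} := {o | o ≠ 0 ∧ ∃ x B, r {x} B = o}
  have hV : V.Nonempty := by
    have hfin := finite_algebraic hG ∅
    obtain ⟨x, hx⟩ := hfin.infinite_compl.nonempty
    exact ⟨r {x} ∅, fun h => hx ((hr.alg x ∅).1 h), x, ∅, rfl⟩
  obtain ⟨hs0, a, D₀, has⟩ := (WellFounded.min_mem Ordinal.lt_wf V hV)
  set s := Ordinal.lt_wf.min V hV with hs
  have hmin : ∀ x B, r {x} B ≠ 0 → s ≤ r {x} B := fun x B h =>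
    WellFounded.min_le Ordinal.lt_wf (show r {x} B ∈ V from ⟨h, x, B, rfl⟩)
  let X : Set Ω := {y | ∃ g ∈ G, (∀ z ∈ D₀, g z = z) ∧ g a = y}
  have hX : ∀ x ∈ X, ∀ g ∈ G, (∀ z ∈ D₀, g z = z) → g x ∈ X := by
    rintro _ ⟨k, hk, hkD, rfl⟩ g hg hgD
    exact ⟨g * k, G.mul_mem hg hk, fun z hz => by
      show g (k z) = z
      rw [hkD z hz, hgD z hz], rfl⟩
  have haX : a ∈ X := ⟨1, G.one_mem, fun _ _ => rfl, rfl⟩
  have ha' : ¬ IsAlgebraicOver G D₀ a := fun h => hs0 (has ▸ (hr.alg a D₀).2 h)
  have hXs : ∀ x ∈ X, ∀ B : Finset Ω, D₀ ⊆ B → ¬ IsAlgebraicOver G B x → r {x} B = s := by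
    rintro _ ⟨k, hk, hkD, rfl⟩ B hB hal
    apply le_antisymm
    · refine (hr.mono _ _ _ hB).trans ?_
      have h1 := hr.inv k hk {a} D₀
      rw [Finset.image_singleton, Finset.image_congr (g := id) (fun y hy => hkD y hy),
        Finset.image_id, has] at h1
      exact h1.le
    · exact hmin _ _ fun h => hal ((hr.alg _ _).1 h)
  apply infinite_of_noStrictOrder hG hN hX haX ha'
  · intro D x y _ hx hy h1 h2
    by_contra h3
    have hyn : ¬ IsAlgebraicOver G (D₀ ∪ D) y := fun h =>
      h3 (isAlgebraicOver_mono G (Finset.subset_insert _ _) h)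
    have e1 := hXs y hy (insert x (D₀ ∪ D))
      (Finset.subset_union_left.trans (Finset.subset_insert _ _)) h3
    have e2 := hXs y hy (D₀ ∪ D) Finset.subset_union_left hyn
    have e3 := hr.symm {y} (D₀ ∪ D) {x} (by
      rw [Finset.union_comm (D₀ ∪ D) {x}, ← Finset.insert_eq, e1, e2])
    rw [Finset.union_comm (D₀ ∪ D) {y}, ← Finset.insert_eq, (hr.alg _ _).2 h2] at e3
    exact h1 ((hr.alg _ _).1 e3.symm)
  · intro C
    let W : Set Ordinal.{0} := {o | ∃ E : Finset Ω, (∀ z ∈ E, z ∈ X) ∧ r C (D₀ ∪ E) = o}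
    have hW : W.Nonempty := ⟨_, ∅, by simp, rfl⟩
    obtain ⟨E, hE, hEr⟩ := WellFounded.min_mem Ordinal.lt_wf W hW
    have hEmin : ∀ E' : Finset Ω, (∀ z ∈ E', z ∈ X) → r C (D₀ ∪ E) ≤ r C (D₀ ∪ E') := by
      intro E' hE'
      rw [hEr]
      exact WellFounded.min_le Ordinal.lt_wf (show r C (D₀ ∪ E') ∈ W from ⟨E', hE', rfl⟩)
    refine ⟨E, hE, fun x hx y hy hal => ?_⟩
    set B := insert y (D₀ ∪ E) with hB
    have e1 : r C (B ∪ {x}) = r C B := by
      apply le_antisymm (hr.mono _ _ _ Finset.subset_union_left)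
      have h1 : r C B ≤ r C (D₀ ∪ E) := hr.mono _ _ _ (Finset.subset_insert _ _)
      have h2 := hEmin (insert x (insert y E)) (by
        intro z hz
        rcases Finset.mem_insert.1 hz with rfl | hz
        · exact hx
        · rcases Finset.mem_insert.1 hz with rfl | hz
          · exact hy
          · exact hE z hz)
      have h3 : D₀ ∪ insert x (insert y E) = B ∪ {x} := by
        rw [hB]
        ext z
        simp only [Finset.mem_union, Finset.mem_insert, Finset.mem_singleton]
        tauto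
      rw [h3] at h2
      exact h1.trans h2
    have e2 := hr.symm C B {x} e1
    have e3 : r {x} (B ∪ C) = 0 := by
      rw [hr.alg]
      refine isAlgebraicOver_mono G ?_ hal
      rw [hB]
      intro z hz
      simp only [Finset.mem_union, Finset.mem_insert] at hz ⊢
      tauto
    rw [e3] at e2
    exact (hr.alg _ _).1 e2.symm

end PST
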